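import Pool.Agent.H986R2.K4.All

set_option autoImplicit false

/-!
# Quasi-Speiser: control to the left of a vertical line near a sequence of heights
-/

namespace Pool.Agent.Zk17.QS

open Complex Filter Topology Set Metric

/-- control of `g` to the left of `Re s = b n`, near the height `T n` -/
def PA (T b : ℕ → ℝ) (g : ℂ → ℂ) : Prop := ∀ ε X H : ℝ, 0 < ε → ∀ᶠ n in atTop, ∀ s : ℂ,
  -X ≤ s.re → s.re ≤ b n → |s.im - T n| ≤ H → g s ≠ 0 ∧
  ‖logDeriv g s + (Real.log (T n) : ℂ)‖ ≤ ε * Real.log (T n) ∧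
  Real.exp ((1 / 2 - s.re - ε) * Real.log (T n)) ≤ ‖g s‖ ∧
  ‖g s‖ ≤ Real.exp ((1 / 2 - s.re + ε) * Real.log (T n))

/-- no zeros to the left of `Re s = b` near the heights `T n` -/
def NZ (T : ℕ → ℝ) (b : ℝ) (g : ℂ → ℂ) : Prop := ∀ X H : ℝ, ∀ᶠ n in atTop, ∀ s : ℂ,
  -X ≤ s.re → s.re < b → |s.im - T n| ≤ H → g s ≠ 0

/-- analytic in the upper half-plane -/
def An (g : ℂ → ℂ) : Prop := DifferentiableOn ℂ g {s | 0 < s.im}

/-- at most a power in vertical strips -/
def Gr (T : ℕ → ℝ) (g : ℂ → ℂ) : Prop := ∀ X : ℝ, ∃ K : ℝ, ∀ H : ℝ, ∀ᶠ n in atTop, ∀ s : ℂ,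
  |s.re| ≤ X → |s.im - T n| ≤ H → ‖g s‖ ≤ Real.exp (K * Real.log (T n))

/-- small to the right of `Re s = 1` -/
def Rt (T : ℕ → ℝ) (g : ℂ → ℂ) : Prop := ∀ ε η X H : ℝ, 0 < ε → 0 < η → ∀ᶠ n in atTop, ∀ s : ℂ,
  1 + η ≤ s.re → s.re ≤ X → |s.im - T n| ≤ H → ‖g s‖ ≤ Real.exp (ε * Real.log (T n))

/-- the first order operator -/
noncomputable def D (a : ℂ) (g : ℂ → ℂ) : ℂ → ℂ := fun s => deriv g s - a * g s

lemma upper_open : IsOpen {s : ℂ | 0 < s.im} := isOpen_lt continuous_const Complex.continuous_im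

lemma An.at {g : ℂ → ℂ} (h : An g) {s : ℂ} (hs : 0 < s.im) : DifferentiableAt ℂ g s :=
  (h s hs).differentiableAt (upper_open.mem_nhds hs)

lemma An.deriv {g : ℂ → ℂ} (h : An g) : An (deriv g) := DifferentiableOn.deriv h upper_open

lemma An.D {g : ℂ → ℂ} (h : An g) (a : ℂ) : An (D a g) :=
  (h.deriv).sub ((differentiableOn_const a).mul h)

lemma ev_log {T : ℕ → ℝ} (hT : Tendsto T atTop atTop) (c : ℝ) : ∀ᶠ n in atTop, c ≤ Real.log (T n) :=
  (Real.tendsto_log_atTop.comp hT).eventually_ge_atTop c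

lemma ev_T {T : ℕ → ℝ} (hT : Tendsto T atTop atTop) (c : ℝ) : ∀ᶠ n in atTop, c ≤ T n :=
  hT.eventually_ge_atTop c

lemma ev_exp {T : ℕ → ℝ} (hT : Tendsto T atTop atTop) (c ε : ℝ) (hε : 0 < ε) :
    ∀ᶠ n in atTop, c * Real.log (T n) ≤ Real.exp (ε * Real.log (T n)) := by
  have h1 : ∀ᶠ x : ℝ in atTop, c * x ≤ Real.exp (ε * x) := by
    have h2 : Tendsto (fun x : ℝ => Real.exp (ε * x) / x) atTop atTop := by
      have h3 : Tendsto (fun x : ℝ => Real.exp x / x) atTop atTop := by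
        simpa using Real.tendsto_exp_div_pow_atTop 1
      have h4 : Tendsto (fun x : ℝ => ε * x) atTop atTop := tendsto_id.const_mul_atTop hε
      have h5 := (h3.comp h4).const_mul_atTop hε
      refine h5.congr' ?_
      filter_upwards [eventually_gt_atTop 0] with x hx
      simp only [Function.comp]
      field_simp
    filter_upwards [h2.eventually_ge_atTop c, eventually_gt_atTop 0] with x hx hx0
    rwa [le_div_iff₀ hx0] at hx
  exact (Real.tendsto_log_atTop.comp hT).eventually h1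

lemma PA.mono {T b b' : ℕ → ℝ} {g : ℂ → ℂ} (h : PA T b g) (hb : ∀ᶠ n in atTop, b' n ≤ b n) : PA T b' g := by
  intro ε X H hε
  filter_upwards [h ε X H hε, hb] with n h1 h2 s hs1 hs2 hs3
  exact h1 s hs1 (hs2.trans h2) hs3

lemma PA.sub {T b : ℕ → ℝ} {g : ℂ → ℂ} (h : PA T b g) {φ : ℕ → ℕ} (hφ : Tendsto φ atTop atTop) :
    PA (T ∘ φ) (b ∘ φ) g := by
  intro ε X H hε
  exact hφ.eventually (h ε X H hε)

lemma cau {g : ℂ → ℂ} (hg : An g) {s : ℂ} {R C : ℝ} (hR : 0 < R) (hs : R < s.im)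
    (hC : ∀ z : ℂ, ‖z - s‖ ≤ R → ‖g z‖ ≤ C) : ‖deriv g s‖ ≤ C / R := by
  apply Complex.norm_deriv_le_of_forall_mem_sphere_norm_le hR
  · apply DifferentiableOn.diffContOnCl
    intro z hz
    have hz' := closure_ball_subset_closedBall hz
    rw [mem_closedBall, dist_eq_norm] at hz'
    have h1 := Complex.abs_im_le_norm (z - s)
    rw [Complex.sub_im] at h1
    have h2 := (abs_le.1 (h1.trans hz')).1
    exact (hg.at (by linarith)).differentiableWithinAt
  · intro z hz
    rw [mem_sphere, dist_eq_norm] at hz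
    exact hC z hz.le

lemma near_re {z s : ℂ} {r : ℝ} (h : ‖z - s‖ ≤ r) : |z.re - s.re| ≤ r := by
  have := Complex.abs_re_le_norm (z - s)
  rw [Complex.sub_re] at this
  exact this.trans h

lemma near_im {z s : ℂ} {r : ℝ} (h : ‖z - s‖ ≤ r) : |z.im - s.im| ≤ r := by
  have := Complex.abs_im_le_norm (z - s)
  rw [Complex.sub_im] at this
  exact this.trans h

lemma Gr.D {T : ℕ → ℝ} (hT : Tendsto T atTop atTop) {g : ℂ → ℂ} (hg : An g) (h : Gr T g) (a : ℂ) : Gr T (D a g) := by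
  intro X
  obtain ⟨K, hK⟩ := h (X + 1)
  refine ⟨|K| + 1, fun H => ?_⟩
  filter_upwards [hK (H + 1), ev_log hT (1 + ‖a‖), ev_T hT (H + 2)] with n h1 h2 h3 s hs1 hs2
  set L := Real.log (T n) with hL
  have hL0 : 0 ≤ L := by have := norm_nonneg a; linarith
  have him : 1 < s.im := by
    have := (abs_le.1 hs2).1
    linarith
  have hball : ∀ z : ℂ, ‖z - s‖ ≤ 1 → ‖g z‖ ≤ Real.exp (|K| * L) := by
    intro z hz
    refine (h1 z ?_ ?_).trans ?_
    · have e1 := near_re hz
      calc |z.re| = |(z.re - s.re) + s.re| := by ring_nf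
        _ ≤ |z.re - s.re| + |s.re| := abs_add_le _ _
        _ ≤ _ := by linarith
    · have e1 := near_im hz
      calc |z.im - T n| = |(z.im - s.im) + (s.im - T n)| := by ring_nf
        _ ≤ |z.im - s.im| + |s.im - T n| := abs_add_le _ _
        _ ≤ _ := by linarith
    · apply Real.exp_le_exp.2
      apply mul_le_mul_of_nonneg_right (le_abs_self _) hL0
  have h4 := cau hg one_pos him hball
  have h5 := hball s (by simp)
  unfold QS.D
  calc ‖deriv g s - a * g s‖ ≤ ‖deriv g s‖ + ‖a * g s‖ := norm_sub_le _ _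
    _ ≤ Real.exp (|K| * L) / 1 + ‖a‖ * Real.exp (|K| * L) := by
        rw [norm_mul]
        gcongr
    _ = (1 + ‖a‖) * Real.exp (|K| * L) := by ring
    _ ≤ Real.exp L * Real.exp (|K| * L) := by
        gcongr
        have := Real.add_one_le_exp L
        linarith
    _ = _ := by rw [← Real.exp_add]; ring_nf

lemma Rt.D {T : ℕ → ℝ} (hT : Tendsto T atTop atTop) {g : ℂ → ℂ} (hg : An g) (h : Rt T g) (a : ℂ) : Rt T (D a g) := by
  intro ε η X H hε hη
  have hr : 0 < min (η / 2) 1 := by positivity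
  set r := min (η / 2) 1 with hr'
  have hr1 : r ≤ η / 2 := min_le_left _ _
  have hr2 : r ≤ 1 := min_le_right _ _
  filter_upwards [h (ε / 2) (η / 2) (X + 1) (H + 1) (by positivity) (by positivity), ev_log hT 0,
    ev_log hT ((1 / r + ‖a‖) / (ε / 2)), ev_T hT (H + 2)] with n h1 h0 h2 h3 s hs1 hs2 hs3
  set L := Real.log (T n) with hL
  have him : r < s.im := by
    have := (abs_le.1 hs3).1
    linarith
  have hball : ∀ z : ℂ, ‖z - s‖ ≤ r → ‖g z‖ ≤ Real.exp (ε / 2 * L) := by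
    intro z hz
    have e1 := abs_le.1 (near_re hz)
    refine h1 z (by linarith) (by linarith) ?_
    have e1 := near_im hz
    calc |z.im - T n| = |(z.im - s.im) + (s.im - T n)| := by ring_nf
      _ ≤ |z.im - s.im| + |s.im - T n| := abs_add_le _ _
      _ ≤ _ := by linarith
  have h4 := cau hg hr him hball
  have h5 := hball s (by simp [hr.le])
  unfold QS.D
  calc ‖deriv g s - a * g s‖ ≤ ‖deriv g s‖ + ‖a * g s‖ := norm_sub_le _ _
    _ ≤ Real.exp (ε / 2 * L) / r + ‖a‖ * Real.exp (ε / 2 * L) := by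
        rw [norm_mul]
        gcongr
    _ = (1 / r + ‖a‖) * Real.exp (ε / 2 * L) := by ring
    _ ≤ Real.exp (ε / 2 * L) * Real.exp (ε / 2 * L) := by
        gcongr
        have := Real.add_one_le_exp (ε / 2 * L)
        rw [div_le_iff₀ (by positivity)] at h2
        linarith
    _ = _ := by rw [← Real.exp_add]; ring_nf

/-- one application of `D a` keeps the control -/
lemma PA.D {T b b' : ℕ → ℝ} {g : ℂ → ℂ} (hT : Tendsto T atTop atTop) (hg : An g) (h : PA T b g)
    (hb : ∀ᶠ n in atTop, 1 ≤ (b n - b' n) * Real.log (T n)) (a : ℂ) : PA T b' (D a g) := by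
  intro ε X H hε
  set ε1 : ℝ := min (ε / 3) (1 / 4) with hε1
  have hε1p : 0 < ε1 := by positivity
  have hε1a : ε1 ≤ ε / 3 := min_le_left _ _
  have hε1b : ε1 ≤ 1 / 4 := min_le_right _ _
  filter_upwards [h ε1 (X + 1) (H + 1) hε1p, hb, ev_log hT 2, ev_log hT (‖a‖ / ε1), ev_T hT (H + 2),
    ev_exp hT 2 ε1 hε1p] with n h1 h2 h3 h4 h5 h6 s hs1 hs2 hs3
  set L := Real.log (T n) with hL
  have hLpos : 0 < L := by linarith
  have hLa : ‖a‖ ≤ ε1 * L := by
    rw [div_le_iff₀ hε1p] at h4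
    linarith
  have hLinv : 1 / L ≤ 1 := by
    rw [div_le_one hLpos]; linarith
  have him : 1 < s.im := by
    have := (abs_le.1 hs3).1
    linarith
  have hbb : s.re + 1 / L ≤ b n := by
    have : 1 / L ≤ b n - b' n := by
      rw [div_le_iff₀ hLpos]; exact h2
    linarith
  have hnear : ∀ z : ℂ, ‖z - s‖ ≤ 1 / L → 0 < z.im ∧ g z ≠ 0 ∧ ‖logDeriv g z + (L : ℂ)‖ ≤ ε1 * L := by
    intro z hz
    have e1 := abs_le.1 (near_re hz)
    have e2 := near_im hz
    have e3 := abs_le.1 e2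
    have e4 : |z.im - T n| ≤ H + 1 := by
      calc |z.im - T n| = |(z.im - s.im) + (s.im - T n)| := by ring_nf
        _ ≤ |z.im - s.im| + |s.im - T n| := abs_add_le _ _
        _ ≤ _ := by linarith
    obtain ⟨q1, q2, -, -⟩ := h1 z (by linarith) (by linarith) e4
    exact ⟨by linarith, q1, q2⟩
  obtain ⟨-, hg0, hlog, hlo, hup⟩ : _ ∧ _ := by
    refine ⟨trivial, h1 s (by linarith) ?_ (by linarith)⟩
    have : 0 < 1 / L := by positivity
    linarith
  have hldiff : ∀ z : ℂ, ‖z - s‖ ≤ 1 / L → DifferentiableAt ℂ (logDeriv g) z := by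
    intro z hz
    obtain ⟨q0, q1, -⟩ := hnear z hz
    have e : logDeriv g = fun z => deriv g z / g z := by
      funext z; rw [logDeriv_apply]
    rw [e]
    exact (hg.deriv.at q0).div (hg.at q0) q1
  set h' : ℂ := deriv (logDeriv g) s with hh'
  have hder : ‖h'‖ ≤ ε1 * L ^ 2 := by
    have e1 : deriv (fun z => logDeriv g z + (L : ℂ)) s = h' := by
      rw [deriv_add_const]
    have e2 := Complex.norm_deriv_le_of_forall_mem_sphere_norm_le (c := s) (R := 1 / L) (C := ε1 * L)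
      (f := fun z => logDeriv g z + (L : ℂ)) (by positivity) (by
        apply DifferentiableOn.diffContOnCl
        intro z hz
        have hz' := closure_ball_subset_closedBall hz
        rw [mem_closedBall, dist_eq_norm] at hz'
        exact ((hldiff z hz').add_const _).differentiableWithinAt) (by
        intro z hz
        rw [mem_sphere, dist_eq_norm] at hz
        exact (hnear z hz.le).2.2)
    rw [e1] at e2
    calc ‖h'‖ ≤ ε1 * L / (1 / L) := e2
      _ = _ := by field_simp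
  -- the factor
  set q : ℂ := logDeriv g s - a with hq
  have hq1 : ‖q + (L : ℂ)‖ ≤ 2 * ε1 * L := by
    calc ‖q + (L : ℂ)‖ = ‖(logDeriv g s + L) - a‖ := by rw [hq]; ring_nf
      _ ≤ ‖logDeriv g s + L‖ + ‖a‖ := norm_sub_le _ _
      _ ≤ _ := by linarith
  have hqlo : L / 2 ≤ ‖q‖ := by
    have e1 : ‖(L : ℂ)‖ = L := by rw [Complex.norm_real, Real.norm_eq_abs, abs_of_pos hLpos]
    have e2 : ‖(L : ℂ)‖ ≤ ‖q + L‖ + ‖q‖ := by
      calc ‖(L : ℂ)‖ = ‖(q + L) - q‖ := by ring_nf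
        _ ≤ _ := norm_sub_le _ _
    nlinarith
  have hqup : ‖q‖ ≤ 2 * L := by
    have e1 : ‖(L : ℂ)‖ = L := by rw [Complex.norm_real, Real.norm_eq_abs, abs_of_pos hLpos]
    have e2 : ‖q‖ ≤ ‖q + L‖ + ‖(L : ℂ)‖ := by
      calc ‖q‖ = ‖(q + L) - L‖ := by ring_nf
        _ ≤ _ := norm_sub_le _ _
    nlinarith
  have hq0 : q ≠ 0 := by
    intro h0
    rw [h0, norm_zero] at hqlo
    linarith
  have hval : ∀ z : ℂ, g z ≠ 0 → QS.D a g z = g z * (logDeriv g z - a) := by
    intro z hz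
    unfold QS.D
    rw [logDeriv_apply]
    field_simp
  have hev : QS.D a g =ᶠ[𝓝 s] fun z => g z * (logDeriv g z - a) := by
    have : ball s (1 / L) ∈ 𝓝 s := ball_mem_nhds s (by positivity)
    filter_upwards [this] with z hz
    rw [mem_ball, dist_eq_norm] at hz
    exact hval z (hnear z hz.le).2.1
  have hDs : QS.D a g s = g s * q := hval s hg0
  have hne : QS.D a g s ≠ 0 := by rw [hDs]; exact mul_ne_zero hg0 hq0
  have hs0 : ‖s - s‖ ≤ 1 / L := by rw [sub_self, norm_zero]; positivity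
  have hld : logDeriv (QS.D a g) s = logDeriv g s + h' / q := by
    have e1 : logDeriv (QS.D a g) s = logDeriv (fun z => g z * (logDeriv g z - a)) s := by
      rw [logDeriv_apply, logDeriv_apply, hev.deriv_eq, hev.eq_of_nhds]
    rw [e1, logDeriv_mul s hg0 hq0 (hg.at (by linarith)) ((hldiff s hs0).sub_const a)]
    congr 1
    rw [logDeriv_apply, deriv_sub_const]
  refine ⟨hne, ?_, ?_, ?_⟩
  · rw [hld]
    have e1 : ‖h' / q‖ ≤ 2 * ε1 * L := by
      rw [norm_div, div_le_iff₀ (by linarith : 0 < ‖q‖)]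
      nlinarith [mul_pos hε1p hLpos]
    calc ‖logDeriv g s + h' / q + L‖ = ‖(logDeriv g s + L) + h' / q‖ := by ring_nf
      _ ≤ ‖logDeriv g s + L‖ + ‖h' / q‖ := norm_add_le _ _
      _ ≤ ε1 * L + 2 * ε1 * L := by linarith
      _ ≤ ε * L := by nlinarith
  · rw [hDs, norm_mul]
    calc Real.exp ((1 / 2 - s.re - ε) * L) ≤ Real.exp ((1 / 2 - s.re - ε1) * L) * 1 := by
          rw [mul_one]
          apply Real.exp_le_exp.2
          apply mul_le_mul_of_nonneg_right _ hLpos.le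
          linarith
      _ ≤ ‖g s‖ * ‖q‖ := by
          gcongr
          linarith
  · rw [hDs, norm_mul]
    calc ‖g s‖ * ‖q‖ ≤ Real.exp ((1 / 2 - s.re + ε1) * L) * Real.exp (ε1 * L) := by
          gcongr
          exact hqup.trans h6
      _ ≤ _ := by
          rw [← Real.exp_add]
          apply Real.exp_le_exp.2
          nlinarith

end Pool.Agent.Zk17.QS
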