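import Pool.Agent.Zk17.QS.A

set_option autoImplicit false

/-!
# Quasi-Speiser: control from the absence of zeros
-/

namespace Pool.Agent.Zk17.QS

open Complex Filter Topology Set Metric

lemma logDeriv_refl {g : ℂ → ℂ} (c u : ℂ) (L : ℝ) (k : ℝ) (hg : DifferentiableAt ℂ g (c - u)) (h0 : g (c - u) ≠ 0) :
    logDeriv (fun u => g (c - u) * cexp (-((k : ℂ) + u) * L)) u = -(logDeriv g (c - u) + L) := by
  have h1 : HasDerivAt (fun u : ℂ => c - u) (-1) u := by
    simpa using (hasDerivAt_id u).const_sub c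
  have h2 : HasDerivAt (fun u : ℂ => g (c - u)) (deriv g (c - u) * (-1)) u :=
    HasDerivAt.comp u hg.hasDerivAt h1
  have h3 : HasDerivAt (fun u : ℂ => -((k : ℂ) + u) * L) (-1 * L) u := by
    have := ((hasDerivAt_id u).const_add (k : ℂ)).neg.mul_const (L : ℂ)
    simpa using this
  have h4 := h3.cexp
  have h5 := h2.mul h4
  have h6 : deriv (fun u => g (c - u) * cexp (-((k : ℂ) + u) * L)) u = _ := h5.deriv
  rw [logDeriv_apply, h6, logDeriv_apply]
  have := Complex.exp_ne_zero (-((k : ℂ) + u) * L)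
  field_simp
  ring

/-- control from the absence of zeros -/
lemma PA.of_free {T : ℕ → ℝ} {g : ℂ → ℂ} {b b' : ℝ} (hT : Tendsto T atTop atTop) (hg : An g) (hG : Gr T g)
    (h0 : PA T (fun _ => -(1 / 2)) g) (hb : b ≤ 1) (hbb : b' < b) (hz : NZ T b g) : PA T (fun _ => b') g := by
  intro ε X H hε
  set η0 : ℝ := min (b - b') (1 / 4) with hη0
  have hη0p : 0 < η0 := lt_min (by linarith) (by norm_num)
  have hη0a : η0 ≤ b - b' := min_le_left _ _
  have hη0b : η0 ≤ 1 / 4 := min_le_right _ _
  obtain ⟨K, hK⟩ := hG (|b| + 11)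
  set K0 : ℝ := |K| + |b| + 1 with hK0
  have hK0p : 0 < K0 := by positivity
  obtain ⟨ε1, hε1, hs⟩ := Pool.Agent.H986R2.K4.sab η0 ε K0 hη0p hη0b hε hK0p
  filter_upwards [h0 ε X H hε, h0 ε1 (|b| + 11) (H + 10) hε1, hz (|b| + 11) (H + 10), hK (H + 10), ev_log hT 1,
    ev_T hT (H + 11)] with n h1 h2 h3 h4 h5 h6 s hs1 hs2 hs3
  rcases le_or_gt s.re (-(1 / 2)) with hc | hc
  · exact h1 s hs1 hc hs3
  set L := Real.log (T n) with hL
  have hLpos : 0 < L := by linarith
  set c : ℂ := ⟨b, s.im⟩ with hcdef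
  have hb1 : -|b| ≤ b := neg_abs_le b
  have hb2 : b ≤ |b| := le_abs_self b
  have hcu : ∀ u : ℂ, |u.im| ≤ 10 → 0 < (c - u).im ∧ |(c - u).im - T n| ≤ H + 10 := by
    intro u hu
    have e1 : (c - u).im = s.im - u.im := by simp [hcdef]
    rw [e1]
    constructor
    · have := (abs_le.1 hs3).1
      have := (abs_le.1 hu).2
      linarith
    · calc |s.im - u.im - T n| = |(s.im - T n) - u.im| := by ring_nf
        _ ≤ |s.im - T n| + |u.im| := abs_sub _ _
        _ ≤ _ := by linarith
  have hcr : ∀ u : ℂ, (c - u).re = b - u.re := by intro u; simp [hcdef]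
  have hexpn : ∀ u : ℂ, ‖cexp (-(((1 / 2 - b : ℝ) : ℂ) + u) * L)‖ = Real.exp (-((1 / 2 - b + u.re) * L)) := by
    intro u
    rw [Complex.norm_exp]
    congr 1
    rw [Complex.mul_re, Complex.neg_re, Complex.add_re, Complex.ofReal_re, Complex.ofReal_re, Complex.ofReal_im]
    ring
  have key := hs L (fun u => g (c - u) * cexp (-(((1 / 2 - b : ℝ) : ℂ) + u) * L)) h5 ?_ ?_ (c - s) ?_ ?_ ?_
  · have e1 : c - (c - s) = s := by ring
    have e0 : (c - s).re = b - s.re := by simp [hcdef]
    have hsn : g s ≠ 0 := by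
      apply h3 s (by linarith) (by linarith)
      linarith
    have hsim : 0 < s.im := by
      have := (abs_le.1 hs3).1
      linarith
    obtain ⟨k1, k2, k3⟩ := key
    rw [logDeriv_refl c (c - s) L (1 / 2 - b) (by rw [e1]; exact hg.at hsim) (by rw [e1]; exact hsn), norm_neg, e1] at k1
    simp only [e1] at k2 k3
    rw [norm_mul, hexpn, e0] at k2 k3
    refine ⟨hsn, k1, ?_, ?_⟩
    · calc Real.exp ((1 / 2 - s.re - ε) * L) = Real.exp (-(ε * L)) * Real.exp ((1 / 2 - s.re) * L) := by
            rw [← Real.exp_add]; ring_nf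
        _ ≤ (‖g s‖ * Real.exp (-((1 / 2 - b + (b - s.re)) * L))) * Real.exp ((1 / 2 - s.re) * L) := by gcongr
        _ = ‖g s‖ := by
            rw [mul_assoc, ← Real.exp_add]
            have : -((1 / 2 - b + (b - s.re)) * L) + (1 / 2 - s.re) * L = 0 := by ring
            rw [this, Real.exp_zero, mul_one]
    · calc ‖g s‖ = (‖g s‖ * Real.exp (-((1 / 2 - b + (b - s.re)) * L))) * Real.exp ((1 / 2 - s.re) * L) := by
            rw [mul_assoc, ← Real.exp_add]
            have : -((1 / 2 - b + (b - s.re)) * L) + (1 / 2 - s.re) * L = 0 := by ring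
            rw [this, Real.exp_zero, mul_one]
        _ ≤ Real.exp (ε * L) * Real.exp ((1 / 2 - s.re) * L) := by gcongr
        _ = Real.exp ((1 / 2 - s.re + ε) * L) := by
            rw [← Real.exp_add]; ring_nf
  · intro u hu1 hu2 hu3
    obtain ⟨c1, c2⟩ := hcu u hu3
    have c3 := hcr u
    have hgn : g (c - u) ≠ 0 := h3 (c - u) (by linarith) (by linarith) c2
    have hd1 : DifferentiableAt ℂ (fun u : ℂ => g (c - u)) u :=
      (hg.at c1).comp u ((differentiableAt_const c).sub differentiableAt_id)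
    refine ⟨?_, ?_, ?_⟩
    · exact hd1.mul (by fun_prop)
    · exact mul_ne_zero hgn (Complex.exp_ne_zero _)
    · rw [norm_mul, hexpn]
      have hre : |(c - u).re| ≤ |b| + 11 := by
        rw [c3, abs_le]
        constructor <;> linarith
      calc ‖g (c - u)‖ * Real.exp (-((1 / 2 - b + u.re) * L)) ≤ Real.exp (K * L) * Real.exp (-((1 / 2 - b + u.re) * L)) := by
            gcongr
            exact h4 _ hre c2
        _ = Real.exp ((K - (1 / 2 - b + u.re)) * L) := by rw [← Real.exp_add]; ring_nf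
        _ ≤ Real.exp (K0 * L) := by
            apply Real.exp_le_exp.2
            apply mul_le_mul_of_nonneg_right _ hLpos.le
            have := le_abs_self K
            rw [hK0]
            linarith
  · intro u hu1 hu2 hu3
    obtain ⟨c1, c2⟩ := hcu u hu3
    have c3 := hcr u
    obtain ⟨-, -, k2, k3⟩ := h2 (c - u) (by linarith) (by linarith) c2
    rw [norm_mul, hexpn]
    rw [c3] at k2 k3
    constructor
    · calc Real.exp (-(ε1 * L)) = Real.exp ((1 / 2 - (b - u.re) - ε1) * L) * Real.exp (-((1 / 2 - b + u.re) * L)) := by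
            rw [← Real.exp_add]; ring_nf
        _ ≤ _ := by gcongr
    · calc ‖g (c - u)‖ * Real.exp (-((1 / 2 - b + u.re) * L)) ≤
            Real.exp ((1 / 2 - (b - u.re) + ε1) * L) * Real.exp (-((1 / 2 - b + u.re) * L)) := by gcongr
        _ = _ := by rw [← Real.exp_add]; ring_nf
  · have : (c - s).re = b - s.re := by simp [hcdef]
    rw [this]; linarith
  · have : (c - s).re = b - s.re := by simp [hcdef]
    rw [this]; linarith
  · have : (c - s).im = 0 := by simp [hcdef]
    rw [this]; norm_num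

/-- local three lines theorem on a fixed window -/
lemma three_loc {α b p q K ε : ℝ} (hαb : α < b) (hε : 0 < ε) : ∃ H1 : ℝ, 1 ≤ H1 ∧ ∀ (L : ℝ) (f : ℂ → ℂ) (x y : ℝ),
    1 ≤ L → α ≤ x → x ≤ b →
    (∀ s : ℂ, α ≤ s.re → s.re ≤ b → |s.im - y| ≤ H1 → DifferentiableAt ℂ f s ∧ ‖f s‖ ≤ Real.exp (K * L)) →
    (∀ s : ℂ, s.re = α → |s.im - y| ≤ H1 → ‖f s‖ ≤ Real.exp (p * L)) →
    (∀ s : ℂ, s.re = b → |s.im - y| ≤ H1 → ‖f s‖ ≤ Real.exp (q * L)) →
    ‖f ⟨x, y⟩‖ ≤ Real.exp ((p + (q - p) * ((x - α) / (b - α)) + ε) * L) := by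
  set w : ℝ := b - α with hw
  have hwp : 0 < w := by rw [hw]; linarith
  set κ : ℝ := ε / w ^ 2 with hκ
  have hκp : 0 < κ := by positivity
  set B : ℝ := |K| + |p| + |q - p| with hB
  have hB0 : 0 ≤ B := by positivity
  refine ⟨1 + w + B / κ, by
    have : 0 ≤ B / κ := by positivity
    linarith, ?_⟩
  set H1 : ℝ := 1 + w + B / κ with hH1
  have hH1a : 1 ≤ H1 := by
    have : 0 ≤ B / κ := by positivity
    rw [hH1]; linarith
  have hH1b : B ≤ κ * (H1 ^ 2 - w ^ 2) := by
    have h1 : B / κ ≤ H1 ^ 2 - w ^ 2 := by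
      have h2 : 0 ≤ B / κ := by positivity
      have h3 : H1 ^ 2 - w ^ 2 = (H1 - w) * (H1 + w) := by ring
      rw [h3]
      have h4 : H1 - w = 1 + B / κ := by rw [hH1]; ring
      rw [h4]
      nlinarith
    rw [div_le_iff₀ hκp] at h1
    linarith
  intro L f x y hL hx1 hx2 hbd hl hr
  have hLpos : 0 < L := by linarith
  set s0 : ℂ := ⟨x, y⟩ with hs0
  set U : Set ℂ := Ioo α b ×ℂ Ioo (y - H1) (y + H1) with hU
  set F : ℂ → ℂ := fun s => f s * cexp (-((p : ℂ) + (q - p : ℝ) * ((s - α) / w)) * L + (κ * L : ℝ) * (s - s0) ^ 2) with hF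
  have hcl : closure U = Icc α b ×ℂ Icc (y - H1) (y + H1) := by
    rw [hU, Complex.closure_reProdIm, closure_Ioo hαb.ne, closure_Ioo (by linarith : y - H1 < y + H1).ne]
  have hmem : ∀ s ∈ closure U, α ≤ s.re ∧ s.re ≤ b ∧ |s.im - y| ≤ H1 := by
    intro s hs
    rw [hcl, Complex.mem_reProdIm] at hs
    refine ⟨hs.1.1, hs.1.2, ?_⟩
    rw [abs_le]
    constructor <;> linarith [hs.2.1, hs.2.2]
  have hnorm : ∀ s : ℂ, ‖F s‖ = ‖f s‖ * Real.exp (-((p + (q - p) * ((s.re - α) / w)) * L) +
      κ * L * ((s.re - x) ^ 2 - (s.im - y) ^ 2)) := by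
    intro s
    rw [hF]
    simp only
    rw [norm_mul, Complex.norm_exp]
    congr 2
    have e1 : ((s - s0) ^ 2).re = (s.re - x) ^ 2 - (s.im - y) ^ 2 := by
      rw [pow_two, Complex.mul_re]
      simp [hs0]
      ring
    have e2 : ((s - (α:ℂ)) / (w:ℂ)).re = (s.re - α) / w := by
      rw [Complex.div_ofReal_re]; simp
    rw [Complex.add_re, Complex.re_ofReal_mul, e1, Complex.mul_re, Complex.ofReal_re, Complex.ofReal_im,
      Complex.neg_re, Complex.add_re, Complex.ofReal_re, Complex.re_ofReal_mul, e2]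
    ring
  have hdiff : DiffContOnCl ℂ F U := by
    apply DifferentiableOn.diffContOnCl
    intro s hs
    obtain ⟨a1, a2, a3⟩ := hmem s hs
    have hd := (hbd s a1 a2 a3).1
    apply DifferentiableAt.differentiableWithinAt
    rw [hF]
    apply hd.mul
    fun_prop
  have hUb : Bornology.IsBounded U := by
    rw [hU]
    exact (Metric.isBounded_Ioo _ _).reProdIm (Metric.isBounded_Ioo _ _)
  have hfr : ∀ s ∈ frontier U, ‖F s‖ ≤ Real.exp (ε * L) := by
    intro s hs
    have hsc : s ∈ closure U := frontier_subset_closure hs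
    obtain ⟨a1, a2, a3⟩ := hmem s hsc
    have hxw : (s.re - x) ^ 2 ≤ w ^ 2 := by
      rw [sq_le_sq, abs_of_pos hwp, abs_le]
      rw [hw]
      constructor <;> linarith
    have hκw : κ * w ^ 2 = ε := by rw [hκ]; field_simp
    rw [hnorm]
    have hcase : s.re = α ∨ s.re = b ∨ |s.im - y| = H1 := by
      by_contra hcon
      push Not at hcon
      obtain ⟨b1, b2, b3⟩ := hcon
      have hin : s ∈ interior U := by
        have hop : IsOpen U := by rw [hU]; exact isOpen_Ioo.reProdIm isOpen_Ioo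
        rw [hop.interior_eq, hU, Complex.mem_reProdIm]
        have b4 : |s.im - y| < H1 := lt_of_le_of_ne a3 b3
        rw [abs_lt] at b4
        exact ⟨⟨lt_of_le_of_ne a1 (Ne.symm b1), lt_of_le_of_ne a2 b2⟩, by linarith [b4.1], by linarith [b4.2]⟩
      exact hs.2 hin
    rcases hcase with hc | hc | hc
    · have e1 := hl s hc a3
      calc ‖f s‖ * Real.exp (-((p + (q - p) * ((s.re - α) / w)) * L) + κ * L * ((s.re - x) ^ 2 - (s.im - y) ^ 2))
          ≤ Real.exp (p * L) * Real.exp (-((p + (q - p) * ((s.re - α) / w)) * L) + κ * L * ((s.re - x) ^ 2 - (s.im - y) ^ 2)) := by gcongr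
        _ = Real.exp (κ * L * ((s.re - x) ^ 2 - (s.im - y) ^ 2)) := by
            rw [← Real.exp_add, hc]
            congr 1
            ring
        _ ≤ _ := by
            apply Real.exp_le_exp.2
            rw [← hκw]
            nlinarith [sq_nonneg (s.im - y), mul_pos hκp hLpos]
    · have e1 := hr s hc a3
      calc ‖f s‖ * Real.exp (-((p + (q - p) * ((s.re - α) / w)) * L) + κ * L * ((s.re - x) ^ 2 - (s.im - y) ^ 2))
          ≤ Real.exp (q * L) * Real.exp (-((p + (q - p) * ((s.re - α) / w)) * L) + κ * L * ((s.re - x) ^ 2 - (s.im - y) ^ 2)) := by gcongr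
        _ = Real.exp (κ * L * ((s.re - x) ^ 2 - (s.im - y) ^ 2)) := by
            rw [← Real.exp_add, hc]
            congr 1
            have : (b - α) / w = 1 := by rw [← hw]; field_simp
            rw [this]
            ring
        _ ≤ _ := by
            apply Real.exp_le_exp.2
            rw [← hκw]
            nlinarith [sq_nonneg (s.im - y), mul_pos hκp hLpos]
    · have e1 := (hbd s a1 a2 a3).2
      have hsq : (s.im - y) ^ 2 = H1 ^ 2 := by rw [← sq_abs, hc]
      have hfrac0 : 0 ≤ (s.re - α) / w := div_nonneg (by linarith) hwp.le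
      have hfrac1 : (s.re - α) / w ≤ 1 := by
        rw [div_le_one hwp, hw]; linarith
      calc ‖f s‖ * Real.exp (-((p + (q - p) * ((s.re - α) / w)) * L) + κ * L * ((s.re - x) ^ 2 - (s.im - y) ^ 2))
          ≤ Real.exp (K * L) * Real.exp (-((p + (q - p) * ((s.re - α) / w)) * L) + κ * L * ((s.re - x) ^ 2 - (s.im - y) ^ 2)) := by gcongr
        _ = Real.exp ((K - (p + (q - p) * ((s.re - α) / w)) + κ * ((s.re - x) ^ 2 - H1 ^ 2)) * L) := by
            rw [← Real.exp_add, hsq]
            congr 1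
            ring
        _ ≤ Real.exp (0 * L) := by
            apply Real.exp_le_exp.2
            apply mul_le_mul_of_nonneg_right _ hLpos.le
            have f1 : -((q - p) * ((s.re - α) / w)) ≤ |q - p| := by
              have := neg_abs_le ((q - p) * ((s.re - α) / w))
              rw [abs_mul, abs_of_nonneg hfrac0] at this
              nlinarith [abs_nonneg (q - p)]
            have f2 := le_abs_self K
            have f3 := neg_abs_le p
            have f4 : κ * ((s.re - x) ^ 2 - H1 ^ 2) ≤ -B := by nlinarith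
            rw [hB] at f4
            linarith
        _ ≤ _ := by
            apply Real.exp_le_exp.2
            nlinarith
  have hs0U : s0 ∈ closure U := by
    rw [hcl, Complex.mem_reProdIm, hs0]
    refine ⟨⟨hx1, hx2⟩, ?_, ?_⟩ <;> simp only <;> linarith
  have key := Complex.norm_le_of_forall_mem_frontier_norm_le hUb hdiff hfr hs0U
  rw [hnorm] at key
  have e0 : s0.re = x := rfl
  have e1 : s0.im = y := rfl
  rw [e0, e1, sub_self, sub_self] at key
  simp only [ne_eq, OfNat.ofNat_ne_zero, not_false_eq_true, zero_pow, sub_zero, mul_zero, add_zero] at key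
  calc ‖f s0‖ = (‖f s0‖ * Real.exp (-((p + (q - p) * ((x - α) / w)) * L))) * Real.exp ((p + (q - p) * ((x - α) / w)) * L) := by
        rw [mul_assoc, ← Real.exp_add]; simp
    _ ≤ Real.exp (ε * L) * Real.exp ((p + (q - p) * ((x - α) / w)) * L) := by gcongr
    _ = _ := by rw [← Real.exp_add]; ring_nf

end Pool.Agent.Zk17.QS
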