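import Pool.Agent.Zk17.QS.B

set_option autoImplicit false

/-!
# Quasi-Speiser: from `g' - a g` to `g`
-/

namespace Pool.Agent.Zk17.QS

open Complex Filter Topology Set Metric

/-- to the right of a zero of `g` the function does not decay -/
lemma low {g : ℂ → ℂ} (hg : An g) (a : ℂ) (s : ℂ) (hs : 0 < s.im) (hs0 : g s = 0) (x L ε : ℝ) (hx : 0 < x)
    (hL : 0 < L) (hε0 : 0 ≤ ε) (hε : ε ≤ 1 / 16) (ha : ‖a‖ ≤ ε * L) (hLx : 4 ≤ L * x)
    (hD : ∀ v : ℝ, 0 ≤ v → v ≤ x → QS.D a g (s + v) ≠ 0 ∧ ‖logDeriv (QS.D a g) (s + v) + L‖ ≤ ε * L) :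
    ‖QS.D a g s‖ / (2 * L) ≤ Real.exp (‖a‖ * x) * ‖g (s + x)‖ := by
  set G : ℂ → ℂ := QS.D a g with hG
  have hGan : An G := hg.D a
  have him : ∀ v : ℝ, 0 < (s + v : ℂ).im := by intro v; simpa using hs
  have hsv : ∀ v : ℝ, HasDerivAt (fun v : ℝ => s + (v : ℂ)) 1 v := fun v => by
    simpa using (Complex.ofRealCLM.hasDerivAt (x := v)).const_add s
  have hea : ∀ v : ℝ, HasDerivAt (fun v : ℝ => cexp (-(a * v))) (cexp (-(a * v)) * (-a)) v := fun v => by
    have h1 : HasDerivAt (fun v : ℝ => -(a * (v : ℂ))) (-(a * 1)) v :=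
      ((Complex.ofRealCLM.hasDerivAt (x := v)).const_mul a).neg
    have := h1.cexp
    simpa using this
  set φ : ℝ → ℂ := fun v => cexp (-(a * v)) * g (s + v) with hφ
  set ψ : ℝ → ℂ := fun v => cexp (-(a * v)) * G (s + v) with hψ
  set m : ℝ → ℂ := fun v => logDeriv G (s + v) - a with hm
  have hφd : ∀ v : ℝ, HasDerivAt φ (ψ v) v := by
    intro v
    have h1 : HasDerivAt (fun v : ℝ => g (s + v)) (deriv g (s + v) * 1) v :=
      HasDerivAt.comp v (hg.at (him v)).hasDerivAt (hsv v)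
    refine ((hea v).mul h1).congr_deriv ?_
    rw [hψ, hG]
    unfold QS.D
    ring
  have hψd : ∀ v : ℝ, 0 ≤ v → v ≤ x → HasDerivAt ψ (ψ v * m v) v := by
    intro v h0 h1
    have h2 : HasDerivAt (fun v : ℝ => G (s + v)) (deriv G (s + v) * 1) v :=
      HasDerivAt.comp (h₂ := G) v (hGan.at (him v)).hasDerivAt (hsv v)
    refine ((hea v).mul h2).congr_deriv ?_
    have h3 := (hD v h0 h1).1
    rw [hψ, hm]
    simp only
    rw [logDeriv_apply]
    field_simp
    ring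
  have hmb : ∀ v : ℝ, 0 ≤ v → v ≤ x → ‖m v + L‖ ≤ 2 * ε * L := by
    intro v h0 h1
    have h2 := (hD v h0 h1).2
    calc ‖m v + L‖ = ‖(logDeriv G (s + v) + L) - a‖ := by rw [hm]; ring_nf
      _ ≤ ‖logDeriv G (s + v) + L‖ + ‖a‖ := norm_sub_le _ _
      _ ≤ _ := by linarith
  have hψ0 : ψ 0 = G s := by simp [hψ]
  have hφ0 : φ 0 = 0 := by simp [hφ, hs0]
  -- decay of ψ
  set χ : ℝ → ℂ := fun v => ψ v * cexp ((L : ℂ) * v) with hχ
  have hχd : ∀ v : ℝ, 0 ≤ v → v ≤ x → HasDerivAt χ (χ v * (m v + L)) v := by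
    intro v h0 h1
    have h2 : HasDerivAt (fun v : ℝ => cexp ((L : ℂ) * v)) (cexp ((L : ℂ) * v) * L) v := by
      have h3 : HasDerivAt (fun v : ℝ => (L : ℂ) * (v : ℂ)) ((L : ℂ) * 1) v :=
        (Complex.ofRealCLM.hasDerivAt (x := v)).const_mul (L : ℂ)
      have := h3.cexp
      simpa using this
    refine ((hψd v h0 h1).mul h2).congr_deriv ?_
    rw [hχ]
    ring
  have hχb : ∀ v : ℝ, v ∈ Icc 0 x → ‖χ v‖ ≤ ‖ψ 0‖ * Real.exp (2 * ε * L * v) := by
    intro v hv
    have h1 := norm_le_gronwallBound_of_norm_deriv_right_le (f := χ) (f' := fun v => χ v * (m v + L))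
      (δ := ‖ψ 0‖) (K := 2 * ε * L) (ε := 0) (a := 0) (b := x)
      (fun v hv => (hχd v hv.1 hv.2).continuousAt.continuousWithinAt)
      (fun v hv => (hχd v hv.1 hv.2.le).hasDerivWithinAt) (by simp [hχ])
      (fun v hv => by
        rw [norm_mul, add_zero, mul_comm]
        gcongr
        exact hmb v hv.1 hv.2.le) v hv
    rw [gronwallBound_ε0, sub_zero] at h1
    exact h1
  have hψb : ∀ v : ℝ, v ∈ Icc 0 x → ‖ψ v‖ ≤ ‖ψ 0‖ * Real.exp (-(L / 2) * v) := by
    intro v hv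
    have h1 := hχb v hv
    have h2 : ‖χ v‖ = ‖ψ v‖ * Real.exp (L * v) := by
      rw [hχ]
      simp only
      rw [norm_mul, Complex.norm_exp]
      congr 2
      rw [← Complex.ofReal_mul, Complex.ofReal_re]
    rw [h2] at h1
    calc ‖ψ v‖ = (‖ψ v‖ * Real.exp (L * v)) * Real.exp (-(L * v)) := by
          rw [mul_assoc, ← Real.exp_add]; simp
      _ ≤ (‖ψ 0‖ * Real.exp (2 * ε * L * v)) * Real.exp (-(L * v)) := by gcongr
      _ = ‖ψ 0‖ * Real.exp (2 * ε * L * v - L * v) := by rw [mul_assoc, ← Real.exp_add]; ring_nf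
      _ ≤ _ := by
          gcongr
          have : 0 ≤ L * v := mul_nonneg hL.le hv.1
          nlinarith
  -- the main identity
  set Θ : ℝ → ℂ := fun v => φ v + ψ v / L - ψ 0 / L with hΘ
  have hΘd : ∀ v : ℝ, 0 ≤ v → v ≤ x → HasDerivAt Θ (ψ v * (m v + L) / L) v := by
    intro v h0 h1
    refine (((hφd v).add ((hψd v h0 h1).div_const (L : ℂ))).sub_const _).congr_deriv ?_
    have : (L : ℂ) ≠ 0 := by exact_mod_cast hL.ne'
    field_simp
    ring
  set B : ℝ → ℝ := fun v => 4 * ε * ‖ψ 0‖ / L * (1 - Real.exp (-(L / 2) * v)) with hB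
  have hΘb := image_norm_le_of_norm_deriv_right_le_deriv_boundary (f := Θ) (f' := fun v => ψ v * (m v + L) / L)
    (B := B) (B' := fun v => 2 * ε * ‖ψ 0‖ * Real.exp (-(L / 2) * v)) (a := 0) (b := x)
    (fun v hv => (hΘd v hv.1 hv.2).continuousAt.continuousWithinAt)
    (fun v hv => (hΘd v hv.1 hv.2.le).hasDerivWithinAt) (by simp [hΘ, hB, hφ0])
    (fun v => by
      have h1 : HasDerivAt (fun v : ℝ => -(L / 2) * v) (-(L / 2) * 1) v := (hasDerivAt_id v).const_mul _
      have h2 := ((h1.exp).const_sub 1).const_mul (4 * ε * ‖ψ 0‖ / L)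
      refine h2.congr_deriv ?_
      field_simp
      ring)
    (fun v hv => by
      rw [norm_div, norm_mul, Complex.norm_real, Real.norm_eq_abs, abs_of_pos hL, div_le_iff₀ hL]
      have h1 := hψb v ⟨hv.1, hv.2.le⟩
      have h2 := hmb v hv.1 hv.2.le
      calc ‖ψ v‖ * ‖m v + L‖ ≤ (‖ψ 0‖ * Real.exp (-(L / 2) * v)) * (2 * ε * L) := by gcongr
        _ = _ := by ring) (right_mem_Icc.2 hx.le)
  have hψx := hψb x ⟨hx.le, le_refl _⟩
  have hexp : Real.exp (-(L / 2) * x) ≤ 1 / 4 := by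
    have h1 : Real.exp (-(L / 2) * x) ≤ Real.exp (-2) := by
      apply Real.exp_le_exp.2
      nlinarith
    refine h1.trans ?_
    rw [Real.exp_neg, inv_eq_one_div]
    apply one_div_le_one_div_of_le (by norm_num)
    have h2 := Real.add_one_le_exp (1 : ℝ)
    have h3 : Real.exp 2 = Real.exp 1 * Real.exp 1 := by rw [← Real.exp_add]; norm_num
    rw [h3]
    nlinarith
  have hexp0 : 0 < Real.exp (-(L / 2) * x) := Real.exp_pos _
  have hΘx : ‖Θ x‖ ≤ ‖ψ 0‖ / (4 * L) := by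
    refine hΘb.trans ?_
    rw [hB]
    simp only
    have h1 : 4 * ε * ‖ψ 0‖ / L ≤ ‖ψ 0‖ / (4 * L) := by
      rw [div_le_div_iff₀ hL (by positivity)]
      nlinarith [norm_nonneg (ψ 0), mul_nonneg (norm_nonneg (ψ 0)) hL.le]
    have h2 : 0 ≤ 4 * ε * ‖ψ 0‖ / L := by positivity
    nlinarith
  have hφx : ‖ψ 0‖ / (2 * L) ≤ ‖φ x‖ := by
    have e1 : ψ 0 / L = φ x + ψ x / L - Θ x := by rw [hΘ]; ring
    have e2 : ‖ψ 0 / (L : ℂ)‖ = ‖ψ 0‖ / L := by
      rw [norm_div, Complex.norm_real, Real.norm_eq_abs, abs_of_pos hL]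
    have e3 : ‖ψ x / (L : ℂ)‖ ≤ ‖ψ 0‖ / (4 * L) := by
      rw [norm_div, Complex.norm_real, Real.norm_eq_abs, abs_of_pos hL, div_le_div_iff₀ hL (by positivity)]
      have : ‖ψ x‖ ≤ ‖ψ 0‖ * (1 / 4) := hψx.trans (by gcongr)
      nlinarith
    have e4 : ‖ψ 0 / (L : ℂ)‖ ≤ ‖φ x‖ + ‖ψ x / (L : ℂ)‖ + ‖Θ x‖ := by
      rw [e1]
      exact (norm_sub_le _ _).trans (by gcongr; exact norm_add_le _ _)
    rw [e2] at e4
    have e5 : ‖ψ 0‖ / L = ‖ψ 0‖ / (2 * L) + ‖ψ 0‖ / (4 * L) + ‖ψ 0‖ / (4 * L) := by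
      field_simp
      ring
    linarith
  rw [hψ0] at hφx
  refine hφx.trans ?_
  rw [hφ]
  simp only
  rw [norm_mul, Complex.norm_exp]
  gcongr
  rw [Complex.neg_re]
  have h1 : |(a * (x : ℂ)).re| ≤ ‖a * (x : ℂ)‖ := Complex.abs_re_le_norm _
  rw [norm_mul, Complex.norm_real, Real.norm_eq_abs, abs_of_pos hx] at h1
  have := (abs_le.1 h1).1
  linarith

/-- from `D a g` to `g` -/
lemma PA.step {T : ℕ → ℝ} {g : ℂ → ℂ} {a : ℂ} {δ : ℝ} (hT : Tendsto T atTop atTop) (hg : An g) (hGr : Gr T g)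
    (hRt : Rt T g) (h0 : ∀ b : ℝ, b < 0 → PA T (fun _ => b) g) (hδ0 : 0 < δ) (hδ : δ ≤ 1 / 2)
    (hD : ∀ b : ℝ, b < δ → PA T (fun _ => b) (QS.D a g)) : ∀ b : ℝ, b < δ → PA T (fun _ => b) g := by
  by_contra hcon
  push Not at hcon
  obtain ⟨b0, hb0, hb0n⟩ := hcon
  set S : Set ℝ := {b | b < δ ∧ PA T (fun _ => b) g} with hS
  set A : ℝ := sSup S with hA
  have hSb : ∀ b ∈ S, b < b0 := by
    intro b hb
    by_contra h
    push Not at h
    exact hb0n (hb.2.mono (Eventually.of_forall fun _ => h))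
  have hbdd : BddAbove S := ⟨b0, fun b hb => (hSb b hb).le⟩
  have hneS : ∀ b : ℝ, b < 0 → b ∈ S := fun b hb => ⟨by linarith, h0 b hb⟩
  have hne : S.Nonempty := ⟨-1, hneS _ (by norm_num)⟩
  have hA0 : 0 ≤ A := by
    apply le_of_forall_lt
    intro c hc
    exact lt_of_lt_of_le (by linarith : c < c / 2) (le_csSup hbdd (hneS (c / 2) (by linarith)))
  have hAb : A ≤ b0 := csSup_le hne fun b hb => (hSb b hb).le
  set d : ℝ := δ - A with hd
  have hdp : 0 < d := by rw [hd]; linarith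
  have hd1 : d ≤ 1 / 2 := by rw [hd]; linarith
  set e : ℝ := d ^ 2 / 100 with he
  have hep : 0 < e := by positivity
  have hed : 100 * e = d ^ 2 := by rw [he]; ring
  have hed2 : e ≤ d / 200 := by nlinarith
  have hPl : PA T (fun _ => A - e) g := by
    obtain ⟨b, hb, hbA⟩ := exists_lt_of_lt_csSup hne (show A - e < sSup S by rw [← hA]; linarith)
    exact hb.2.mono (Eventually.of_forall fun _ => hbA.le)
  have hPn : ¬ PA T (fun _ => A + e) g := by
    intro h
    have h1 : A + e ∈ S := ⟨by rw [hd] at hed2; linarith, h⟩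
    have := le_csSup hbdd h1
    linarith
  have hNZ : ¬ NZ T (A + 2 * e) g := fun h =>
    hPn (PA.of_free hT hg hGr (h0 _ (by norm_num)) (by linarith) (by linarith) h)
  unfold NZ at hNZ
  push Not at hNZ
  obtain ⟨X, H, hfr⟩ := hNZ
  set σ1 : ℝ := A + d / 2 with hσ1
  obtain ⟨K, hK⟩ := hGr 3
  obtain ⟨H1, hH1, hthree⟩ := three_loc (α := A - e) (b := 1 + e) (p := 1 / 2 - A + 2 * e) (q := e) (K := K) (ε := e)
    (by linarith) hep
  have hPD := hD σ1 (by rw [hσ1]; linarith)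
  have hev : ∀ᶠ n in atTop, ¬ ∃ s : ℂ, -X ≤ s.re ∧ s.re < A + 2 * e ∧ |s.im - T n| ≤ H ∧ g s = 0 := by
    set ε' : ℝ := min e (1 / 16) with hε'
    have hε'p : 0 < ε' := by positivity
    have hε'a : ε' ≤ e := min_le_left _ _
    have hε'b : ε' ≤ 1 / 16 := min_le_right _ _
    filter_upwards [hPl e (max X 3) (H + H1) hep, hPD ε' (max X 3) H hε'p, hK (H + H1), hRt e e 3 (H + H1) hep hep,
      ev_log hT 1, ev_log hT (‖a‖ / ε'), ev_log hT (16 / d), ev_exp hT 2 e hep, ev_T hT (H + H1 + 1)] with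
      n h1 h2 h3 h4 h5 h6 h7 h8 h9
    rintro ⟨s, hs1, hs2, hs3, hs4⟩
    set L := Real.log (T n) with hL
    have hLp : 0 < L := by linarith
    have hmX : X ≤ max X 3 := le_max_left _ _
    have hm3 : 3 ≤ max X 3 := le_max_right _ _
    have hsA : A - e < s.re := by
      by_contra hc
      push Not at hc
      exact (h1 s (by linarith) hc (by linarith)).1 hs4
    have haL : ‖a‖ ≤ ε' * L := by
      rw [div_le_iff₀ hε'p] at h6; linarith
    set x : ℝ := σ1 - s.re with hx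
    have hxp : d / 4 ≤ x := by rw [hx, hσ1]; linarith
    have hxp0 : 0 < x := by linarith
    have hx1 : x ≤ 1 := by rw [hx, hσ1]; linarith
    have hsim : 0 < s.im := by
      have := (abs_le.1 hs3).1
      linarith
    have hLx : 4 ≤ L * x := by
      rw [div_le_iff₀ hdp] at h7
      nlinarith
    have hlow := low hg a s hsim hs4 x L ε' hxp0 hLp hε'p.le hε'b haL hLx (by
      intro v hv0 hv1
      have q1 : (s + v : ℂ).re = s.re + v := by simp
      have q2 : (s + v : ℂ).im = s.im := by simp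
      obtain ⟨r1, r2, -, -⟩ := h2 (s + v) (by rw [q1]; linarith) (by rw [q1]; linarith) (by rw [q2]; linarith)
      exact ⟨r1, r2⟩)
    have hDlo := (h2 s (by linarith) (by linarith) hs3).2.2.1
    have hsx : s + x = ⟨σ1, s.im⟩ := by
      apply Complex.ext <;> simp [hx]
    have hupp := hthree L g σ1 s.im h5 (by rw [hσ1]; linarith) (by rw [hσ1]; linarith)
      (fun z hz1 hz2 hz3 => by
        have hzT : |z.im - T n| ≤ H + H1 := by
          calc |z.im - T n| = |(z.im - s.im) + (s.im - T n)| := by ring_nf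
            _ ≤ |z.im - s.im| + |s.im - T n| := abs_add_le _ _
            _ ≤ _ := by linarith
        refine ⟨hg.at ?_, h3 z ?_ hzT⟩
        · have := (abs_le.1 hzT).1
          linarith
        · rw [abs_le]
          constructor <;> linarith)
      (fun z hz1 hz2 => by
        have hzT : |z.im - T n| ≤ H + H1 := by
          calc |z.im - T n| = |(z.im - s.im) + (s.im - T n)| := by ring_nf
            _ ≤ |z.im - s.im| + |s.im - T n| := abs_add_le _ _
            _ ≤ _ := by linarith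
        refine (h1 z (by rw [hz1]; linarith) (by rw [hz1]) hzT).2.2.2.trans ?_
        apply Real.exp_le_exp.2
        rw [hz1]
        apply le_of_eq
        ring)
      (fun z hz1 hz2 => by
        have hzT : |z.im - T n| ≤ H + H1 := by
          calc |z.im - T n| = |(z.im - s.im) + (s.im - T n)| := by ring_nf
            _ ≤ |z.im - s.im| + |s.im - T n| := abs_add_le _ _
            _ ≤ _ := by linarith
        exact h4 z (by rw [hz1]) (by rw [hz1]; linarith) hzT)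
    rw [← hsx] at hupp
    set lam : ℝ := (σ1 - (A - e)) / (1 + e - (A - e)) with hlam
    have hlam1 : d / 4 ≤ lam := by
      rw [hlam, le_div_iff₀ (by linarith)]
      rw [hσ1]
      nlinarith
    have hlam2 : lam ≤ 1 := by
      rw [hlam, div_le_one (by linarith), hσ1]
      linarith
    -- combine
    have hfin : Real.exp ((1 / 2 - s.re - e) * L) ≤ Real.exp ((3 * e + (1 / 2 - A + 2 * e + (e - (1 / 2 - A + 2 * e)) * lam)) * L) := by
      have f1 : Real.exp ((1 / 2 - s.re - e) * L) ≤ ‖QS.D a g s‖ := by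
        refine le_trans ?_ hDlo
        apply Real.exp_le_exp.2
        nlinarith
      have f2 : ‖QS.D a g s‖ ≤ 2 * L * (Real.exp (‖a‖ * x) * ‖g (s + x)‖) := by
        rw [div_le_iff₀ (by positivity)] at hlow
        linarith
      have f3 : Real.exp (‖a‖ * x) ≤ Real.exp (e * L) := by
        apply Real.exp_le_exp.2
        have : ‖a‖ * x ≤ ‖a‖ * 1 := by gcongr
        nlinarith
      calc Real.exp ((1 / 2 - s.re - e) * L) ≤ 2 * L * (Real.exp (‖a‖ * x) * ‖g (s + x)‖) := f1.trans f2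
        _ ≤ Real.exp (e * L) * (Real.exp (e * L) * Real.exp ((1 / 2 - A + 2 * e + (e - (1 / 2 - A + 2 * e)) * lam + e) * L)) := by
            gcongr
        _ = _ := by rw [← Real.exp_add, ← Real.exp_add]; ring_nf
    have hfin2 := Real.exp_le_exp.1 hfin
    have hfin3 : 1 / 2 - s.re - e ≤ 3 * e + (1 / 2 - A + 2 * e + (e - (1 / 2 - A + 2 * e)) * lam) :=
      le_of_mul_le_mul_right hfin2 hLp
    have hAd : d ≤ 1 / 2 - A := by rw [hd]; linarith
    have g1 : (1 / 2 - A + 2 * e) * lam ≥ d * (d / 4) := by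
      have : d ≤ 1 / 2 - A + 2 * e := by linarith
      exact mul_le_mul this hlam1 (by positivity) (by linarith)
    have g2 : e * lam ≤ e := by nlinarith
    nlinarith
  obtain ⟨n, hn1, hn2⟩ := (hfr.and_eventually hev).exists
  obtain ⟨s, hs1, hs2, hs3, hs4⟩ := hn1
  exact hn2 ⟨s, hs1, hs2, hs3, hs4⟩

end Pool.Agent.Zk17.QS
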