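import Pool.Agent.Zk17.QS.A
import Pool.Agent.Y957.VK.Fin1
import Pool.Agent.H448R2.GC.X2

set_option autoImplicit false

/-!
# Quasi-Speiser: the zeta function to the left of `Re s = 0`
-/

namespace Pool.Agent.Zk17.QS

open Complex Filter Topology Set Metric
open Pool.Agent.H24R2.JP (XX HH Om)
open Pool.Agent.H24R2.JP.B1h (XX_neg XX_conj XX_diff iter_conj)

lemma ld_ball {f : ℂ → ℂ} {c : ℂ} {R M : ℝ} (hR : 0 < R) (hM : 0 < M) (hd : DifferentiableOn ℂ f (ball c R))
    (hne : ∀ z ∈ ball c R, f z ≠ 0) (hup : ∀ z ∈ ball c R, ‖f z‖ ≤ Real.exp M * ‖f c‖) :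
    ‖logDeriv f c‖ ≤ 4 * M / R := by
  obtain ⟨h, h0, h1, h2⟩ := Pool.Agent.H296R2.LE.exists_log hR hd hne
  have hc : c ∈ ball c R := mem_ball_self hR
  have hfc : 0 < ‖f c‖ := norm_pos_iff.2 (hne c hc)
  have hre : ∀ z ∈ ball c R, (h z).re ≤ M := by
    intro z hz
    have h3 := hup z hz
    rw [h2 z hz, norm_mul, Complex.norm_exp, mul_comm] at h3
    exact Real.exp_le_exp.1 (le_of_mul_le_mul_right h3 hfc)
  have hb : ∀ z ∈ closedBall c (R / 2), ‖h z‖ ≤ 2 * M := by
    intro z hz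
    have := Pool.Agent.H986R2.K4.SABAux.bc (r := R / 2) hM (fun z hz => (h1 z hz).differentiableAt.differentiableWithinAt)
      hre h0 (by linarith) (by linarith) hz
    refine this.trans (le_of_eq ?_)
    have : R - R / 2 = R / 2 := by ring
    rw [this]
    field_simp
  have h4 := Complex.norm_deriv_le_of_forall_mem_sphere_norm_le (c := c) (R := R / 2) (C := 2 * M) (f := h)
    (by linarith) (by
      apply DifferentiableOn.diffContOnCl
      intro z hz
      have hz' := closure_ball_subset_closedBall hz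
      have : z ∈ ball c R := by
        rw [mem_closedBall] at hz'
        rw [mem_ball]
        linarith
      exact (h1 z this).differentiableAt.differentiableWithinAt) (fun z hz => hb z (sphere_subset_closedBall hz))
  rw [(h1 c hc).deriv, ← logDeriv_apply] at h4
  refine h4.trans (le_of_eq ?_)
  field_simp
  ring

lemma zeta_at {s : ℂ} (hs : 0 < s.im) : DifferentiableAt ℂ riemannZeta s := by
  apply differentiableAt_riemannZeta
  intro h
  rw [h] at hs
  simp at hs

lemma zeta_An : An riemannZeta := fun _ hs => (zeta_at hs).differentiableWithinAt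

lemma im_win {s : ℂ} {t H : ℝ} (h : |s.im - t| ≤ H) : t - H ≤ s.im ∧ s.im ≤ t + H := by
  have := abs_le.1 h
  constructor <;> linarith [this.1, this.2]

lemma zeta_Gr {T : ℕ → ℝ} (hT : Tendsto T atTop atTop) : Gr T riemannZeta := by
  intro X
  obtain ⟨C, B, hC, h⟩ := Pool.Agent.H448R2.GC.zeta_one_growth X
  obtain ⟨t1, ht1, hz⟩ := Pool.Agent.H986R2.K4.a1 1 one_pos
  refine ⟨B + 2, fun H => ?_⟩
  filter_upwards [ev_T hT (|H| + 1 + t1), ev_T hT (C * 3 ^ B)] with n h1 h2 s hs1 hs2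
  have hHabs := le_abs_self H
  have hH0 := abs_nonneg H
  obtain ⟨i1, i2⟩ := im_win hs2
  have hTpos : 0 < T n := by linarith
  have him : 1 ≤ s.im := by linarith
  have him2 : s.im ≤ 2 * T n := by linarith
  have e0 : Real.exp (((B : ℝ) + 2) * Real.log (T n)) = T n ^ (B + 2) := by
    rw [mul_comm, Real.exp_mul, Real.exp_log hTpos]
    rw [← Real.rpow_natCast]
    push_cast
    rfl
  rw [e0]
  have hT1 : 1 ≤ T n := by linarith
  rcases le_or_gt s.re 3 with hc | hc
  · have h3 := h s (by linarith [(abs_le.1 hs1).1]) hc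
    have hs1' : s ≠ 1 := by
      intro hh
      rw [hh] at him
      simp at him
      linarith
    rw [Function.update_of_ne hs1', norm_mul] at h3
    have h4 : 1 ≤ ‖s - 1‖ := by
      have := Complex.abs_im_le_norm (s - 1)
      rw [Complex.sub_im, Complex.one_im, sub_zero, abs_of_pos (by linarith)] at this
      linarith
    calc ‖riemannZeta s‖ ≤ ‖s - 1‖ * ‖riemannZeta s‖ := by
          nlinarith [norm_nonneg (riemannZeta s)]
      _ ≤ C * (1 + |s.im|) ^ B := h3
      _ ≤ C * (3 * T n) ^ B := by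
          gcongr
          rw [abs_of_pos (by linarith)]
          linarith
      _ = (C * 3 ^ B) * T n ^ B := by rw [mul_pow]; ring
      _ ≤ T n * T n ^ B := by gcongr
      _ = T n ^ (B + 1) := by ring
      _ ≤ _ := pow_le_pow_right₀ hT1 (by omega)
  · obtain ⟨-, -, -, h4⟩ := hz s (by linarith) (by linarith)
    rw [Real.rpow_one] at h4
    calc ‖riemannZeta s‖ ≤ 2 * T n := by linarith
      _ ≤ T n ^ 2 := by nlinarith
      _ ≤ _ := pow_le_pow_right₀ hT1 (by omega)

lemma log_two_mul {x : ℝ} (hx : 2 ≤ x) : Real.log (2 * x) ≤ 2 * Real.log x := by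
  rw [Real.log_mul (by norm_num) (by linarith)]
  have : Real.log 2 ≤ Real.log x := Real.log_le_log (by norm_num) hx
  linarith

lemma far_right {T : ℕ → ℝ} (hT : Tendsto T atTop atTop) {ε η H : ℝ} (hε : 0 < ε) (hη : 0 < η) :
    ∀ᶠ n in atTop, ∀ s : ℂ, 1 + η ≤ s.re → |s.im - T n| ≤ H → riemannZeta s ≠ 0 ∧
      ‖logDeriv riemannZeta s‖ ≤ ε * Real.log (T n) ∧ Real.exp (-(ε * Real.log (T n))) ≤ ‖riemannZeta s‖ ∧
      ‖riemannZeta s‖ ≤ Real.exp (ε * Real.log (T n)) := by
  set ε' : ℝ := min (ε / 2) η with hε'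
  have hε'p : 0 < ε' := by positivity
  have hε'a : ε' ≤ ε / 2 := min_le_left _ _
  have hε'b : ε' ≤ η := min_le_right _ _
  obtain ⟨t1, ht1, hz⟩ := Pool.Agent.H986R2.K4.a1 ε' hε'p
  filter_upwards [ev_T hT (|H| + 2 + t1), ev_log hT 0] with n h1 h2 s hs1 hs2
  have hHabs := le_abs_self H
  have hH0 := abs_nonneg H
  obtain ⟨i1, i2⟩ := im_win hs2
  have hTpos : 0 < T n := by linarith
  have him : 1 ≤ s.im := by linarith
  have him2 : s.im ≤ 2 * T n := by linarith
  obtain ⟨q1, q2, q3, q4⟩ := hz s (by linarith) (by linarith)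
  have hlog : ε' * Real.log s.im ≤ ε * Real.log (T n) := by
    have e1 : Real.log s.im ≤ 2 * Real.log (T n) :=
      (Real.log_le_log (by linarith) him2).trans (log_two_mul (by linarith))
    have e2 : 0 ≤ Real.log s.im := Real.log_nonneg him
    nlinarith
  have hp : ∀ x : ℝ, s.im ^ x = Real.exp (x * Real.log s.im) := by
    intro x
    rw [Real.rpow_def_of_pos (by linarith), mul_comm]
  refine ⟨q1, q2.trans hlog, ?_, ?_⟩
  · refine le_trans ?_ q3
    rw [hp]
    apply Real.exp_le_exp.2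
    linarith
  · refine q4.trans ?_
    rw [hp]
    exact Real.exp_le_exp.2 hlog

lemma zeta_Rt {T : ℕ → ℝ} (hT : Tendsto T atTop atTop) : Rt T riemannZeta := by
  intro ε η X H hε hη
  filter_upwards [far_right hT (H := H) hε hη] with n h s h1 h2 h3
  exact (h s h1 h3).2.2.2

/-- zeta slightly to the left of `Re s = 1` -/
lemma right_side : ∃ δ : ℝ, 0 < δ ∧ δ < 1 ∧ ∀ T : ℕ → ℝ, Tendsto T atTop atTop → ∀ ε H : ℝ, 0 < ε →
    ∀ᶠ n in atTop, ∀ s : ℂ, 1 - (Real.log (T n)) ^ (δ - 1) / 2 ≤ s.re → |s.im - T n| ≤ H → riemannZeta s ≠ 0 ∧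
      ‖logDeriv riemannZeta s‖ ≤ ε * Real.log (T n) ∧ Real.exp (-(ε * Real.log (T n))) ≤ ‖riemannZeta s‖ ∧
      ‖riemannZeta s‖ ≤ Real.exp (ε * Real.log (T n)) := by
  obtain ⟨δ0, K0, t0, hδ0, hδ01, hK0, ht0, hzf⟩ := Pool.Agent.Y957.VK.zf_all
  obtain ⟨δ1, K1, t1, hδ1, hδ11, hK1, ht1, hze⟩ := Pool.Agent.Y957.VK.zeta_all
  set δ : ℝ := min δ0 δ1 with hδ
  have hδp : 0 < δ := lt_min hδ0 hδ1
  have hδa : δ ≤ δ0 := min_le_left _ _
  have hδb : δ ≤ δ1 := min_le_right _ _
  have hδ1' : δ < 1 := by linarith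
  refine ⟨δ, hδp, hδ1', ?_⟩
  intro T hT ε H hε
  -- analysis: powers of the logarithm
  have hev1 : ∀ᶠ x : ℝ in atTop, 2 * K1 * x * (2 * x) ^ K0 ≤ Real.exp (ε / 16 * x ^ δ) := by
    have h1 : (fun x : ℝ => x ^ ((K0 + 1) / δ)) =o[atTop] fun x => Real.exp (ε / 16 * x) :=
      isLittleO_rpow_exp_pos_mul_atTop _ (by positivity)
    have h2 : ∀ᶠ x : ℝ in atTop, ‖x ^ ((K0 + 1) / δ)‖ ≤ 1 / (2 * K1 * 2 ^ K0) * ‖Real.exp (ε / 16 * x)‖ :=
      h1.def (by positivity)
    have h3 := (tendsto_rpow_atTop hδp).eventually h2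
    filter_upwards [h3, eventually_gt_atTop 0] with x hx hx0
    have e1 : (x ^ δ) ^ ((K0 + 1) / δ) = x ^ (K0 + 1) := by
      rw [← Real.rpow_mul hx0.le]
      congr 1
      field_simp
    rw [e1, Real.norm_of_nonneg (Real.rpow_nonneg hx0.le _), Real.norm_of_nonneg (Real.exp_pos _).le,
      one_div, ← div_eq_inv_mul, le_div_iff₀ (by positivity)] at hx
    calc 2 * K1 * x * (2 * x) ^ K0 = x ^ (K0 + 1) * (2 * K1 * 2 ^ K0) := by
          rw [Real.mul_rpow (by norm_num) hx0.le, Real.rpow_add hx0, Real.rpow_one]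
          ring
      _ ≤ _ := hx
  have hev2 := (Real.tendsto_log_atTop.comp hT).eventually hev1
  filter_upwards [far_right hT (H := H) hε (by norm_num : (0:ℝ) < 1 / 2), hev2, ev_T hT (2 * |H| + 4 + t0 + t1),
    ev_log hT (3 * (Real.log 2 + 2))] with n h1 h2 h3 h4 s hs1 hs2
  rcases le_or_gt (3 / 2) s.re with hc | hc
  · exact h1 s (by linarith) hs2
  have hHabs := le_abs_self H
  have hH0 := abs_nonneg H
  obtain ⟨i1, i2⟩ := im_win hs2
  have hTpos : 0 < T n := by linarith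
  simp only [Function.comp] at h2
  set l : ℝ := Real.log (T n) with hl
  have hlog2 : 0 < Real.log 2 := Real.log_pos (by norm_num)
  have hl0 : 0 < l := by linarith
  have hl1 : 1 ≤ l := by linarith
  set R : ℝ := l ^ (δ - 1) / 4 with hR
  have hlp : 0 < l ^ (δ - 1) := Real.rpow_pos_of_pos hl0 _
  have hlp1 : l ^ (δ - 1) ≤ 1 := Real.rpow_le_one_of_one_le_of_nonpos hl1 (by linarith)
  have hRp : 0 < R := by rw [hR]; positivity
  have hR1 : R ≤ 1 / 4 := by rw [hR]; linarith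
  have hnear : ∀ z ∈ ball s R, 1 - 3 / 4 * l ^ (δ - 1) ≤ z.re ∧ z.re ≤ 2 ∧ T n - |H| - 1 ≤ z.im ∧ z.im ≤ T n + |H| + 1 := by
    intro z hz
    rw [mem_ball, dist_eq_norm] at hz
    have e1 := abs_le.1 (near_re hz.le)
    have e2 := abs_le.1 (near_im hz.le)
    refine ⟨?_, by linarith, by linarith, by linarith⟩
    have : R = l ^ (δ - 1) / 4 := hR
    linarith [e1.1]
  have hzb : ∀ z ∈ ball s R, riemannZeta z ≠ 0 ∧ ‖riemannZeta z‖ ≤ 2 * K1 * l ∧ ‖(riemannZeta z)⁻¹‖ ≤ (2 * l) ^ K0 := by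
    intro z hz
    obtain ⟨n1, n2, n3, n4⟩ := hnear z hz
    have hzim : 2 ≤ z.im := by linarith
    have habs : |z.im| = z.im := abs_of_pos (by linarith)
    set lz : ℝ := Real.log |z.im| with hlz
    have hlz1 : 1 ≤ lz := by
      have : Real.log (T n) ≤ lz + Real.log 2 := by
        rw [hlz, ← Real.log_mul (by rw [habs]; linarith) (by norm_num), habs]
        apply Real.log_le_log hTpos
        linarith
      linarith
    have hlz2 : lz ≤ 4 / 3 * l := by
      have : lz ≤ Real.log 2 + l := by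
        rw [hlz, hl, ← Real.log_mul (by norm_num) hTpos.ne', habs]
        apply Real.log_le_log (by linarith)
        linarith
      linarith
    have hlz0 : 0 < lz := by linarith
    have hpow : ∀ δ' : ℝ, δ ≤ δ' → δ' < 1 → 3 / 4 * l ^ (δ - 1) ≤ lz ^ (δ' - 1) := by
      intro δ' hd1 hd2
      calc 3 / 4 * l ^ (δ - 1) = (4 / 3 : ℝ) ^ (-1 : ℝ) * l ^ (δ - 1) := by
            rw [Real.rpow_neg_one]; norm_num
        _ ≤ (4 / 3 : ℝ) ^ (δ - 1) * l ^ (δ - 1) := by
            apply mul_le_mul_of_nonneg_right _ hlp.le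
            apply Real.rpow_le_rpow_of_exponent_le (by norm_num)
            linarith
        _ = (4 / 3 * l) ^ (δ - 1) := (Real.mul_rpow (by norm_num) hl0.le).symm
        _ ≤ lz ^ (δ - 1) := Real.rpow_le_rpow_of_nonpos hlz0 hlz2 (by linarith)
        _ ≤ lz ^ (δ' - 1) := Real.rpow_le_rpow_of_exponent_le hlz1 (by linarith)
    have ez : z = ⟨z.re, z.im⟩ := rfl
    obtain ⟨a1, a2⟩ := hzf z.re z.im (by rw [habs]; linarith) (by
      have := hpow δ0 hδa hδ01
      linarith) n2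
    have a3 := hze z.re z.im (by rw [habs]; linarith) (by
      have := hpow δ1 hδb hδ11
      linarith) (by linarith)
    refine ⟨a1, ?_, ?_⟩
    · refine a3.trans ?_
      rw [← hlz]
      nlinarith
    · refine a2.trans ?_
      apply Real.rpow_le_rpow hlz0.le _ (by linarith)
      linarith
  have hss : s ∈ ball s R := mem_ball_self hRp
  obtain ⟨b1, b2, b3⟩ := hzb s hss
  have hinv : 1 ≤ (2 * l) ^ K0 * ‖riemannZeta s‖ := by
    have : ‖(riemannZeta s)⁻¹‖ * ‖riemannZeta s‖ = 1 := by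
      rw [← norm_mul, inv_mul_cancel₀ b1, norm_one]
    rw [← this]
    gcongr
  set M : ℝ := ε / 16 * l ^ δ with hM
  have hMp : 0 < M := by rw [hM]; positivity
  have hK1l : 1 ≤ 2 * K1 * l := by nlinarith
  have h2l : 1 ≤ (2 * l) ^ K0 := Real.one_le_rpow (by linarith) (by linarith)
  have hMl : M ≤ ε * l := by
    have : l ^ δ ≤ l := by
      calc l ^ δ ≤ l ^ (1:ℝ) := Real.rpow_le_rpow_of_exponent_le hl1 hδ1'.le
        _ = l := Real.rpow_one l
    rw [hM]
    nlinarith [Real.rpow_pos_of_pos hl0 δ]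
  refine ⟨b1, ?_, ?_, ?_⟩
  · have hld := ld_ball hRp hMp (f := riemannZeta) (c := s) (fun z hz => by
        obtain ⟨n1, n2, n3, n4⟩ := hnear z hz
        exact (zeta_at (by linarith)).differentiableWithinAt) (fun z hz => (hzb z hz).1) (fun z hz => by
        calc ‖riemannZeta z‖ ≤ (2 * K1 * l) * 1 := by rw [mul_one]; exact (hzb z hz).2.1
          _ ≤ (2 * K1 * l) * ((2 * l) ^ K0 * ‖riemannZeta s‖) := by gcongr
          _ = (2 * K1 * l * (2 * l) ^ K0) * ‖riemannZeta s‖ := by ring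
          _ ≤ _ := by gcongr)
    refine hld.trans (le_of_eq ?_)
    rw [hM, hR]
    have e1 : l ^ δ = l ^ (δ - 1) * l := by
      rw [Real.rpow_sub_one hl0.ne']
      field_simp
    rw [e1]
    field_simp
    ring
  · have e1 : Real.exp (-(ε * l)) * (2 * l) ^ K0 ≤ 1 := by
      calc Real.exp (-(ε * l)) * (2 * l) ^ K0 ≤ Real.exp (-(ε * l)) * (2 * K1 * l * (2 * l) ^ K0) := by
            gcongr
            exact le_mul_of_one_le_left (by positivity) hK1l
        _ ≤ Real.exp (-(ε * l)) * Real.exp M := by gcongr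
        _ = Real.exp (M - ε * l) := by rw [← Real.exp_add]; ring_nf
        _ ≤ 1 := Real.exp_le_one_iff.2 (by linarith)
    have e2 : 0 < (2 * l) ^ K0 := by positivity
    calc Real.exp (-(ε * l)) = Real.exp (-(ε * l)) * 1 := (mul_one _).symm
      _ ≤ Real.exp (-(ε * l)) * ((2 * l) ^ K0 * ‖riemannZeta s‖) := by gcongr
      _ = (Real.exp (-(ε * l)) * (2 * l) ^ K0) * ‖riemannZeta s‖ := by ring
      _ ≤ 1 * ‖riemannZeta s‖ := by gcongr
      _ = _ := one_mul _
  · calc ‖riemannZeta s‖ ≤ 2 * K1 * l := b2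
      _ ≤ 2 * K1 * l * (2 * l) ^ K0 := le_mul_of_one_le_right (by linarith) h2l
      _ ≤ Real.exp M := h2
      _ ≤ _ := Real.exp_le_exp.2 hMl

end Pool.Agent.Zk17.QS
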