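import Pool.Agent.Zk17.QS.E

set_option autoImplicit false

/-!
# Quasi-Speiser: the functional equation
-/

namespace Pool.Agent.Zk17.QS

open Complex Filter Topology Set Metric
open Pool.Agent.H24R2.JP (XX HH Om)
open Pool.Agent.H24R2.JP.B1h (XX_neg XX_conj XX_diff iter_conj)
open Pool.Agent.H986R2.K4.NormAux (logDeriv_XX)

/-- the reflected point -/
lemma refl_norm {s : ℂ} (hs : 0 < s.im) : ‖HH (s - 1 / 2)‖ * ‖riemannZeta s‖ =
    ‖HH (-(starRingEnd ℂ) (s - 1 / 2))‖ * ‖riemannZeta (1 - (starRingEnd ℂ) s)‖ := by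
  set p : ℂ := s - 1 / 2 with hp
  have hpim : 0 < p.im := by rw [hp]; simpa using hs
  have hp'im : 0 < (-(starRingEnd ℂ) p).im := by simpa using hpim
  have h1 := Pool.Agent.H24R2.JP.ZetaTask.part1 p hpim
  have h2 := Pool.Agent.H24R2.JP.ZetaTask.part1 (-(starRingEnd ℂ) p) hp'im
  have h3 : XX (-(starRingEnd ℂ) p) = (starRingEnd ℂ) (XX p) := by rw [XX_neg, XX_conj]
  have e1 : (1 / 2 + p : ℂ) = s := by rw [hp]; ring
  have e2 : (1 / 2 + -(starRingEnd ℂ) p : ℂ) = 1 - (starRingEnd ℂ) s := by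
    rw [hp, map_sub, map_div₀, map_one, Pool.Agent.H24R2.JP.B1h.c2]; ring
  rw [e1] at h1
  rw [e2, h3] at h2
  rw [← norm_mul, ← norm_mul, ← h1, ← h2, Complex.norm_conj]

lemma refl_ld {s : ℂ} (hs : 0 < s.im) (h1 : DifferentiableAt ℂ HH (s - 1 / 2)) (h2 : HH (s - 1 / 2) ≠ 0)
    (h3 : DifferentiableAt ℂ HH (-(starRingEnd ℂ) (s - 1 / 2))) (h4 : HH (-(starRingEnd ℂ) (s - 1 / 2)) ≠ 0)
    (h5 : riemannZeta s ≠ 0) (h6 : riemannZeta (1 - (starRingEnd ℂ) s) ≠ 0) :
    logDeriv riemannZeta s = - logDeriv HH (s - 1 / 2) - (starRingEnd ℂ) (logDeriv HH (-(starRingEnd ℂ) (s - 1 / 2)) +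
      logDeriv riemannZeta (1 - (starRingEnd ℂ) s)) := by
  set p : ℂ := s - 1 / 2 with hp
  have hpim : 0 < p.im := by rw [hp]; simpa using hs
  have hp'im : 0 < (-(starRingEnd ℂ) p).im := by simpa using hpim
  have e1 : (1 / 2 + p : ℂ) = s := by rw [hp]; ring
  have e2 : (1 / 2 + -(starRingEnd ℂ) p : ℂ) = 1 - (starRingEnd ℂ) s := by
    rw [hp, map_sub, map_div₀, map_one, Pool.Agent.H24R2.JP.B1h.c2]; ring
  have k1 := logDeriv_XX hpim h1 h2 (by rw [e1]; exact h5)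
  have k2 := logDeriv_XX hp'im h3 h4 (by rw [e2]; exact h6)
  rw [e1] at k1
  rw [e2] at k2
  have hXd : ∀ z : ℂ, deriv XX (-z) = - deriv XX z := by
    intro z
    have h : HasDerivAt (fun w : ℂ => XX (-w)) (deriv XX (-z) * (-1)) z :=
      HasDerivAt.comp z (XX_diff (-z)).hasDerivAt (hasDerivAt_neg z)
    have h' : (fun w : ℂ => XX (-w)) = XX := by funext w; exact XX_neg w
    rw [h'] at h
    rw [h.deriv]; ring
  have hXc : deriv XX ((starRingEnd ℂ) p) = (starRingEnd ℂ) (deriv XX p) := by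
    have := iter_conj XX XX_conj 1 p
    rwa [iteratedDeriv_one] at this
  have k3 : logDeriv XX (-(starRingEnd ℂ) p) = -(starRingEnd ℂ) (logDeriv XX p) := by
    rw [logDeriv_apply, logDeriv_apply, hXd, hXc, XX_neg, XX_conj, map_div₀, neg_div]
  have k4 : logDeriv XX p = - (starRingEnd ℂ) (logDeriv XX (-(starRingEnd ℂ) p)) := by
    rw [k3, map_neg, Complex.conj_conj, neg_neg]
  rw [k1, k2] at k4
  linear_combination k4

/-- **the base case** -/
theorem PA_zeta : ∃ δ : ℝ, 0 < δ ∧ δ < 1 ∧ ∀ T : ℕ → ℝ, Tendsto T atTop atTop →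
    PA T (fun n => (Real.log (T n)) ^ (δ - 1) / 2) riemannZeta := by
  obtain ⟨δ, hδ0, hδ1, hr⟩ := right_side
  refine ⟨δ, hδ0, hδ1, fun T hT ε X H hε => ?_⟩
  obtain ⟨K, hK, hH⟩ := Pool.Agent.H986R2.K4.hh
  set R : ℝ := |X| + |H| + 2 with hR
  have hR1 : 1 ≤ R := by
    have := abs_nonneg X
    have := abs_nonneg H
    rw [hR]; linarith
  obtain ⟨T0, hT0, hHH⟩ := hH R hR1
  filter_upwards [hr T hT (ε / 2) H (by positivity), ev_T hT T0, ev_T hT (|H| + 2), ev_log hT 1,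
    ev_log hT (4 * K * R / ε)] with n h1 h2 h3 h4 h5 s hs1 hs2 hs3
  set t : ℝ := T n with ht
  set l : ℝ := Real.log t with hl
  have hX := le_abs_self X
  have hX0 := abs_nonneg X
  have hHa := le_abs_self H
  have hH0 := abs_nonneg H
  have hl0 : 0 < l := by linarith
  have hlp : 0 < l ^ (δ - 1) := Real.rpow_pos_of_pos hl0 _
  have hlp1 : l ^ (δ - 1) ≤ 1 := Real.rpow_le_one_of_one_le_of_nonpos h4 (by linarith)
  have him : 0 < s.im := by linarith [(im_win hs3).1]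
  have hO : Om t = l / 2 := rfl
  have h5' : 4 * K * R ≤ ε * l := by
    rw [div_le_iff₀ hε] at h5; linarith
  have hKR : K ≤ K * R := le_mul_of_one_le_right (by linarith) hR1
  -- the two points
  set u : ℂ := (s - 1 / 2) - I * t with hu
  set u' : ℂ := -(starRingEnd ℂ) (s - 1 / 2) - I * t with hu'
  have ep : s - 1 / 2 = I * t + u := by rw [hu]; ring
  have ep' : -(starRingEnd ℂ) (s - 1 / 2) = I * t + u' := by rw [hu']; ring
  have ure : u.re = s.re - 1 / 2 := by rw [hu]; simp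
  have uim : u.im = s.im - t := by rw [hu]; simp
  have u're : u'.re = 1 / 2 - s.re := by rw [hu']; simp
  have u'im : u'.im = s.im - t := by rw [hu']; simp
  have hre : |s.re - 1 / 2| ≤ |X| + 3 / 2 := by
    rw [abs_le]
    constructor <;> linarith
  have hun : ‖u‖ ≤ R := by
    refine (Complex.norm_le_abs_re_add_abs_im u).trans ?_
    rw [ure, uim, hR]
    linarith
  have hu'n : ‖u'‖ ≤ R := by
    refine (Complex.norm_le_abs_re_add_abs_im u').trans ?_
    rw [u're, u'im, hR, abs_sub_comm]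
    linarith
  obtain ⟨a1, a2, a3, a4, a5⟩ := hHH t u h2 hun
  obtain ⟨b1, b2, b3, b4, b5⟩ := hHH t u' h2 hu'n
  rw [← ep] at a1 a2 a3 a4 a5
  rw [← ep'] at b1 b2 b3 b4 b5
  have hs're : (1 - (starRingEnd ℂ) s).re = 1 - s.re := by simp
  have hs'im : (1 - (starRingEnd ℂ) s).im = s.im := by simp
  obtain ⟨c1, c2, c3, c4⟩ := h1 (1 - (starRingEnd ℂ) s) (by rw [hs're]; linarith) (by rw [hs'im]; exact hs3)
  have hN := refl_norm him
  have hHp : 0 < ‖HH (s - 1 / 2)‖ := norm_pos_iff.2 a2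
  have hHp' : 0 < ‖HH (-(starRingEnd ℂ) (s - 1 / 2))‖ := norm_pos_iff.2 b2
  have hzp' : 0 < ‖riemannZeta (1 - (starRingEnd ℂ) s)‖ := norm_pos_iff.2 c1
  have hzn : riemannZeta s ≠ 0 := by
    intro h
    rw [h, norm_zero, mul_zero] at hN
    have := mul_pos hHp' hzp'
    linarith
  have hHt : 0 < ‖HH (I * t)‖ := by
    have : 0 < Real.exp (Om t * u.re + K * R) * ‖HH (I * t)‖ := lt_of_lt_of_le hHp a5
    exact pos_of_mul_pos_right this (Real.exp_pos _).le
  refine ⟨hzn, ?_, ?_, ?_⟩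
  · rw [refl_ld him a1 a2 b1 b2 hzn c1]
    have e1 : - logDeriv HH (s - 1 / 2) - (starRingEnd ℂ) (logDeriv HH (-(starRingEnd ℂ) (s - 1 / 2)) +
        logDeriv riemannZeta (1 - (starRingEnd ℂ) s)) + (l : ℂ) =
        -(logDeriv HH (s - 1 / 2) - (Om t : ℂ)) - (starRingEnd ℂ) ((logDeriv HH (-(starRingEnd ℂ) (s - 1 / 2)) - (Om t : ℂ)) +
        logDeriv riemannZeta (1 - (starRingEnd ℂ) s)) := by
      simp only [map_add, map_sub, Complex.conj_ofReal]
      rw [hO]
      push_cast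
      ring
    rw [e1]
    calc ‖-(logDeriv HH (s - 1 / 2) - (Om t : ℂ)) - (starRingEnd ℂ) ((logDeriv HH (-(starRingEnd ℂ) (s - 1 / 2)) - (Om t : ℂ)) +
          logDeriv riemannZeta (1 - (starRingEnd ℂ) s))‖
        ≤ ‖-(logDeriv HH (s - 1 / 2) - (Om t : ℂ))‖ + ‖(starRingEnd ℂ) ((logDeriv HH (-(starRingEnd ℂ) (s - 1 / 2)) - (Om t : ℂ)) +
          logDeriv riemannZeta (1 - (starRingEnd ℂ) s))‖ := norm_sub_le _ _
      _ ≤ K + (K + ε / 2 * l) := by
          rw [norm_neg, Complex.norm_conj]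
          gcongr
          exact (norm_add_le _ _).trans (by gcongr)
      _ ≤ ε * l := by linarith
  · have f1 : Real.exp (Om t * u'.re - K * R) * ‖HH (I * t)‖ * Real.exp (-(ε / 2 * l)) ≤
        (Real.exp (Om t * u.re + K * R) * ‖HH (I * t)‖) * ‖riemannZeta s‖ := by
      calc Real.exp (Om t * u'.re - K * R) * ‖HH (I * t)‖ * Real.exp (-(ε / 2 * l))
          ≤ ‖HH (-(starRingEnd ℂ) (s - 1 / 2))‖ * ‖riemannZeta (1 - (starRingEnd ℂ) s)‖ := by gcongr
        _ = ‖HH (s - 1 / 2)‖ * ‖riemannZeta s‖ := hN.symm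
        _ ≤ _ := by gcongr
    have f2 : Real.exp (Om t * u'.re - K * R) * Real.exp (-(ε / 2 * l)) ≤ Real.exp (Om t * u.re + K * R) * ‖riemannZeta s‖ := by
      apply le_of_mul_le_mul_right _ hHt
      calc _ = Real.exp (Om t * u'.re - K * R) * ‖HH (I * t)‖ * Real.exp (-(ε / 2 * l)) := by ring
        _ ≤ _ := f1
        _ = _ := by ring
    calc Real.exp ((1 / 2 - s.re - ε) * l) ≤ (Real.exp (Om t * u'.re - K * R) * Real.exp (-(ε / 2 * l))) * Real.exp (-(Om t * u.re + K * R)) := by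
          rw [← Real.exp_add, ← Real.exp_add]
          apply Real.exp_le_exp.2
          rw [ure, u're, hO]
          nlinarith
      _ ≤ (Real.exp (Om t * u.re + K * R) * ‖riemannZeta s‖) * Real.exp (-(Om t * u.re + K * R)) := by gcongr
      _ = ‖riemannZeta s‖ * (Real.exp (Om t * u.re + K * R) * Real.exp (-(Om t * u.re + K * R))) := by ring
      _ = _ := by rw [← Real.exp_add, add_neg_cancel, Real.exp_zero, mul_one]
  · have f1 : Real.exp (Om t * u.re - K * R) * ‖HH (I * t)‖ * ‖riemannZeta s‖ ≤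
        (Real.exp (Om t * u'.re + K * R) * ‖HH (I * t)‖) * Real.exp (ε / 2 * l) := by
      calc Real.exp (Om t * u.re - K * R) * ‖HH (I * t)‖ * ‖riemannZeta s‖
          ≤ ‖HH (s - 1 / 2)‖ * ‖riemannZeta s‖ := by gcongr
        _ = ‖HH (-(starRingEnd ℂ) (s - 1 / 2))‖ * ‖riemannZeta (1 - (starRingEnd ℂ) s)‖ := hN
        _ ≤ _ := by gcongr
    have f2 : Real.exp (Om t * u.re - K * R) * ‖riemannZeta s‖ ≤ Real.exp (Om t * u'.re + K * R) * Real.exp (ε / 2 * l) := by
      apply le_of_mul_le_mul_right _ hHt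
      calc _ = Real.exp (Om t * u.re - K * R) * ‖HH (I * t)‖ * ‖riemannZeta s‖ := by ring
        _ ≤ _ := f1
        _ = _ := by ring
    calc ‖riemannZeta s‖ = ‖riemannZeta s‖ * (Real.exp (Om t * u.re - K * R) * Real.exp (-(Om t * u.re - K * R))) := by
          rw [← Real.exp_add, add_neg_cancel, Real.exp_zero, mul_one]
      _ = (Real.exp (Om t * u.re - K * R) * ‖riemannZeta s‖) * Real.exp (-(Om t * u.re - K * R)) := by ring
      _ ≤ (Real.exp (Om t * u'.re + K * R) * Real.exp (ε / 2 * l)) * Real.exp (-(Om t * u.re - K * R)) := by gcongr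
      _ ≤ Real.exp ((1 / 2 - s.re + ε) * l) := by
          rw [← Real.exp_add, ← Real.exp_add]
          apply Real.exp_le_exp.2
          rw [ure, u're, hO]
          nlinarith

end Pool.Agent.Zk17.QS
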