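import Pool.Agent.Zk17.QS.C
import Pool.Agent.Zk17.QS.F

set_option autoImplicit false

/-!
# Quasi-Speiser: products of first order operators and perturbations
-/

namespace Pool.Agent.Zk17.QS

open Complex Filter Topology Set Metric

/-- product of first order operators -/
noncomputable def opL : List ℂ → (ℂ → ℂ) → ℂ → ℂ
  | [], g => g
  | a :: l, g => D a (opL l g)

lemma An.opL {g : ℂ → ℂ} (h : An g) : ∀ l : List ℂ, An (opL l g)
  | [] => h
  | a :: l => (h.opL l).D a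

lemma Gr.opL {T : ℕ → ℝ} (hT : Tendsto T atTop atTop) {g : ℂ → ℂ} (hg : An g) (h : Gr T g) : ∀ l : List ℂ, Gr T (opL l g)
  | [] => h
  | a :: l => Gr.D hT (hg.opL l) (h.opL hT hg l) a

lemma Rt.opL {T : ℕ → ℝ} (hT : Tendsto T atTop atTop) {g : ℂ → ℂ} (hg : An g) (h : Rt T g) : ∀ l : List ℂ, Rt T (opL l g)
  | [] => h
  | a :: l => Rt.D hT (hg.opL l) (h.opL hT hg l) a

lemma ev_rpow {T : ℕ → ℝ} (hT : Tendsto T atTop atTop) {δ c : ℝ} (hδ : 0 < δ) (hc : 0 < c) (C : ℝ) :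
    ∀ᶠ n in atTop, C ≤ c * (Real.log (T n)) ^ (δ - 1) * Real.log (T n) := by
  have h1 : Tendsto (fun n => c * (Real.log (T n)) ^ δ) atTop atTop :=
    ((tendsto_rpow_atTop hδ).comp (Real.tendsto_log_atTop.comp hT)).const_mul_atTop hc
  filter_upwards [h1.eventually_ge_atTop C, ev_log hT 1] with n h2 h3
  rw [mul_assoc, ← Real.rpow_add_one (by linarith)]
  simpa using h2

/-- base case for products of operators -/
lemma base_op {δ : ℝ} (hδ : 0 < δ) (h : ∀ T : ℕ → ℝ, Tendsto T atTop atTop →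
    PA T (fun n => (Real.log (T n)) ^ (δ - 1) / 2) riemannZeta) : ∀ l : List ℂ, ∃ c : ℝ, 0 < c ∧
    ∀ T : ℕ → ℝ, Tendsto T atTop atTop → PA T (fun n => c * (Real.log (T n)) ^ (δ - 1)) (opL l riemannZeta)
  | [] => ⟨1 / 2, by norm_num, fun T hT => (h T hT).mono (Eventually.of_forall fun n => by
      apply le_of_eq; ring)⟩
  | a :: l => by
      obtain ⟨c, hc, h1⟩ := base_op hδ h l
      refine ⟨c / 2, by positivity, fun T hT => ?_⟩
      apply PA.D hT (zeta_An.opL l) (h1 T hT)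
      filter_upwards [ev_rpow hT hδ (c := c / 2) (by positivity) 1] with n h2
      have : (c * Real.log (T n) ^ (δ - 1) - c / 2 * Real.log (T n) ^ (δ - 1)) * Real.log (T n) =
        c / 2 * Real.log (T n) ^ (δ - 1) * Real.log (T n) := by ring
      rw [this]
      exact h2

lemma ev_gap {T : ℕ → ℝ} (hT : Tendsto T atTop atTop) {b b' : ℝ} (h : b' < b) :
    ∀ᶠ n in atTop, 1 ≤ (b - b') * Real.log (T n) := by
  filter_upwards [ev_log hT (1 / (b - b'))] with n hn
  rw [div_le_iff₀ (by linarith)] at hn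
  linarith

/-- forward direction for products of operators -/
lemma forward_op {T : ℕ → ℝ} (hT : Tendsto T atTop atTop) {g : ℂ → ℂ} (hg : An g) {δ : ℝ}
    (h : ∀ b : ℝ, b < δ → PA T (fun _ => b) g) : ∀ (l : List ℂ) (b : ℝ), b < δ → PA T (fun _ => b) (opL l g)
  | [], b, hb => h b hb
  | a :: l, b, hb => by
      have h1 := forward_op hT hg h l ((b + δ) / 2) (by linarith)
      exact PA.D hT (hg.opL l) h1 (ev_gap hT (by linarith)) a

/-- backward direction for products of operators -/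
lemma backward_op {T : ℕ → ℝ} (hT : Tendsto T atTop atTop) {g : ℂ → ℂ} (hg : An g) (hGr : Gr T g) (hRt : Rt T g)
    (h0 : ∀ b : ℝ, b < 0 → PA T (fun _ => b) g) {δ : ℝ} (hδ0 : 0 < δ) (hδ : δ ≤ 1 / 2) :
    ∀ (l : List ℂ), (∀ b : ℝ, b < δ → PA T (fun _ => b) (opL l g)) → ∀ b : ℝ, b < δ → PA T (fun _ => b) g
  | [], h => h
  | a :: l, h => by
      apply backward_op hT hg hGr hRt h0 hδ0 hδ l
      exact PA.step hT (hg.opL l) (hGr.opL hT hg l) (hRt.opL hT hg l) (forward_op hT hg h0 l) hδ0 hδ h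

/-- small functions -/
def Sm (T : ℕ → ℝ) (A : ℂ → ℂ) : Prop := ∀ ε X H : ℝ, 0 < ε → ∀ᶠ n in atTop, ∀ s : ℂ,
  |s.re| ≤ X → |s.im - T n| ≤ H → ‖A s‖ ≤ Real.exp (ε * Real.log (T n))

lemma Sm.Gr {T : ℕ → ℝ} {A : ℂ → ℂ} (h : Sm T A) : Gr T A := fun X => ⟨1, fun H => h 1 X H one_pos⟩

lemma Sm.neg {T : ℕ → ℝ} {A : ℂ → ℂ} (h : Sm T A) : Sm T (fun s => - A s) := by
  intro ε X H hε
  filter_upwards [h ε X H hε] with n hn s h1 h2
  rw [norm_neg]
  exact hn s h1 h2

/-- adding a small function -/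
lemma PA.add {T b : ℕ → ℝ} {g A : ℂ → ℂ} {κ : ℝ} (hT : Tendsto T atTop atTop) (hg : An g) (hA : An A) (h : PA T b g)
    (hS : Sm T A) (hκ : 0 < κ) (hb : ∀ᶠ n in atTop, b n ≤ 1 / 2 - κ) : PA T b (fun s => g s + A s) := by
  intro ε X H hε
  set ε1 : ℝ := min (ε / 4) (κ / 8) with hε1
  have hε1p : 0 < ε1 := by positivity
  have hε1a : ε1 ≤ ε / 4 := min_le_left _ _
  have hε1b : ε1 ≤ κ / 8 := min_le_right _ _
  filter_upwards [h ε1 X H hε1p, hS ε1 (|X| + 2) (H + 1) hε1p, hb, ev_T hT (|H| + 2), ev_log hT 1,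
    ev_exp hT (4 / ε1) ε1 hε1p, ev_log hT (2 / ε1)] with n h1 h2 h3 h4 h5 h6 h7 s hs1 hs2 hs3
  set L := Real.log (T n) with hL
  have hLp : 0 < L := by linarith
  have hX := le_abs_self X
  have hX0 := abs_nonneg X
  have hHa := le_abs_self H
  have hH0 := abs_nonneg H
  obtain ⟨q1, q2, q3, q4⟩ := h1 s hs1 hs2 hs3
  have him := im_win hs3
  have hsre : |s.re| ≤ |X| + 1 := by
    rw [abs_le]
    constructor <;> linarith
  have hball : ∀ z : ℂ, ‖z - s‖ ≤ 1 → ‖A z‖ ≤ Real.exp (ε1 * L) := by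
    intro z hz
    have e1 := abs_le.1 (near_re hz)
    have e2 := near_im hz
    apply h2 z
    · rw [abs_le] at hsre ⊢
      constructor <;> linarith [hsre.1, hsre.2, e1.1, e1.2]
    · calc |z.im - T n| = |(z.im - s.im) + (s.im - T n)| := by ring_nf
        _ ≤ |z.im - s.im| + |s.im - T n| := abs_add_le _ _
        _ ≤ _ := by linarith
  have hA0 := hball s (by simp)
  have hA1 := cau hA one_pos (by linarith : (1:ℝ) < s.im) hball
  rw [div_one] at hA1
  -- size of g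
  have hg1 : Real.exp (ε1 * L) * (4 / ε1) ≤ ‖g s‖ := by
    have e1 : 4 / ε1 ≤ Real.exp (ε1 * L) := by
      refine le_trans ?_ h6
      exact le_mul_of_one_le_right (by positivity) h5
    calc Real.exp (ε1 * L) * (4 / ε1) ≤ Real.exp (ε1 * L) * Real.exp (ε1 * L) := by gcongr
      _ = Real.exp (2 * ε1 * L) := by rw [← Real.exp_add]; ring_nf
      _ ≤ Real.exp ((1 / 2 - s.re - ε1) * L) := by
          apply Real.exp_le_exp.2
          apply mul_le_mul_of_nonneg_right _ hLp.le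
          linarith
      _ ≤ _ := q3
  have hexp1 : 1 ≤ Real.exp (ε1 * L) := Real.one_le_exp (by positivity)
  have hε14 : ε1 ≤ 1 / 2 ∨ 1 / 2 < ε1 := le_or_gt _ _
  have hε1s : ε1 * (Real.exp (ε1 * L) * (4 / ε1)) = 4 * Real.exp (ε1 * L) := by field_simp
  have hAg : ‖A s‖ ≤ ε1 / 4 * ‖g s‖ := by
    have : 4 * Real.exp (ε1 * L) ≤ ε1 * ‖g s‖ := by
      rw [← hε1s]; gcongr
    linarith
  have hA'g : ‖deriv A s‖ ≤ ε1 / 4 * ‖g s‖ := by
    have : 4 * Real.exp (ε1 * L) ≤ ε1 * ‖g s‖ := by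
      rw [← hε1s]; gcongr
    linarith
  have hAg2 : ‖A s‖ ≤ 1 / 2 * ‖g s‖ := by
    -- exp (ε1 L) ≤ exp(2 ε1 L)/2
    have e1 : 2 ≤ Real.exp (ε1 * L) := by
      have := Real.add_one_le_exp (ε1 * L)
      rw [div_le_iff₀ hε1p] at h7
      linarith
    have e2 : Real.exp (ε1 * L) * Real.exp (ε1 * L) ≤ ‖g s‖ := by
      refine le_trans ?_ q3
      rw [← Real.exp_add]
      apply Real.exp_le_exp.2
      have : ε1 * L + ε1 * L = (2 * ε1) * L := by ring
      rw [this]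
      apply mul_le_mul_of_nonneg_right _ hLp.le
      linarith
    nlinarith
  have hgp : 0 < ‖g s‖ := norm_pos_iff.2 q1
  have hlow : 1 / 2 * ‖g s‖ ≤ ‖g s + A s‖ := by
    have : ‖g s‖ ≤ ‖g s + A s‖ + ‖A s‖ := by
      calc ‖g s‖ = ‖(g s + A s) - A s‖ := by ring_nf
        _ ≤ _ := norm_sub_le _ _
    linarith
  have hupp : ‖g s + A s‖ ≤ 2 * ‖g s‖ := by
    have := norm_add_le (g s) (A s)
    linarith
  have hne : g s + A s ≠ 0 := by
    intro h0
    rw [h0, norm_zero] at hlow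
    linarith
  have hexp2 : 2 ≤ Real.exp (ε1 * L) := by
    have := Real.add_one_le_exp (ε1 * L)
    rw [div_le_iff₀ hε1p] at h7
    linarith
  refine ⟨hne, ?_, ?_, ?_⟩
  · have hsim : 0 < s.im := by linarith
    have e1 : logDeriv (fun s => g s + A s) s + L = (g s * (logDeriv g s + L) + (deriv A s + L * A s)) / (g s + A s) := by
      rw [logDeriv_apply, logDeriv_apply, deriv_fun_add (hg.at hsim) (hA.at hsim)]
      field_simp
      ring
    have e2 : ‖g s * (logDeriv g s + L) + (deriv A s + L * A s)‖ ≤ ‖g s‖ * (ε1 * L) + (ε1 / 4 * ‖g s‖ + L * (ε1 / 4 * ‖g s‖)) := by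
      refine (norm_add_le _ _).trans ?_
      rw [norm_mul]
      gcongr
      refine (norm_add_le _ _).trans ?_
      rw [norm_mul, Complex.norm_real, Real.norm_eq_abs, abs_of_pos hLp]
      gcongr
    rw [e1, norm_div, div_le_iff₀ (by linarith)]
    calc ‖g s * (logDeriv g s + L) + (deriv A s + L * A s)‖ ≤ ‖g s‖ * (ε1 * L) + (ε1 / 4 * ‖g s‖ + L * (ε1 / 4 * ‖g s‖)) := e2
      _ ≤ ε * L * (1 / 2 * ‖g s‖) := by
          have f1 : ε1 / 4 * ‖g s‖ ≤ L * (ε1 / 4 * ‖g s‖) := le_mul_of_one_le_left (by positivity) h5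
          have f2 : 0 < L * ‖g s‖ := by positivity
          nlinarith
      _ ≤ _ := by gcongr
  · calc Real.exp ((1 / 2 - s.re - ε) * L) ≤ Real.exp ((1 / 2 - s.re - ε1) * L) * Real.exp (-(ε1 * L)) := by
          rw [← Real.exp_add]
          apply Real.exp_le_exp.2
          nlinarith
      _ ≤ ‖g s‖ * (1 / 2) := by
          gcongr
          rw [Real.exp_neg, ← one_div]
          apply one_div_le_one_div_of_le (by norm_num) hexp2
      _ ≤ _ := by linarith
  · calc ‖g s + A s‖ ≤ 2 * ‖g s‖ := hupp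
      _ ≤ Real.exp (ε1 * L) * Real.exp ((1 / 2 - s.re + ε1) * L) := by gcongr
      _ ≤ _ := by
          rw [← Real.exp_add]
          apply Real.exp_le_exp.2
          nlinarith

/-! ## The class of functions -/

/-- A function in the class: product of operators applied to zeta, plus a function bounded in vertical strips -/
structure Cls (l : List ℂ) (A G : ℂ → ℂ) : Prop where
  an : An A
  bd : ∀ X : ℝ, ∃ C : ℝ, ∀ s : ℂ, |s.re| ≤ X → ‖A s‖ ≤ C
  eq' : ∃ c : ℂ, c ≠ 0 ∧ ∀ s : ℂ, 0 < s.im → G s = c * (opL l riemannZeta s + A s)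

lemma Cls.eq {l : List ℂ} {A G : ℂ → ℂ} (h : Cls l A G) (s : ℂ) (hs : 0 < s.im) :
    G s = 0 ↔ opL l riemannZeta s + A s = 0 := by
  obtain ⟨c, hc, h1⟩ := h.eq'
  rw [h1 s hs, mul_eq_zero]
  simp [hc]

lemma Cls.sm {l : List ℂ} {A G : ℂ → ℂ} (h : Cls l A G) {T : ℕ → ℝ} (hT : Tendsto T atTop atTop) : Sm T A := by
  intro ε X H hε
  obtain ⟨C, hC⟩ := h.bd X
  filter_upwards [ev_log hT (C / ε)] with n hn s h1 h2
  refine (hC s h1).trans ?_
  rw [div_le_iff₀ hε] at hn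
  have := Real.add_one_le_exp (ε * Real.log (T n))
  linarith

lemma Gr.add {T : ℕ → ℝ} (hT : Tendsto T atTop atTop) {f g : ℂ → ℂ} (h1 : Gr T f) (h2 : Gr T g) : Gr T (fun s => f s + g s) := by
  intro X
  obtain ⟨K1, hK1⟩ := h1 X
  obtain ⟨K2, hK2⟩ := h2 X
  refine ⟨max K1 K2 + 1, fun H => ?_⟩
  filter_upwards [hK1 H, hK2 H, ev_log hT 1] with n a1 a2 a3 s s1 s2
  set L := Real.log (T n)
  have e1 : Real.exp (K1 * L) ≤ Real.exp (max K1 K2 * L) := Real.exp_le_exp.2 (by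
    apply mul_le_mul_of_nonneg_right (le_max_left _ _) (by linarith))
  have e2 : Real.exp (K2 * L) ≤ Real.exp (max K1 K2 * L) := Real.exp_le_exp.2 (by
    apply mul_le_mul_of_nonneg_right (le_max_right _ _) (by linarith))
  have e3 : 2 ≤ Real.exp (1 * L) := by
    have := Real.add_one_le_exp (1 * L)
    linarith
  calc ‖f s + g s‖ ≤ ‖f s‖ + ‖g s‖ := norm_add_le _ _
    _ ≤ Real.exp (max K1 K2 * L) + Real.exp (max K1 K2 * L) := add_le_add ((a1 s s1 s2).trans e1) ((a2 s s1 s2).trans e2)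
    _ = 2 * Real.exp (max K1 K2 * L) := by ring
    _ ≤ Real.exp (1 * L) * Real.exp (max K1 K2 * L) := by gcongr
    _ = _ := by rw [← Real.exp_add]; ring_nf

/-- the exponent in the unconditional region -/
theorem uncond : ∃ δ : ℝ, 0 < δ ∧ δ < 1 ∧ (∀ T : ℕ → ℝ, Tendsto T atTop atTop →
    PA T (fun n => (Real.log (T n)) ^ (δ - 1) / 2) riemannZeta) ∧
    ∀ (l : List ℂ) (A G : ℂ → ℂ), Cls l A G → ∃ c : ℝ, 0 < c ∧ ∀ T : ℕ → ℝ, Tendsto T atTop atTop →
    PA T (fun n => c * (Real.log (T n)) ^ (δ - 1)) (fun s => opL l riemannZeta s + A s) := by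
  obtain ⟨δ, hδ0, hδ1, h⟩ := PA_zeta
  refine ⟨δ, hδ0, hδ1, h, fun l A G hC => ?_⟩
  obtain ⟨c, hc, h1⟩ := base_op hδ0 h l
  refine ⟨c, hc, fun T hT => ?_⟩
  refine PA.add hT (zeta_An.opL l) hC.an (h1 T hT) (hC.sm hT) (κ := 1 / 4) (by norm_num) ?_
  have h2 : Tendsto (fun x : ℝ => c * x ^ (δ - 1)) atTop (𝓝 (c * 0)) := by
    apply Tendsto.const_mul
    have := tendsto_rpow_neg_atTop (y := 1 - δ) (by linarith)
    refine this.congr fun x => ?_
    congr 1
    ring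
  rw [mul_zero] at h2
  have h3 := (h2.comp (Real.tendsto_log_atTop.comp hT)).eventually (ge_mem_nhds (show (0:ℝ) < 1 / 4 by norm_num))
  filter_upwards [h3] with n hn
  simp only [Function.comp] at hn
  linarith

lemma PA_neg_of {T : ℕ → ℝ} (hT : Tendsto T atTop atTop) {c δ : ℝ} (hc : 0 < c) {g : ℂ → ℂ}
    (h : PA T (fun n => c * (Real.log (T n)) ^ (δ - 1)) g) {b : ℝ} (hb : b ≤ 0) : PA T (fun _ => b) g := by
  apply h.mono
  filter_upwards [ev_log hT 0] with n hn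
  have := Real.rpow_nonneg hn (δ - 1)
  nlinarith

/-- zeta zero-free implies the class zero-free -/
theorem fwd {l : List ℂ} {A G : ℂ → ℂ} (hC : Cls l A G) {T : ℕ → ℝ} (hT : Tendsto T atTop atTop) {δ : ℝ}
    (hδ : δ ≤ 1 / 2) (h : NZ T δ riemannZeta) : ∀ b : ℝ, b < δ → PA T (fun _ => b) (fun s => opL l riemannZeta s + A s) := by
  obtain ⟨δ0, h1, h2, h3, h4⟩ := uncond
  have h0 : PA T (fun _ => -(1 / 2)) riemannZeta := by
    have := h3 T hT
    apply PA_neg_of hT (c := 1 / 2) (δ := δ0) (by norm_num) _ (by norm_num)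
    exact this.mono (Eventually.of_forall fun n => by apply le_of_eq; ring)
  intro b hb
  have h5 := forward_op hT zeta_An (fun b hb => PA.of_free hT zeta_An (zeta_Gr hT) h0 (by linarith) hb h) l b hb
  exact PA.add hT (zeta_An.opL l) hC.an h5 (hC.sm hT) (κ := 1 / 2 - b) (by linarith)
    (Eventually.of_forall fun n => by linarith)

/-- the class zero-free implies zeta zero-free -/
theorem bwd {l : List ℂ} {A G : ℂ → ℂ} (hC : Cls l A G) {T : ℕ → ℝ} (hT : Tendsto T atTop atTop) {δ : ℝ}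
    (hδ0 : 0 < δ) (hδ : δ ≤ 1 / 2) (h : NZ T δ (fun s => opL l riemannZeta s + A s)) :
    ∀ b : ℝ, b < δ → PA T (fun _ => b) riemannZeta := by
  obtain ⟨δ0, h1, h2, h3, h4⟩ := uncond
  obtain ⟨c, hc, h5⟩ := h4 l A G hC
  have hGan : An (fun s => opL l riemannZeta s + A s) := (zeta_An.opL l).add hC.an
  have hGr : Gr T (fun s => opL l riemannZeta s + A s) := Gr.add hT ((zeta_Gr hT).opL hT zeta_An l) (hC.sm hT).Gr
  have h6 : ∀ b : ℝ, b < δ → PA T (fun _ => b) (fun s => opL l riemannZeta s + A s) := fun b hb =>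
    PA.of_free hT hGan hGr (PA_neg_of hT hc (h5 T hT) (by norm_num)) (by linarith) hb h
  have h7 : ∀ b : ℝ, b < δ → PA T (fun _ => b) (opL l riemannZeta) := by
    intro b hb
    have := PA.add hT hGan hC.an.neg (h6 b hb) (hC.sm hT).neg (κ := 1 / 2 - b) (by linarith)
      (Eventually.of_forall fun n => by linarith)
    have e : (fun s => (opL l riemannZeta s + A s) + (-A) s) = opL l riemannZeta := by
      funext s; simp
    rwa [e] at this
  have h8 : ∀ b : ℝ, b < 0 → PA T (fun _ => b) riemannZeta := fun b hb =>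
    PA_neg_of hT (c := 1 / 2) (δ := δ0) (by norm_num) ((h3 T hT).mono (Eventually.of_forall fun n => by
      apply le_of_eq; ring)) hb.le
  exact backward_op hT zeta_An (zeta_Gr hT) (zeta_Rt hT) h8 hδ0 hδ l h7

end Pool.Agent.Zk17.QS
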