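import Pool.Agent.Zk17.QS.G

set_option autoImplicit false

/-!
# Quasi-Speiser: polynomial operators, Dirichlet polynomials, finiteness of zeros in compact sets
-/

namespace Pool.Agent.Zk17.QS

open Complex Filter Topology Set Metric Polynomial

noncomputable def opP (Q : ℂ[X]) (g : ℂ → ℂ) (s : ℂ) : ℂ :=
  ∑ j ∈ Finset.range (Q.natDegree + 1), Q.coeff j * iteratedDeriv j g s

lemma opP_range (Q : ℂ[X]) (g : ℂ → ℂ) (s : ℂ) (M : ℕ) (hM : Q.natDegree < M) :
    opP Q g s = ∑ j ∈ Finset.range M, Q.coeff j * iteratedDeriv j g s := by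
  unfold opP
  rw [← Polynomial.sum_over_range' Q (f := fun j c => c * iteratedDeriv j g s) (by simp) M hM,
    ← Polynomial.sum_over_range' Q (f := fun j c => c * iteratedDeriv j g s) (by simp) (Q.natDegree + 1) (by omega)]

lemma An.iter {g : ℂ → ℂ} (h : An g) : ∀ j : ℕ, An (iteratedDeriv j g)
  | 0 => by rwa [iteratedDeriv_zero]
  | j + 1 => by rw [iteratedDeriv_succ]; exact (h.iter j).deriv

lemma opP_mul {g : ℂ → ℂ} (hg : An g) (a : ℂ) (Q : ℂ[X]) {s : ℂ} (hs : 0 < s.im) :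
    opP ((X - C a) * Q) g s = deriv (opP Q g) s - a * opP Q g s := by
  set M : ℕ := Q.natDegree + 1 with hM
  have h1 : ((X - C a) * Q).natDegree < M + 1 := by
    have h3 : (X - C a : ℂ[X]).natDegree = 1 := natDegree_X_sub_C a
    have := natDegree_mul_le (p := (X - C a : ℂ[X])) (q := Q)
    omega
  rw [opP_range _ g s (M + 1) h1]
  have h2 : deriv (opP Q g) s = ∑ j ∈ Finset.range M, Q.coeff j * iteratedDeriv (j + 1) g s := by
    have : opP Q g = fun s => ∑ j ∈ Finset.range M, Q.coeff j * iteratedDeriv j g s := by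
      funext s; rfl
    rw [this, deriv_fun_sum]
    · refine Finset.sum_congr rfl fun j _ => ?_
      rw [deriv_const_mul _ ((hg.iter j).at hs), iteratedDeriv_succ]
    · intro j _
      exact ((hg.iter j).at hs).const_mul _
  rw [h2, opP_range Q g s (M + 1) (by omega)]
  have h3 : ∀ j : ℕ, ((X - C a) * Q).coeff j = (X * Q).coeff j - a * Q.coeff j := by
    intro j
    rw [sub_mul, coeff_sub, coeff_C_mul]
  simp_rw [h3, sub_mul, Finset.sum_sub_distrib]
  congr 1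
  · rw [Finset.sum_range_succ']
    simp only [coeff_X_mul, mul_coeff_zero, coeff_X_zero, zero_mul, add_zero]
  · rw [Finset.mul_sum]
    refine Finset.sum_congr rfl fun j _ => by ring

lemma opP_list {g : ℂ → ℂ} (hg : An g) (c : ℂ) : ∀ (l : List ℂ) (s : ℂ), 0 < s.im →
    opP (C c * (l.map (fun a => X - C a)).prod) g s = c * opL l g s
  | [], s, hs => by
      unfold opP opL
      simp
  | a :: l, s, hs => by
      have ih := opP_list hg c l
      have e : C c * ((a :: l).map (fun a => X - C a)).prod = (X - C a) * (C c * (l.map (fun a => X - C a)).prod) := by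
        rw [List.map_cons, List.prod_cons]; ring
      rw [e, opP_mul hg a _ hs, ih s hs]
      have hev : opP (C c * (l.map (fun a => X - C a)).prod) g =ᶠ[𝓝 s] fun s => c * opL l g s := by
        filter_upwards [upper_open.mem_nhds hs] with z hz
        exact ih z hz
      rw [hev.deriv_eq, deriv_const_mul _ ((hg.opL l).at hs)]
      have e2 : opL (a :: l) g s = deriv (opL l g) s - a * opL l g s := rfl
      rw [e2]
      ring

lemma opP_factor (Q : ℂ[X]) (hQ : Q ≠ 0) : ∃ (c : ℂ) (l : List ℂ), c ≠ 0 ∧ ∀ g : ℂ → ℂ, An g → ∀ s : ℂ, 0 < s.im →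
    opP Q g s = c * opL l g s := by
  refine ⟨Q.leadingCoeff, Q.roots.toList, leadingCoeff_ne_zero.2 hQ, fun g hg s hs => ?_⟩
  rw [← opP_list hg Q.leadingCoeff Q.roots.toList s hs]
  congr 1
  have h1 := (IsAlgClosed.splits Q).eq_prod_roots
  conv_lhs => rw [h1]
  congr 1
  have h2 : (Q.roots.toList : Multiset ℂ) = Q.roots := Q.roots.coe_toList
  conv_lhs => rw [← h2]
  rw [Multiset.map_coe, Multiset.prod_coe]

/-- The analytic continuation of the Dirichlet series with coefficients `P (log n) + a n`, the second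
term being present for `n ≤ N` only. -/
noncomputable def F (P : ℂ[X]) (N : ℕ) (a : ℕ → ℂ) (s : ℂ) : ℂ :=
  ∑ j ∈ Finset.range (P.natDegree + 1), (-1) ^ j * P.coeff j * iteratedDeriv j riemannZeta s +
    ∑ n ∈ Finset.Icc 1 N, a n * (n : ℂ) ^ (-s)

lemma coeff_comp_neg (P : ℂ[X]) (j : ℕ) : (P.comp (-X)).coeff j = (-1) ^ j * P.coeff j := by
  have : (-X : ℂ[X]) = C (-1) * X := by simp
  rw [this, comp_C_mul_X_coeff]
  ring

lemma F_eq (P : ℂ[X]) (N : ℕ) (a : ℕ → ℂ) (s : ℂ) : F P N a s = opP (P.comp (-X)) riemannZeta s +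
    ∑ n ∈ Finset.Icc 1 N, a n * (n : ℂ) ^ (-s) := by
  unfold F opP
  have h : (P.comp (-X)).natDegree = P.natDegree := by
    rw [natDegree_comp, natDegree_neg, natDegree_X, mul_one]
  rw [h]
  simp_rw [coeff_comp_neg]

/-- Dirichlet polynomials -/
noncomputable def DP (N : ℕ) (a : ℕ → ℂ) (s : ℂ) : ℂ := ∑ n ∈ Finset.Icc 1 N, a n * (n : ℂ) ^ (-s)

lemma DP_diff (N : ℕ) (a : ℕ → ℂ) : Differentiable ℂ (DP N a) := by
  unfold DP
  intro s
  refine DifferentiableAt.fun_sum fun n hn => ?_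
  refine DifferentiableAt.const_mul ?_ _
  have hn1 : (n : ℂ) ≠ 0 := by
    have := (Finset.mem_Icc.1 hn).1
    exact_mod_cast (by omega : n ≠ 0)
  exact DifferentiableAt.const_cpow (by fun_prop) (Or.inl hn1)

lemma DP_bd (N : ℕ) (a : ℕ → ℂ) (X : ℝ) : ∃ C : ℝ, ∀ s : ℂ, |s.re| ≤ X → ‖DP N a s‖ ≤ C := by
  refine ⟨∑ n ∈ Finset.Icc 1 N, ‖a n‖ * (n : ℝ) ^ X, fun s hs => ?_⟩
  unfold DP
  refine norm_sum_le_of_le _ fun n hn => ?_
  have hn1 : 1 ≤ n := (Finset.mem_Icc.1 hn).1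
  have hn1' : (1 : ℝ) ≤ n := by exact_mod_cast hn1
  rw [norm_mul, Complex.norm_natCast_cpow_of_pos (by omega)]
  gcongr
  rw [Complex.neg_re]
  linarith [(abs_le.1 hs).1]

lemma cls (P : ℂ[X]) (hP : P ≠ 0) (N : ℕ) (a : ℕ → ℂ) : ∃ (l : List ℂ) (a' : ℕ → ℂ), Cls l (DP N a') (F P N a) := by
  have hQ : P.comp (-X) ≠ 0 := by rwa [Ne, comp_neg_X_eq_zero_iff]
  obtain ⟨c, l, hc, h⟩ := opP_factor _ hQ
  refine ⟨l, fun n => a n / c, (DP_diff N _).differentiableOn, DP_bd N _, c, hc, fun s hs => ?_⟩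
  have e : F P N a s = c * (opL l riemannZeta s + DP N (fun n => a n / c) s) := by
    rw [F_eq, h riemannZeta zeta_An s hs, mul_add]
    congr 1
    unfold DP
    rw [Finset.mul_sum]
    refine Finset.sum_congr rfl fun n _ => ?_
    field_simp
  exact e

/-! ## Conjugation -/

lemma iter_zeta_conj (j : ℕ) (s : ℂ) : iteratedDeriv j riemannZeta ((starRingEnd ℂ) s) =
    (starRingEnd ℂ) (iteratedDeriv j riemannZeta s) :=
  Pool.Agent.H24R2.JP.B1h.iter_conj riemannZeta (fun z => riemannZeta_conj z) j s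

lemma F_conj (P : ℂ[X]) (N : ℕ) (a : ℕ → ℂ) (s : ℂ) : F P N a ((starRingEnd ℂ) s) =
    (starRingEnd ℂ) (F (P.map (starRingEnd ℂ)) N (fun n => (starRingEnd ℂ) (a n)) s) := by
  unfold F
  have h : (P.map (starRingEnd ℂ)).natDegree = P.natDegree :=
    natDegree_map_eq_of_injective (starRingEnd ℂ).injective P
  rw [h, map_add, map_sum, map_sum]
  congr 1
  · refine Finset.sum_congr rfl fun j _ => ?_
    rw [map_mul, map_mul, iter_zeta_conj, coeff_map, Complex.conj_conj, map_pow, map_neg, map_one]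
  · refine Finset.sum_congr rfl fun n hn => ?_
    rw [map_mul, Complex.conj_conj]
    congr 1
    rw [← map_neg, Complex.cpow_conj, Complex.conj_natCast]
    rw [Complex.natCast_arg]
    exact Real.pi_pos.ne

lemma map_conj_ne {P : ℂ[X]} (hP : P ≠ 0) : P.map (starRingEnd ℂ) ≠ 0 := by
  rwa [Ne, Polynomial.map_eq_zero]

/-! ## Finitely many zeros in compact sets -/

lemma iter_zeta_diff (j : ℕ) : DifferentiableOn ℂ (iteratedDeriv j riemannZeta) {1}ᶜ := by
  induction j with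
  | zero =>
    rw [iteratedDeriv_zero]
    intro s hs
    exact (differentiableAt_riemannZeta hs).differentiableWithinAt
  | succ j ih =>
    rw [iteratedDeriv_succ]
    exact ih.deriv isOpen_compl_singleton

lemma F_diff (P : ℂ[X]) (N : ℕ) (a : ℕ → ℂ) : DifferentiableOn ℂ (F P N a) {1}ᶜ := by
  have : F P N a = fun s => (∑ j ∈ Finset.range (P.natDegree + 1), (-1) ^ j * P.coeff j * iteratedDeriv j riemannZeta s) +
    DP N a s := rfl
  rw [this]
  refine DifferentiableOn.add ?_ (DP_diff N a).differentiableOn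
  refine DifferentiableOn.fun_sum fun j _ => ?_
  exact (iter_zeta_diff j).const_mul _

lemma fin_cpt {f : ℂ → ℂ} (hf : DifferentiableOn ℂ f {1}ᶜ) (hne : ∃ s : ℂ, s ≠ 1 ∧ f s ≠ 0) (X Y R : ℝ) (hY : Y < 1) :
    {s : ℂ | f s = 0 ∧ -X ≤ s.re ∧ s.re ≤ Y ∧ |s.im| ≤ R}.Finite := by
  by_contra hinf
  set K : Set ℂ := Icc (-X) Y ×ℂ Icc (-R) R with hK
  have hKc : IsCompact K := isCompact_Icc.reProdIm isCompact_Icc
  have hsub : {s : ℂ | f s = 0 ∧ -X ≤ s.re ∧ s.re ≤ Y ∧ |s.im| ≤ R} ⊆ K := by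
    rintro s ⟨-, h1, h2, h3⟩
    rw [abs_le] at h3
    exact ⟨⟨h1, h2⟩, h3⟩
  obtain ⟨z, hz, hacc⟩ := Set.Infinite.exists_accPt_of_subset_isCompact hinf hKc hsub
  have hz1 : z ≠ 1 := by
    rintro rfl
    have := hz.1.2
    simp only [Complex.one_re] at this
    linarith
  have hfr : ∃ᶠ w in 𝓝[≠] z, f w = 0 := by
    rw [accPt_iff_frequently_nhdsNE] at hacc
    exact hacc.mono fun w hw => hw.1
  have han : AnalyticOnNhd ℂ f {1}ᶜ := hf.analyticOnNhd isOpen_compl_singleton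
  have hpre : IsPreconnected ({1}ᶜ : Set ℂ) :=
    (isConnected_compl_singleton_of_one_lt_rank (by simp [Complex.rank_real_complex]) 1).isPreconnected
  have h0 := han.eqOn_zero_of_preconnected_of_frequently_eq_zero hpre hz1 hfr
  obtain ⟨s, hs1, hs2⟩ := hne
  exact hs2 (h0 hs1)

lemma F_ne (P : ℂ[X]) (hP : P ≠ 0) (N : ℕ) (a : ℕ → ℂ) : ∃ s : ℂ, s ≠ 1 ∧ F P N a s ≠ 0 := by
  obtain ⟨l, a', hC⟩ := cls P hP N a
  obtain ⟨δ, h1, h2, h3, h4⟩ := uncond
  obtain ⟨c, hc, h5⟩ := h4 l _ _ hC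
  have hT : Tendsto (fun n : ℕ => (n : ℝ)) atTop atTop := tendsto_natCast_atTop_atTop
  have h6 := PA_neg_of hT hc (h5 _ hT) (b := 0) le_rfl
  obtain ⟨n, hn1, hn2⟩ := ((h6 1 1 1 one_pos).and (eventually_ge_atTop 1)).exists
  have hn0 : (0:ℝ) < n := by exact_mod_cast hn2
  have h7 := (hn1 ⟨0, n⟩ (by norm_num) (by norm_num) (by simp)).1
  refine ⟨⟨0, n⟩, ?_, ?_⟩
  · intro h
    have := congrArg Complex.re h
    simp at this
  · intro h
    exact h7 ((hC.eq _ hn0).1 h)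

lemma fin_F (P : ℂ[X]) (hP : P ≠ 0) (N : ℕ) (a : ℕ → ℂ) (X Y R : ℝ) (hY : Y < 1) :
    {s : ℂ | F P N a s = 0 ∧ -X ≤ s.re ∧ s.re ≤ Y ∧ |s.im| ≤ R}.Finite :=
  fin_cpt (F_diff P N a) (F_ne P hP N a) X Y R hY

lemma fin_zeta (X Y R : ℝ) (hY : Y < 1) :
    {s : ℂ | riemannZeta s = 0 ∧ -X ≤ s.re ∧ s.re ≤ Y ∧ |s.im| ≤ R}.Finite := by
  apply fin_cpt _ _ X Y R hY
  · intro s hs
    exact (differentiableAt_riemannZeta hs).differentiableWithinAt
  · exact ⟨2, by norm_num, riemannZeta_ne_zero_of_one_lt_re (by norm_num)⟩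

end Pool.Agent.Zk17.QS
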