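import Pool.Agent.Zk17.QS.H
import Pool.Agent.H313R3.TK.J

set_option autoImplicit false

/-!
# Quasi-Speiser: companions
-/

namespace Pool.Agent.Zk17.QS

open Complex Filter Topology Set Metric Polynomial

/-- zeros of `f` in the left half of the strip have companions among the zeros of `g` (positive heights) -/
def Comp (f g : ℂ → ℂ) : Prop := ∀ ε : ℝ, 0 < ε → ∃ H : ℝ, 0 < H ∧ ∀ ρ : ℂ, f ρ = 0 → 0 < ρ.re → ρ.re ≤ 1 / 2 - ε →
  H ≤ ρ.im → ∃ ρ' : ℂ, g ρ' = 0 ∧ 0 < ρ'.re ∧ ρ'.re ≤ ρ.re + ε ∧ |ρ'.im - ρ.im| ≤ H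

/-- the same for all heights -/
def CompA (f g : ℂ → ℂ) : Prop := ∀ ε : ℝ, 0 < ε → ∃ H : ℝ, 0 < H ∧ ∀ ρ : ℂ, f ρ = 0 → 0 < ρ.re → ρ.re ≤ 1 / 2 - ε →
  H ≤ |ρ.im| → ∃ ρ' : ℂ, g ρ' = 0 ∧ 0 < ρ'.re ∧ ρ'.re ≤ ρ.re + ε ∧ |ρ'.im - ρ.im| ≤ H

lemma comp_of {f g : ℂ → ℂ}
    (h1 : ∀ T : ℕ → ℝ, Tendsto T atTop atTop → ∀ δ : ℝ, 0 < δ → δ ≤ 1 / 2 → NZ T δ g → ∀ b : ℝ, b < δ →
      ∀ᶠ n in atTop, ∀ s : ℂ, 0 ≤ s.re → s.re ≤ b → |s.im - T n| ≤ 1 → f s ≠ 0)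
    (h2 : ∀ T : ℕ → ℝ, Tendsto T atTop atTop → ∀ X H : ℝ, ∀ᶠ n in atTop, ∀ s : ℂ, -X ≤ s.re → s.re ≤ 0 →
      |s.im - T n| ≤ H → g s ≠ 0) : Comp f g := by
  intro ε hε
  by_contra hcon
  push Not at hcon
  have h3 : ∀ n : ℕ, ∃ ρ : ℂ, f ρ = 0 ∧ 0 < ρ.re ∧ ρ.re ≤ 1 / 2 - ε ∧ (n : ℝ) + 1 ≤ ρ.im ∧
      ∀ ρ' : ℂ, g ρ' = 0 → 0 < ρ'.re → ρ'.re ≤ ρ.re + ε → (n : ℝ) + 1 < |ρ'.im - ρ.im| := fun n => by
    obtain ⟨ρ, a1, a2, a3, a4, a5⟩ := hcon ((n : ℝ) + 1) (by positivity)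
    exact ⟨ρ, a1, a2, a3, a4, a5⟩
  choose ρ hρ1 hρ2 hρ3 hρ4 hρ5 using h3
  obtain ⟨β, hβ, φ, hφ, hlim⟩ := (isCompact_Icc (a := (0:ℝ)) (b := 1 / 2 - ε)).tendsto_subseq
    (x := fun n => (ρ n).re) (fun n => ⟨(hρ2 n).le, hρ3 n⟩)
  have hφt := hφ.tendsto_atTop
  set T : ℕ → ℝ := fun n => (ρ (φ n)).im with hTdef
  have hT : Tendsto T atTop atTop := by
    have h4 : Tendsto (fun n : ℕ => ((φ n : ℕ) : ℝ)) atTop atTop := tendsto_natCast_atTop_atTop.comp hφt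
    apply tendsto_atTop_mono _ h4
    intro n
    have := hρ4 (φ n)
    simp only [hTdef]
    linarith
  have hclose : ∀ᶠ n in atTop, |(ρ (φ n)).re - β| < ε / 4 := by
    have := (Metric.tendsto_nhds.1 hlim) (ε / 4) (by positivity)
    filter_upwards [this] with n hn
    rwa [Real.dist_eq] at hn
  have hNZ : NZ T (β + ε / 2) g := by
    intro X H
    filter_upwards [h2 T hT X H, hclose, hφt.eventually_ge_atTop ⌈H⌉₊] with n a1 a2 a3 s s1 s2 s3 hs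
    rcases le_or_gt s.re 0 with hc | hc
    · exact a1 s s1 hc s3 hs
    · have a4 := (abs_lt.1 a2).1
      have a5 := hρ5 (φ n) s hs hc (by linarith)
      have a6 : H ≤ φ n := (Nat.le_ceil H).trans (by exact_mod_cast a3)
      simp only [hTdef] at s3
      linarith
  have h5 := h1 T hT (β + ε / 2) (by linarith [hβ.1]) (by linarith [hβ.2]) hNZ (β + ε / 4) (by linarith)
  obtain ⟨n, n1, n2⟩ := (h5.and hclose).exists
  refine n1 (ρ (φ n)) (hρ2 _).le ?_ (by simp [hTdef]) (hρ1 _)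
  linarith [(abs_lt.1 n2).2]

lemma PA_ne {T : ℕ → ℝ} {b : ℝ} {g : ℂ → ℂ} (h : PA T (fun _ => b) g) (X H : ℝ) : ∀ᶠ n in atTop, ∀ s : ℂ,
    -X ≤ s.re → s.re ≤ b → |s.im - T n| ≤ H → g s ≠ 0 := by
  filter_upwards [h 1 X H one_pos] with n hn s h1 h2 h3
  exact (hn s h1 h2 h3).1

lemma Cls.ne_iff {l : List ℂ} {A G : ℂ → ℂ} (hC : Cls l A G) {T : ℕ → ℝ} (hT : Tendsto T atTop atTop) (H : ℝ) :
    ∀ᶠ n in atTop, ∀ s : ℂ, |s.im - T n| ≤ H → (G s ≠ 0 ↔ opL l riemannZeta s + A s ≠ 0) := by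
  filter_upwards [ev_T hT (H + 1)] with n hn s hs
  have : 0 < s.im := by linarith [(im_win hs).1]
  rw [Ne, Ne, hC.eq s this]

lemma zeta_left {T : ℕ → ℝ} (hT : Tendsto T atTop atTop) : PA T (fun _ => 0) riemannZeta := by
  obtain ⟨δ, h1, h2, h3, h4⟩ := uncond
  apply PA_neg_of hT (c := 1 / 2) (δ := δ) (by norm_num) _ le_rfl
  exact (h3 T hT).mono (Eventually.of_forall fun n => by apply le_of_eq; ring)

lemma comp_zeta {l : List ℂ} {A G : ℂ → ℂ} (hC : Cls l A G) : Comp riemannZeta G := by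
  apply comp_of
  · intro T hT δ hδ0 hδ hNZ b hb
    have h1 : NZ T δ (fun s => opL l riemannZeta s + A s) := by
      intro X H
      filter_upwards [hNZ X H, hC.ne_iff hT H] with n a1 a2 s s1 s2 s3
      exact (a2 s s3).1 (a1 s s1 s2 s3)
    filter_upwards [PA_ne (bwd hC hT hδ0 hδ h1 b hb) 0 1] with n hn s s1 s2 s3
    exact hn s (by simpa using s1) s2 s3
  · intro T hT X H
    obtain ⟨δ, h1, h2, h3, h4⟩ := uncond
    obtain ⟨c, hc, h5⟩ := h4 l A G hC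
    filter_upwards [PA_ne (PA_neg_of hT hc (h5 T hT) le_rfl) X H, hC.ne_iff hT H] with n a1 a2 s s1 s2 s3
    exact (a2 s s3).2 (a1 s s1 s2 s3)

lemma comp_cls {l : List ℂ} {A G : ℂ → ℂ} (hC : Cls l A G) : Comp G riemannZeta := by
  apply comp_of
  · intro T hT δ hδ0 hδ hNZ b hb
    filter_upwards [PA_ne (fwd hC hT hδ hNZ b hb) 0 1, hC.ne_iff hT 1] with n hn a2 s s1 s2 s3
    exact (a2 s s3).2 (hn s (by simpa using s1) s2 s3)
  · intro T hT X H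
    exact PA_ne (zeta_left hT) X H

/-- all heights -/
lemma compA_of {f g f' g' : ℂ → ℂ} (h1 : Comp f g) (h2 : Comp f' g')
    (hf : ∀ s, f ((starRingEnd ℂ) s) = (starRingEnd ℂ) (f' s))
    (hg : ∀ s, g ((starRingEnd ℂ) s) = (starRingEnd ℂ) (g' s)) : CompA f g := by
  intro ε hε
  obtain ⟨H1, hH1, a1⟩ := h1 ε hε
  obtain ⟨H2, hH2, a2⟩ := h2 ε hε
  refine ⟨max H1 H2, lt_max_of_lt_left hH1, fun ρ h0 hr0 hr1 him => ?_⟩
  rcases le_or_gt 0 ρ.im with hc | hc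
  · rw [abs_of_nonneg hc] at him
    obtain ⟨ρ', b1, b2, b3, b4⟩ := a1 ρ h0 hr0 hr1 ((le_max_left _ _).trans him)
    exact ⟨ρ', b1, b2, b3, b4.trans (le_max_left _ _)⟩
  · rw [abs_of_neg hc] at him
    have e0 : f' ((starRingEnd ℂ) ρ) = 0 := by
      have := hf ((starRingEnd ℂ) ρ)
      rw [Complex.conj_conj, h0] at this
      have h := congrArg (starRingEnd ℂ) this
      rw [map_zero, Complex.conj_conj] at h
      exact h.symm
    obtain ⟨ρ', b1, b2, b3, b4⟩ := a2 ((starRingEnd ℂ) ρ) e0 (by simpa using hr0) (by simpa using hr1)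
      (by rw [Complex.conj_im]; exact (le_max_right _ _).trans him)
    refine ⟨(starRingEnd ℂ) ρ', ?_, by simpa using b2, by simpa using b3, ?_⟩
    · rw [hg, b1, map_zero]
    · rw [Complex.conj_im] at b4 ⊢
      have e : -ρ'.im - ρ.im = -(ρ'.im - -ρ.im) := by ring
      rw [e, abs_neg]
      exact b4.trans (le_max_right _ _)

theorem compA_zeta (P : ℂ[X]) (hP : P ≠ 0) (N : ℕ) (a : ℕ → ℂ) : CompA riemannZeta (F P N a) := by
  obtain ⟨l, a', hC⟩ := cls P hP N a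
  obtain ⟨l2, a2, hC2⟩ := cls (P.map (starRingEnd ℂ)) (map_conj_ne hP) N (fun n => (starRingEnd ℂ) (a n))
  exact compA_of (comp_zeta hC) (comp_zeta hC2) (fun s => riemannZeta_conj s) (fun s => F_conj P N a s)

theorem compA_F (P : ℂ[X]) (hP : P ≠ 0) (N : ℕ) (a : ℕ → ℂ) : CompA (F P N a) riemannZeta := by
  obtain ⟨l, a', hC⟩ := cls P hP N a
  obtain ⟨l2, a2, hC2⟩ := cls (P.map (starRingEnd ℂ)) (map_conj_ne hP) N (fun n => (starRingEnd ℂ) (a n))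
  exact compA_of (comp_cls hC) (comp_cls hC2) (fun s => F_conj P N a s) (fun s => riemannZeta_conj s)

/-- finiteness is transferred -/
lemma fin_of_comp {f g : ℂ → ℂ} (h : CompA f g)
    (hf : ∀ X Y R : ℝ, Y < 1 → {s : ℂ | f s = 0 ∧ -X ≤ s.re ∧ s.re ≤ Y ∧ |s.im| ≤ R}.Finite) {δ : ℝ} (hδ : δ ≤ 1 / 2)
    (hg : ∀ δ' : ℝ, δ' < δ → {s : ℂ | g s = 0 ∧ 0 < s.re ∧ s.re ≤ δ'}.Finite) :
    ∀ δ' : ℝ, δ' < δ → {s : ℂ | f s = 0 ∧ 0 < s.re ∧ s.re ≤ δ'}.Finite := by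
  intro δ' hδ'
  set ε : ℝ := (δ - δ') / 2 with hε
  have hεp : 0 < ε := by rw [hε]; linarith
  obtain ⟨H, hH, h1⟩ := h ε hεp
  have h2 := hg (δ' + ε) (by rw [hε]; linarith)
  obtain ⟨B, hB⟩ := (h2.image (fun s : ℂ => |s.im|)).bddAbove
  refine (hf 0 δ' (max H (B + H)) (by linarith)).subset ?_
  rintro ρ ⟨h0, hr0, hr1⟩
  refine ⟨h0, by linarith, hr1, ?_⟩
  by_contra hc
  push Not at hc
  have hc1 : H < |ρ.im| := lt_of_le_of_lt (le_max_left _ _) hc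
  have hc2 : B + H < |ρ.im| := lt_of_le_of_lt (le_max_right _ _) hc
  obtain ⟨ρ', b1, b2, b3, b4⟩ := h1 ρ h0 hr0 (by rw [hε]; linarith) hc1.le
  have h3 : |ρ'.im| ≤ B := hB ⟨ρ', ⟨b1, b2, by linarith⟩, rfl⟩
  have h4 : |ρ.im| ≤ |ρ'.im| + |ρ'.im - ρ.im| := by
    have := abs_sub_abs_le_abs_sub ρ.im ρ'.im
    rw [abs_sub_comm] at this
    linarith
  linarith

/-- exact widths -/
theorem width (P : ℂ[X]) (hP : P ≠ 0) (N : ℕ) (a : ℕ → ℂ) (δ : ℝ) (hδ : δ ≤ 1 / 2) :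
    (∀ δ' : ℝ, δ' < δ → {s : ℂ | riemannZeta s = 0 ∧ 0 < s.re ∧ s.re ≤ δ'}.Finite) ↔
    ∀ δ' : ℝ, δ' < δ → {s : ℂ | F P N a s = 0 ∧ 0 < s.re ∧ s.re ≤ δ'}.Finite :=
  ⟨fin_of_comp (compA_F P hP N a) (fun X Y R hY => fin_F P hP N a X Y R hY) hδ,
    fin_of_comp (compA_zeta P hP N a) (fun X Y R hY => fin_zeta X Y R hY) hδ⟩

lemma fin_gap {S : Set ℂ} (h : S.Finite) (hp : ∀ s ∈ S, 0 < s.re) : ∃ δ : ℝ, 0 < δ ∧ ∀ s ∈ S, δ ≤ s.re := by
  by_cases hne : S.Nonempty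
  · obtain ⟨s, hs, hmin⟩ := h.exists_minimalFor (fun s : ℂ => s.re) S hne
    refine ⟨s.re, hp s hs, fun t ht => ?_⟩
    rcases le_total s.re t.re with hc | hc
    · exact hc
    · exact hmin ht hc
  · rw [Set.not_nonempty_iff_eq_empty] at hne
    exact ⟨1, one_pos, fun s hs => by rw [hne] at hs; exact absurd hs (Set.notMem_empty s)⟩

/-- zero-free half-planes -/
theorem half_plane (P : ℂ[X]) (hP : P ≠ 0) (N : ℕ) (a : ℕ → ℂ) :
    (∃ σ₀ : ℝ, 1 / 2 < σ₀ ∧ σ₀ < 1 ∧ ∀ s : ℂ, σ₀ ≤ s.re → riemannZeta s ≠ 0) ↔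
    ∃ δ : ℝ, 0 < δ ∧ ∀ s : ℂ, 0 < s.re → s.re < δ → F P N a s ≠ 0 := by
  constructor
  · rintro ⟨σ, h1, h2, h3⟩
    have h4 : ∀ δ' : ℝ, δ' < 1 - σ → {s : ℂ | riemannZeta s = 0 ∧ 0 < s.re ∧ s.re ≤ δ'}.Finite := by
      intro δ' hδ'
      have : {s : ℂ | riemannZeta s = 0 ∧ 0 < s.re ∧ s.re ≤ δ'} = ∅ := by
        apply Set.eq_empty_of_forall_notMem
        rintro s ⟨a1, a2, a3⟩
        apply h3 (1 - s) (by rw [Complex.sub_re, Complex.one_re]; linarith)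
        exact H313.TK.refl_zero s a1 a2 (by linarith)
      rw [this]
      exact Set.finite_empty
    have h5 := (width P hP N a (1 - σ) (by linarith)).1 h4 ((1 - σ) / 2) (by linarith)
    obtain ⟨δ, hδ, h6⟩ := fin_gap h5 (fun s hs => hs.2.1)
    refine ⟨min δ ((1 - σ) / 2), lt_min hδ (by linarith), fun s s1 s2 s3 => ?_⟩
    have := h6 s ⟨s3, s1, (s2.trans_le (min_le_right _ _)).le⟩
    linarith [s2.trans_le (min_le_left δ ((1 - σ) / 2))]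
  · rintro ⟨δ, h1, h2⟩
    have h3 : ∀ δ' : ℝ, δ' < min δ (1 / 2) → {s : ℂ | F P N a s = 0 ∧ 0 < s.re ∧ s.re ≤ δ'}.Finite := by
      intro δ' hδ'
      have : {s : ℂ | F P N a s = 0 ∧ 0 < s.re ∧ s.re ≤ δ'} = ∅ := by
        apply Set.eq_empty_of_forall_notMem
        rintro s ⟨a1, a2, a3⟩
        exact h2 s a2 (by linarith [min_le_left δ (1 / 2)]) a1
      rw [this]
      exact Set.finite_empty
    have hm : 0 < min δ (1 / 2) := lt_min h1 (by norm_num)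
    have hm2 : min δ (1 / 2) ≤ 1 / 2 := min_le_right _ _
    have h4 := (width P hP N a (min δ (1 / 2)) hm2).2 h3 (min δ (1 / 2) / 2) (by linarith)
    obtain ⟨e, he, h6⟩ := fin_gap h4 (fun s hs => hs.2.1)
    set e' : ℝ := min e (min δ (1 / 2) / 2) with he'
    have he'p : 0 < e' := lt_min he (by linarith)
    have he'1 : e' ≤ 1 / 4 := (min_le_right _ _).trans (by linarith)
    refine ⟨1 - e' / 2, by linarith, by linarith, fun s hs h0 => ?_⟩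
    have hs1 : s.re < 1 := by
      by_contra hc
      push Not at hc
      exact riemannZeta_ne_zero_of_one_le_re hc h0
    have h7 := H313.TK.refl_zero s h0 (by linarith) hs1
    have h8 : e ≤ (1 - s).re := h6 (1 - s) ⟨h7, by rw [Complex.sub_re, Complex.one_re]; linarith, by
      rw [Complex.sub_re, Complex.one_re]
      have : e' ≤ min δ (1 / 2) / 2 := min_le_right _ _
      linarith⟩
    rw [Complex.sub_re, Complex.one_re] at h8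
    have : e' ≤ e := min_le_left _ _
    linarith

end Pool.Agent.Zk17.QS
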