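import Pool.Agent.Zk17.QS.I

set_option autoImplicit false

/-!
# Quasi-Speiser: the Dirichlet series, and zeros near the critical line
-/

namespace Pool.Agent.Zk17.QS

open Complex Filter Topology Set Metric Polynomial

/-- the coefficients -/
noncomputable def bc (P : ℂ[X]) (N : ℕ) (a : ℕ → ℂ) (n : ℕ) : ℂ :=
  P.eval ((Real.log n : ℝ) : ℂ) + if n ≤ N then a n else 0

lemma logMul_iter (j n : ℕ) (f : ℕ → ℂ) : LSeries.logMul^[j] f n = (Complex.log n) ^ j * f n := by
  induction j with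
  | zero => simp
  | succ j ih =>
    rw [Function.iterate_succ_apply']
    unfold LSeries.logMul at ih ⊢
    rw [ih]
    ring

lemma hasSum_iter (j : ℕ) {s : ℂ} (hs : 1 < s.re) :
    HasSum (fun n : ℕ => (-1) ^ j * (((Real.log ((n + 1 : ℕ) : ℝ) : ℝ) : ℂ) ^ j * (((n + 1 : ℕ) : ℂ)) ^ (-s)))
      (iteratedDeriv j riemannZeta s) := by
  have habs : LSeries.abscissaOfAbsConv (1 : ℕ → ℂ) < s.re := by
    rw [LSeries.abscissaOfAbsConv_one]
    exact_mod_cast hs
  have hU : IsOpen {s : ℂ | 1 < s.re} := isOpen_lt continuous_const Complex.continuous_re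
  have hE : EqOn riemannZeta (LSeries (1 : ℕ → ℂ)) {s : ℂ | 1 < s.re} := fun s hs =>
    (LSeries_one_eq_riemannZeta hs).symm
  have h1 : iteratedDeriv j riemannZeta s = (-1) ^ j * LSeries (LSeries.logMul^[j] 1) s := by
    rw [← LSeries_iteratedDeriv j habs]
    exact hE.iteratedDeriv_of_isOpen hU j hs
  have hsm : LSeriesSummable (LSeries.logMul^[j] 1) s :=
    LSeriesSummable_of_abscissaOfAbsConv_lt_re (by rwa [LSeries.absicssaOfAbsConv_logPowMul])
  have h2 := (hsm.LSeriesHasSum).mul_left ((-1 : ℂ) ^ j)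
  rw [← h1] at h2
  have h3 := (hasSum_nat_add_iff' 1).2 h2
  simp only [Finset.sum_range_one, LSeries.term_zero, mul_zero, sub_zero] at h3
  refine Pool.Agent.H24R2.JP.B1h.hcongr h3 fun n => ?_
  congr 1
  rw [LSeries.term_of_ne_zero (by omega), logMul_iter, Complex.cpow_neg, Complex.ofReal_log (by positivity)]
  simp only [Pi.one_apply, mul_one, Complex.ofReal_natCast]
  rw [div_eq_mul_inv]

/-- `F` is the analytic continuation of the Dirichlet series -/
theorem hasSum_F (P : ℂ[X]) (N : ℕ) (a : ℕ → ℂ) {s : ℂ} (hs : 1 < s.re) :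
    HasSum (fun n : ℕ => bc P N a (n + 1) * (((n + 1 : ℕ) : ℂ)) ^ (-s)) (F P N a s) := by
  have h1 : HasSum (fun n : ℕ => ∑ j ∈ Finset.range (P.natDegree + 1), ((-1) ^ j * P.coeff j) *
      ((-1) ^ j * (((Real.log ((n + 1 : ℕ) : ℝ) : ℝ) : ℂ) ^ j * (((n + 1 : ℕ) : ℂ)) ^ (-s))))
      (∑ j ∈ Finset.range (P.natDegree + 1), ((-1) ^ j * P.coeff j) * iteratedDeriv j riemannZeta s) :=
    hasSum_sum fun j _ => (hasSum_iter j hs).mul_left _
  have h2 : HasSum (fun n : ℕ => if n + 1 ≤ N then a (n + 1) * (((n + 1 : ℕ) : ℂ)) ^ (-s) else 0)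
      (∑ n ∈ Finset.Icc 1 N, a n * (n : ℂ) ^ (-s)) := by
    have e : ∑ n ∈ Finset.Icc 1 N, a n * (n : ℂ) ^ (-s) = ∑ n ∈ Finset.range N,
        (if n + 1 ≤ N then a (n + 1) * (((n + 1 : ℕ) : ℂ)) ^ (-s) else 0) := by
      have e1 : Finset.Icc 1 N = (Finset.range N).image (fun n => n + 1) := by
        ext x
        simp only [Finset.mem_Icc, Finset.mem_image, Finset.mem_range]
        constructor
        · intro h
          exact ⟨x - 1, by omega, by omega⟩
        · rintro ⟨y, hy, rfl⟩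
          omega
      rw [e1, Finset.sum_image (by intro x _ y _ h; simpa using h)]
      refine Finset.sum_congr rfl fun n hn => ?_
      rw [if_pos (by have := Finset.mem_range.1 hn; omega)]
    rw [e]
    apply hasSum_sum_of_ne_finset_zero
    intro n hn
    rw [if_neg]
    intro h
    exact hn (Finset.mem_range.2 (by omega))
  have h3 := h1.add h2
  unfold F
  convert h3 using 1
  funext n
  unfold bc
  rw [add_mul]
  congr 1
  · rw [eval_eq_sum_range, Finset.sum_mul]
    refine Finset.sum_congr rfl fun j _ => ?_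
    have : ((-1 : ℂ) ^ j) * (-1) ^ j = 1 := by
      rw [← mul_pow]; norm_num
    calc P.coeff j * ((Real.log ((n + 1 : ℕ) : ℝ) : ℝ) : ℂ) ^ j * ((n + 1 : ℕ) : ℂ) ^ (-s)
        = (((-1 : ℂ) ^ j) * (-1) ^ j) * (P.coeff j * ((Real.log ((n + 1 : ℕ) : ℝ) : ℝ) : ℂ) ^ j * ((n + 1 : ℕ) : ℂ) ^ (-s)) := by
          rw [this, one_mul]
      _ = _ := by ring
  · split_ifs with h
    · rfl
    · rw [zero_mul]

lemma F_analytic (P : ℂ[X]) (N : ℕ) (a : ℕ → ℂ) : AnalyticOnNhd ℂ (F P N a) {1}ᶜ :=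
  (F_diff P N a).analyticOnNhd isOpen_compl_singleton

lemma compl_pre : IsPreconnected ({1}ᶜ : Set ℂ) :=
  (isConnected_compl_singleton_of_one_lt_rank (by simp [Complex.rank_real_complex]) 1).isPreconnected

lemma exists_coeff (P : ℂ[X]) (hP : P ≠ 0) (N : ℕ) (a : ℕ → ℂ) : ∃ n : ℕ, bc P N a (n + 1) ≠ 0 := by
  by_contra h
  push Not at h
  obtain ⟨s, hs1, hs2⟩ := F_ne P hP N a
  apply hs2
  have hz : ∀ z : ℂ, 1 < z.re → F P N a z = 0 := by
    intro z hz
    have h1 := hasSum_F P N a hz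
    simp only [h, zero_mul] at h1
    exact h1.unique hasSum_zero
  have h2 : F P N a =ᶠ[𝓝 2] 0 := by
    have : {s : ℂ | 1 < s.re} ∈ 𝓝 (2 : ℂ) :=
      (isOpen_lt continuous_const Complex.continuous_re).mem_nhds (by norm_num)
    filter_upwards [this] with z hz'
    exact hz z hz'
  exact (F_analytic P N a).eqOn_zero_of_preconnected_of_eventuallyEq_zero compl_pre (by norm_num : (2:ℂ) ∈ ({1}ᶜ : Set ℂ)) h2 hs1

/-- far to the right `F` is bounded below -/
lemma low_right (P : ℂ[X]) (hP : P ≠ 0) (N : ℕ) (a : ℕ → ℂ) : ∃ σ c : ℝ, 2 ≤ σ ∧ 0 < c ∧ ∀ s : ℂ, s.re = σ →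
    c ≤ ‖F P N a s‖ := by
  classical
  obtain ⟨m, hm, hmin⟩ : ∃ m : ℕ, bc P N a (m + 1) ≠ 0 ∧ ∀ n < m, bc P N a (n + 1) = 0 := by
    refine ⟨Nat.find (exists_coeff P hP N a), Nat.find_spec (exists_coeff P hP N a), fun n hn => ?_⟩
    by_contra h
    exact Nat.find_min (exists_coeff P hP N a) hn h
  set b : ℕ → ℂ := fun n => bc P N a (n + 1) with hb
  set w : ℝ → ℕ → ℝ := fun σ n => if n ≤ m then 0 else ‖b n‖ * (((m : ℝ) + 1) / (n + 1)) ^ σ with hw
  have hsum2 : Summable fun n : ℕ => ‖b n‖ * (((m : ℝ) + 1) / (n + 1)) ^ (2:ℝ) := by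
    have h1 := (hasSum_F P N a (s := 2) (by norm_num)).summable.norm.mul_right (((m : ℝ) + 1) ^ (2:ℝ))
    refine h1.congr fun n => ?_
    rw [norm_mul, Complex.norm_natCast_cpow_of_pos (by omega), Real.div_rpow (by positivity) (by positivity)]
    have : (-(2:ℂ)).re = -2 := by simp
    rw [this, Real.rpow_neg (by positivity)]
    push_cast
    rw [div_eq_mul_inv]
    ring
  have hlim : Tendsto (fun σ : ℝ => ∑' n, w σ n) atTop (𝓝 (∑' n : ℕ, (0:ℝ))) := by
    apply tendsto_tsum_of_dominated_convergence hsum2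
    · intro n
      by_cases hn : n ≤ m
      · simp only [hw, if_pos hn]
        exact tendsto_const_nhds
      · simp only [hw, if_neg hn]
        rw [← mul_zero ‖b n‖]
        apply Tendsto.const_mul
        push Not at hn
        apply tendsto_rpow_atTop_of_base_lt_one
        · have : (0:ℝ) < ((m : ℝ) + 1) / (n + 1) := by positivity
          linarith
        · rw [div_lt_one (by positivity)]
          have : (m : ℝ) < n := by exact_mod_cast hn
          linarith
    · filter_upwards [eventually_ge_atTop 2] with σ hσ n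
      by_cases hn : n ≤ m
      · simp only [hw, if_pos hn, norm_zero]
        positivity
      · simp only [hw, if_neg hn]
        rw [Real.norm_of_nonneg (by positivity)]
        apply mul_le_mul_of_nonneg_left _ (norm_nonneg _)
        apply Real.rpow_le_rpow_of_exponent_ge (by positivity) _ hσ
        rw [div_le_one (by positivity)]
        push Not at hn
        have : (m : ℝ) < n := by exact_mod_cast hn
        linarith
  rw [tsum_zero] at hlim
  have hbm : 0 < ‖b m‖ := norm_pos_iff.2 hm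
  have hev := (hlim.eventually (gt_mem_nhds (by positivity : (0:ℝ) < ‖b m‖ / 2))).and (eventually_ge_atTop 2)
  obtain ⟨σ, h1, h2⟩ := hev.exists
  refine ⟨σ, ‖b m‖ / 2 * ((m : ℝ) + 1) ^ (-σ), h2, by positivity, fun s hs => ?_⟩
  have hs1 : 1 < s.re := by rw [hs]; linarith
  have h3 := (hasSum_F P N a hs1).mul_right (((m + 1 : ℕ) : ℂ) ^ s)
  have hne : ((m + 1 : ℕ) : ℂ) ≠ 0 := by exact_mod_cast (by omega : m + 1 ≠ 0)
  have h4 := hasSum_ite_sub_hasSum h3 m
  have e0 : bc P N a (m + 1) * ((m + 1 : ℕ) : ℂ) ^ (-s) * ((m + 1 : ℕ) : ℂ) ^ s = b m := by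
    rw [mul_assoc, ← Complex.cpow_add _ _ hne]
    simp [hb]
  have h5 : ‖F P N a s * ((m + 1 : ℕ) : ℂ) ^ s - b m‖ ≤ ∑' n, w σ n := by
    rw [e0] at h4
    have hterm : ∀ n, ‖(if n = m then 0 else bc P N a (n + 1) * ((n + 1 : ℕ) : ℂ) ^ (-s) * ((m + 1 : ℕ) : ℂ) ^ s)‖ ≤ w σ n := by
      intro n
      by_cases hn : n = m
      · rw [if_pos hn, norm_zero, hn]
        simp [hw]
      · rw [if_neg hn]
        rcases lt_or_gt_of_ne hn with hn' | hn'
        · rw [hmin n hn']
          simp only [zero_mul, norm_zero, hw, if_pos hn'.le, le_refl]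
        · simp only [hw, if_neg (by omega : ¬ n ≤ m)]
          rw [norm_mul, norm_mul, Complex.norm_natCast_cpow_of_pos (by omega), Complex.norm_natCast_cpow_of_pos (by omega),
            Complex.neg_re, hs, Real.div_rpow (by positivity) (by positivity), Real.rpow_neg (by positivity)]
          push_cast
          rw [div_eq_mul_inv]
          apply le_of_eq
          ring
    have hsw : Summable (w σ) := by
      refine Summable.of_nonneg_of_le (fun n => ?_) (fun n => ?_) hsum2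
      · exact (norm_nonneg _).trans (hterm n)
      · by_cases hn : n ≤ m
        · simp only [hw, if_pos hn]
          positivity
        · simp only [hw, if_neg hn]
          apply mul_le_mul_of_nonneg_left _ (norm_nonneg _)
          apply Real.rpow_le_rpow_of_exponent_ge (by positivity) _ h2
          rw [div_le_one (by positivity)]
          push Not at hn
          have : (m : ℝ) < n := by exact_mod_cast hn
          linarith
    rw [← h4.tsum_eq]
    exact tsum_of_norm_bounded hsw.hasSum hterm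
  have h6 : ‖b m‖ / 2 ≤ ‖F P N a s * ((m + 1 : ℕ) : ℂ) ^ s‖ := by
    have h7 : ‖b m‖ ≤ ‖F P N a s * ((m + 1 : ℕ) : ℂ) ^ s‖ + ‖F P N a s * ((m + 1 : ℕ) : ℂ) ^ s - b m‖ := by
      calc ‖b m‖ = ‖F P N a s * ((m + 1 : ℕ) : ℂ) ^ s - (F P N a s * ((m + 1 : ℕ) : ℂ) ^ s - b m)‖ := by ring_nf
        _ ≤ _ := norm_sub_le _ _
    linarith
  rw [norm_mul, Complex.norm_natCast_cpow_of_pos (by omega), hs] at h6
  push_cast at h6
  calc ‖b m‖ / 2 * ((m : ℝ) + 1) ^ (-σ) ≤ (‖F P N a s‖ * ((m : ℝ) + 1) ^ σ) * ((m : ℝ) + 1) ^ (-σ) := by gcongr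
    _ = ‖F P N a s‖ := by
      rw [mul_assoc, ← Real.rpow_add (by positivity)]
      simp

end Pool.Agent.Zk17.QS
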