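import Pool.Agent.Zk17.QS.J

set_option autoImplicit false

/-!
# Quasi-Speiser: zeros near the critical line; the unconditional region
-/

namespace Pool.Agent.Zk17.QS

open Complex Filter Topology Set Metric Polynomial

/-- zeros near the critical line -/
theorem near_half (P : ℂ[X]) (hP : P ≠ 0) (N : ℕ) (a : ℕ → ℂ) {ε : ℝ} (hε : 0 < ε) (hε1 : ε ≤ 1 / 2) :
    ¬ {s : ℂ | F P N a s = 0 ∧ 0 < s.re ∧ s.re ≤ 1 / 2 + ε}.Finite := by
  intro hfin
  obtain ⟨B, hB⟩ := (hfin.image (fun s : ℂ => s.im)).bddAbove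
  obtain ⟨l, a', hC⟩ := cls P hP N a
  obtain ⟨c0, hc0, hFG⟩ := hC.eq'
  obtain ⟨δ, h1, h2, h3, h4⟩ := uncond
  obtain ⟨c, hc, h5⟩ := h4 l _ _ hC
  set T : ℕ → ℝ := fun n => (n : ℝ) with hTdef
  have hT : Tendsto T atTop atTop := tendsto_natCast_atTop_atTop
  set G : ℂ → ℂ := fun s => opL l riemannZeta s + DP N a' s with hG
  have hGan : An G := (zeta_An.opL l).add hC.an
  have hGr : Gr T G := Gr.add hT ((zeta_Gr hT).opL hT zeta_An l) (hC.sm hT).Gr
  have h0 : ∀ b : ℝ, b ≤ 0 → PA T (fun _ => b) G := fun b hb => PA_neg_of hT hc (h5 T hT) hb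
  have hNZ : NZ T (1 / 2 + ε) G := by
    intro X H
    filter_upwards [PA_ne (h0 0 le_rfl) X H, hC.ne_iff hT H, ev_T hT (B + H + 1)] with n a1 a2 a3 s s1 s2 s3
    rcases le_or_gt s.re 0 with hs | hs
    · exact a1 s s1 hs s3
    · apply (a2 s s3).1
      intro hF
      have := hB ⟨s, ⟨hF, hs, s2.le⟩, rfl⟩
      linarith [(im_win s3).1]
  have hPA := PA.of_free hT hGan hGr (h0 _ (by norm_num)) (by linarith) (by linarith : 1 / 2 + ε / 2 < 1 / 2 + ε) hNZ
  obtain ⟨σ, cF, hσ, hcF, hlow⟩ := low_right P hP N a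
  set α : ℝ := 1 / 2 + ε / 2 with hα
  set μ : ℝ := 1 / (σ + 1 - α) with hμ
  have hden : 1 < σ + 1 - α := by rw [hα]; linarith
  have hμ0 : 0 < μ := by rw [hμ]; positivity
  set e : ℝ := 3 * ε / 8 * μ / 4 with he
  have hep : 0 < e := by rw [he]; positivity
  obtain ⟨K, hK⟩ := hGr (σ + 1)
  obtain ⟨H1, hH1, hthree⟩ := three_loc (α := α) (b := σ + 1) (p := -(3 * ε / 8)) (q := e) (K := K) (ε := e)
    (by linarith) hep
  have hRt : Rt T G := by
    intro ε' η X H hε' hη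
    filter_upwards [((zeta_Rt hT).opL hT zeta_An l) (ε' / 2) η X H (by positivity) hη,
      hC.sm hT (ε' / 2) (|X| + 1) H (by positivity), ev_log hT (2 / ε'), ev_log hT 0] with n a1 a2 a3 a4 s s1 s2 s3
    set L := Real.log (T n)
    have e1 : 2 ≤ Real.exp (ε' / 2 * L) := by
      rw [div_le_iff₀ hε'] at a3
      have := Real.add_one_le_exp (ε' / 2 * L)
      linarith
    have hX : |s.re| ≤ |X| + 1 := by
      rw [abs_le]
      have := le_abs_self X
      have := abs_nonneg X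
      constructor <;> linarith
    calc ‖G s‖ ≤ ‖opL l riemannZeta s‖ + ‖DP N a' s‖ := norm_add_le _ _
      _ ≤ Real.exp (ε' / 2 * L) + Real.exp (ε' / 2 * L) := add_le_add (a1 s s1 s2 s3) (a2 s hX s3)
      _ = 2 * Real.exp (ε' / 2 * L) := by ring
      _ ≤ Real.exp (ε' / 2 * L) * Real.exp (ε' / 2 * L) := by gcongr
      _ = _ := by rw [← Real.exp_add]; ring_nf
  have hlast : Tendsto (fun n => ‖c0‖ * Real.exp (-(3 * ε / 16 * μ * Real.log (T n)))) atTop (𝓝 (‖c0‖ * 0)) := by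
    apply Tendsto.const_mul
    have h6 : Tendsto (fun n => 3 * ε / 16 * μ * Real.log (T n)) atTop atTop :=
      (Real.tendsto_log_atTop.comp hT).const_mul_atTop (by positivity)
    exact Real.tendsto_exp_neg_atTop_nhds_zero.comp h6
  rw [mul_zero] at hlast
  have hev : ∀ᶠ n : ℕ in atTop, False := by
    filter_upwards [hPA (ε / 8) 1 H1 (by positivity), hK H1, hRt e 1 (σ + 1) H1 hep one_pos, ev_log hT 1,
      ev_T hT (H1 + 1), hlast.eventually (gt_mem_nhds hcF)] with n a1 a2 a3 a4 a5 a6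
    set L := Real.log (T n) with hL
    have hLp : 0 < L := by linarith
    have hup := hthree L G σ (T n) a4 (by linarith) (by linarith)
      (fun s s1 s2 s3 => by
        refine ⟨hGan.at (by linarith [(im_win s3).1]), a2 s ?_ s3⟩
        rw [abs_le]
        constructor <;> linarith)
      (fun s s1 s3 => by
        refine (a1 s (by rw [s1, hα]; linarith) (by rw [s1]) s3).2.2.2.trans ?_
        apply Real.exp_le_exp.2
        rw [s1, hα]
        apply le_of_eq
        ring)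
      (fun s s1 s3 => a3 s (by rw [s1]; linarith) (by rw [s1]) s3)
    have hexp : -(3 * ε / 8) + (e - -(3 * ε / 8)) * ((σ - α) / (σ + 1 - α)) + e ≤ -(3 * ε / 16 * μ) := by
      have e1 : (σ - α) / (σ + 1 - α) = 1 - μ := by
        rw [hμ]
        have : σ + 1 - α ≠ 0 := by linarith
        field_simp
        ring
      rw [e1]
      have e2 : e * (1 - μ) ≤ e := by nlinarith
      have e3 : 4 * e = 3 * ε / 8 * μ := by rw [he]; ring
      nlinarith
    have hup2 : ‖G ⟨σ, T n⟩‖ ≤ Real.exp (-(3 * ε / 16 * μ * L)) := by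
      refine hup.trans ?_
      apply Real.exp_le_exp.2
      have := mul_le_mul_of_nonneg_right hexp hLp.le
      linarith
    have h7 := hlow ⟨σ, T n⟩ rfl
    have hTn : 0 < T n := by linarith
    rw [hFG ⟨σ, T n⟩ hTn, norm_mul] at h7
    have h8 : cF ≤ ‖c0‖ * Real.exp (-(3 * ε / 16 * μ * L)) := h7.trans (by gcongr)
    linarith
  obtain ⟨n, hn⟩ := hev.exists
  exact hn

lemma F_one (s : ℂ) : F 1 0 0 s = riemannZeta s := by
  unfold F
  simp

/-- infinitely many zeros of zeta with `Re s ≤ 1/2` -/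
theorem zeta_inf : ¬ {s : ℂ | riemannZeta s = 0 ∧ 0 < s.re ∧ s.re ≤ 1 / 2}.Finite := by
  intro hfin
  have h1 := near_half 1 one_ne_zero 0 0 (ε := 1 / 4) (by norm_num) (by norm_num)
  apply h1
  have h2 : (((fun s : ℂ => 1 - s) ⁻¹' {s : ℂ | riemannZeta s = 0 ∧ 0 < s.re ∧ s.re ≤ 1 / 2})).Finite :=
    hfin.preimage (fun x _ y _ h => by simpa using h)
  refine (hfin.union h2).subset ?_
  rintro s ⟨a1, a2, a3⟩
  rw [F_one] at a1
  rcases le_or_gt s.re (1 / 2) with hs | hs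
  · exact Or.inl ⟨a1, a2, hs⟩
  · right
    refine ⟨H313.TK.refl_zero s a1 a2 (by linarith), ?_, ?_⟩
    · rw [Complex.sub_re, Complex.one_re]; linarith
    · rw [Complex.sub_re, Complex.one_re]; linarith

/-- exact widths, all `δ ≤ 1` -/
theorem width_all (P : ℂ[X]) (hP : P ≠ 0) (N : ℕ) (a : ℕ → ℂ) (δ : ℝ) (hδ : δ ≤ 1) :
    (∀ δ' : ℝ, δ' < δ → {s : ℂ | riemannZeta s = 0 ∧ 0 < s.re ∧ s.re ≤ δ'}.Finite) ↔
    ∀ δ' : ℝ, δ' < δ → {s : ℂ | F P N a s = 0 ∧ 0 < s.re ∧ s.re ≤ δ'}.Finite := by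
  rcases le_or_gt δ (1 / 2) with h | h
  · exact width P hP N a δ h
  · constructor
    · intro h1
      exfalso
      apply zeta_inf
      exact h1 (1 / 2) h
    · intro h1
      exfalso
      apply near_half P hP N a (ε := (δ - 1 / 2) / 2) (by linarith) (by linarith)
      exact h1 _ (by linarith)

/-- the unconditional region, upper half -/
lemma region_up {δ : ℝ} (h1 : 0 < δ) (h2 : δ < 1) (h4 : ∀ (l : List ℂ) (A G : ℂ → ℂ), Cls l A G → ∃ c : ℝ, 0 < c ∧ ∀ T : ℕ → ℝ, Tendsto T atTop atTop →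
    PA T (fun n => c * (Real.log (T n)) ^ (δ - 1)) (fun s => opL l riemannZeta s + A s))
    (P : ℂ[X]) (hP : P ≠ 0) (N : ℕ) (a : ℕ → ℂ) (X : ℝ) :
    {s : ℂ | (F P N a s = 0 ∧ -X ≤ s.re ∧ s.re ≤ (Real.log (|s.im| + 3)) ^ (δ / 2 - 1)) ∧ 0 ≤ s.im}.Finite := by
  by_contra hinf
  have hlog3 : 1 < Real.log 3 := by
    rw [Real.lt_log_iff_exp_lt (by norm_num)]
    have := Real.exp_one_lt_d9
    linarith
  have hY : (Real.log 3) ^ (δ / 2 - 1) < 1 := Real.rpow_lt_one_of_one_lt_of_neg hlog3 (by linarith)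
  have h3 : ∀ n : ℕ, ∃ s : ℂ, (F P N a s = 0 ∧ -X ≤ s.re ∧ s.re ≤ (Real.log (|s.im| + 3)) ^ (δ / 2 - 1)) ∧ 0 ≤ s.im ∧
      (n : ℝ) < s.im := by
    intro n
    by_contra hcon
    push Not at hcon
    apply hinf
    refine (fin_F P hP N a X ((Real.log 3) ^ (δ / 2 - 1)) n hY).subset ?_
    rintro s ⟨⟨b1, b2, b3⟩, b4⟩
    refine ⟨b1, b2, b3.trans ?_, ?_⟩
    · apply Real.rpow_le_rpow_of_nonpos (by linarith) _ (by linarith)
      apply Real.log_le_log (by norm_num)
      have := abs_nonneg s.im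
      linarith
    · rw [abs_of_nonneg b4]
      exact hcon s ⟨b1, b2, b3⟩ b4
  choose s hs1 hs2 hs3 using h3
  set T : ℕ → ℝ := fun n => (s n).im with hTdef
  have hT : Tendsto T atTop atTop := by
    apply tendsto_atTop_mono _ tendsto_natCast_atTop_atTop
    intro n
    exact (hs3 n).le
  obtain ⟨l, a', hC⟩ := cls P hP N a
  obtain ⟨c, hc, h5⟩ := h4 l _ _ hC
  have hsmall : ∀ᶠ n in atTop, (Real.log (T n)) ^ (-(δ / 2)) ≤ c := by
    have := (tendsto_rpow_neg_atTop (y := δ / 2) (by linarith)).comp (Real.tendsto_log_atTop.comp hT)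
    exact this.eventually (ge_mem_nhds hc)
  obtain ⟨n, n1, n2, n3, n4⟩ := ((h5 T hT 1 X 1 one_pos).and (hsmall.and ((ev_log hT 1).and (hC.ne_iff hT 1)))).exists
  obtain ⟨b1, b2, b3⟩ := hs1 n
  have hlogp : 0 < Real.log (T n) := by linarith
  have hTpos : 0 < T n := by
    by_contra h
    push Not at h
    have := Real.log_nonneg_iff (x := T n)
    have hT0 : 0 ≤ T n := hs2 n
    have : T n = 0 := le_antisymm h hT0
    rw [this, Real.log_zero] at hlogp
    exact lt_irrefl _ hlogp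
  have hre : (s n).re ≤ c * Real.log (T n) ^ (δ - 1) := by
    refine b3.trans ?_
    calc Real.log (|(s n).im| + 3) ^ (δ / 2 - 1) ≤ Real.log (T n) ^ (δ / 2 - 1) := by
          apply Real.rpow_le_rpow_of_nonpos hlogp _ (by linarith)
          apply Real.log_le_log hTpos
          rw [abs_of_nonneg (hs2 n)]
          simp only [hTdef]
          linarith
      _ = Real.log (T n) ^ (-(δ / 2)) * Real.log (T n) ^ (δ - 1) := by
          rw [← Real.rpow_add hlogp]
          congr 1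
          ring
      _ ≤ _ := by gcongr
  have hself : |(s n).im - T n| ≤ 1 := by simp [hTdef]
  have := (n1 (s n) b2 hre hself).1
  exact (n4 (s n) hself).2 this b1

/-- **the unconditional region** -/
theorem region : ∃ θ : ℝ, 0 < θ ∧ θ < 1 ∧ ∀ (P : ℂ[X]), P ≠ 0 → ∀ (N : ℕ) (a : ℕ → ℂ) (X : ℝ),
    {s : ℂ | F P N a s = 0 ∧ -X ≤ s.re ∧ s.re ≤ (Real.log (|s.im| + 3)) ^ (θ - 1)}.Finite := by
  obtain ⟨δ, h1, h2, h3, h4⟩ := uncond
  refine ⟨δ / 2, by linarith, by linarith, fun P hP N a X => ?_⟩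
  have hu := region_up h1 h2 h4 P hP N a X
  have hd := region_up h1 h2 h4 (P.map (starRingEnd ℂ)) (map_conj_ne hP) N (fun n => (starRingEnd ℂ) (a n)) X
  refine (hu.union (hd.image (starRingEnd ℂ))).subset ?_
  rintro s ⟨b1, b2, b3⟩
  rcases le_or_gt 0 s.im with hs | hs
  · exact Or.inl ⟨⟨b1, b2, b3⟩, hs⟩
  · right
    refine ⟨(starRingEnd ℂ) s, ⟨⟨?_, by simpa using b2, by simpa using b3⟩, by rw [Complex.conj_im]; linarith⟩, by simp⟩
    have := F_conj P N a ((starRingEnd ℂ) s)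
    rw [Complex.conj_conj, b1] at this
    have h := congrArg (starRingEnd ℂ) this
    rw [map_zero, Complex.conj_conj] at h
    exact h.symm

end Pool.Agent.Zk17.QS
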