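import Pool.Agent.Zk17.QS.K
import Pool.Agent.H370R2.Local

set_option autoImplicit false

/-!
# Quasi-Speiser: counting
-/

namespace Pool.Agent.Zk17.QS

open Complex Filter Topology Set Metric Polynomial

/-- number of zeros with multiplicity, `0 < Re ≤ α`, `|Im| ≤ T` -/
noncomputable def cnt (f : ℂ → ℂ) (α T : ℝ) : ℕ :=
  ∑ᶠ ρ ∈ {ρ : ℂ | f ρ = 0 ∧ 0 < ρ.re ∧ ρ.re ≤ α ∧ |ρ.im| ≤ T}, analyticOrderNatAt f ρ

/-- uniform bounds at positive heights -/
lemma unif_up (P : ℂ[X]) (hP : P ≠ 0) (N : ℕ) (a : ℕ → ℂ) : ∃ K t0 : ℝ, 0 < K ∧ 4 ≤ t0 ∧ ∀ t : ℝ, t0 ≤ t →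
    (∀ z : ℂ, |z.re| ≤ 5 → |z.im - t| ≤ 4 → ‖F P N a z‖ ≤ Real.exp (K * Real.log t)) ∧
    1 ≤ ‖F P N a ⟨-1, t⟩‖ := by
  by_contra hcon
  push Not at hcon
  have h1 : ∀ n : ℕ, ∃ t : ℝ, (n : ℝ) + 4 ≤ t ∧
      ((∀ z : ℂ, |z.re| ≤ 5 → |z.im - t| ≤ 4 → ‖F P N a z‖ ≤ Real.exp (((n : ℝ) + 1) * Real.log t)) →
      ‖F P N a ⟨-1, t⟩‖ < 1) := by
    intro n
    obtain ⟨t, ht1, ht2⟩ := hcon ((n : ℝ) + 1) ((n : ℝ) + 4) (by positivity) (by linarith [Nat.cast_nonneg (α := ℝ) n])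
    exact ⟨t, ht1, ht2⟩
  choose T hT1 hT2 using h1
  have hT : Tendsto T atTop atTop := by
    apply tendsto_atTop_mono _ tendsto_natCast_atTop_atTop
    intro n
    linarith [hT1 n]
  obtain ⟨l, a', hC⟩ := cls P hP N a
  obtain ⟨c0, hc0, hFG⟩ := hC.eq'
  obtain ⟨δ, _, _, _, h4⟩ := uncond
  obtain ⟨c, hc, h5⟩ := h4 l _ _ hC
  obtain ⟨K, hK⟩ := Gr.add hT ((zeta_Gr hT).opL hT zeta_An l) (hC.sm hT).Gr 5
  have hPA := PA_neg_of hT hc (h5 T hT) (b := -1) (by norm_num)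
  have hc0n : 0 < ‖c0‖ := norm_pos_iff.2 hc0
  obtain ⟨n, n1, n2, n3, n4, n5, n6⟩ := ((hK 4).and ((hPA 1 1 0 one_pos).and ((ev_log hT 1).and
    ((ev_log hT (‖c0‖ + 2 * ‖c0‖⁻¹)).and ((eventually_ge_atTop ⌈|K|⌉₊).and (ev_T hT 5)))))).exists
  set L := Real.log (T n) with hL
  have hexp := Real.add_one_le_exp (1 * L)
  rw [one_mul] at hexp
  have hinv : 0 < ‖c0‖⁻¹ := inv_pos.2 hc0n
  have hlow : 1 ≤ ‖F P N a ⟨-1, T n⟩‖ := by
    rw [hFG ⟨-1, T n⟩ (by show (0:ℝ) < T n; linarith), norm_mul]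
    have h6 := (n2 ⟨-1, T n⟩ (by norm_num) (by norm_num) (by simp)).2.2.1
    have h8 : ‖c0‖⁻¹ ≤ Real.exp ((1 / 2 - (-1) - 1) * L) := by
      have := Real.add_one_le_exp ((1 / 2 - (-1) - 1) * L)
      linarith
    calc (1:ℝ) = ‖c0‖ * ‖c0‖⁻¹ := (mul_inv_cancel₀ hc0n.ne').symm
      _ ≤ ‖c0‖ * ‖opL l riemannZeta ⟨-1, T n⟩ + DP N a' ⟨-1, T n⟩‖ := by
          gcongr
          exact h8.trans h6
  have hup : ∀ z : ℂ, |z.re| ≤ 5 → |z.im - T n| ≤ 4 → ‖F P N a z‖ ≤ Real.exp (((n : ℝ) + 1) * L) := by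
    intro z hz1 hz2
    rw [hFG z (by linarith [(im_win hz2).1]), norm_mul]
    have hKn : |K| ≤ n := (Nat.le_ceil _).trans (by exact_mod_cast n5)
    calc ‖c0‖ * ‖opL l riemannZeta z + DP N a' z‖ ≤ Real.exp L * Real.exp (K * L) := by
          gcongr
          · linarith
          · exact n1 z hz1 hz2
      _ = Real.exp (L + K * L) := by rw [← Real.exp_add]
      _ ≤ _ := by
          apply Real.exp_le_exp.2
          nlinarith [le_abs_self K]
  exact absurd hlow (not_le.2 (hT2 n hup))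

/-- uniform bounds at all large heights -/
lemma unif (P : ℂ[X]) (hP : P ≠ 0) (N : ℕ) (a : ℕ → ℂ) : ∃ K t0 : ℝ, 0 < K ∧ 4 ≤ t0 ∧ ∀ t : ℝ, t0 ≤ |t| →
    (∀ z : ℂ, |z.re| ≤ 5 → |z.im - t| ≤ 4 → ‖F P N a z‖ ≤ Real.exp (K * Real.log |t|)) ∧
    1 ≤ ‖F P N a ⟨-1, t⟩‖ := by
  obtain ⟨K1, t1, h1, h2, h3⟩ := unif_up P hP N a
  obtain ⟨K2, t2, h4, h5, h6⟩ := unif_up (P.map (starRingEnd ℂ)) (map_conj_ne hP) N (fun n => (starRingEnd ℂ) (a n))
  refine ⟨max K1 K2, max t1 t2, lt_max_of_lt_left h1, h2.trans (le_max_left _ _), fun t ht => ?_⟩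
  have hlog : 0 ≤ Real.log |t| := Real.log_nonneg (by linarith [h2.trans ((le_max_left t1 t2).trans ht)])
  have hnorm : ∀ z : ℂ, ‖F P N a z‖ = ‖F (P.map (starRingEnd ℂ)) N (fun n => (starRingEnd ℂ) (a n)) ((starRingEnd ℂ) z)‖ := by
    intro z
    have := F_conj P N a ((starRingEnd ℂ) z)
    rw [Complex.conj_conj] at this
    rw [this, Complex.norm_conj]
  rcases le_or_gt 0 t with hc | hc
  · rw [abs_of_nonneg hc] at ht hlog ⊢
    obtain ⟨a1, a2⟩ := h3 t ((le_max_left _ _).trans ht)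
    refine ⟨fun z z1 z2 => (a1 z z1 z2).trans (Real.exp_le_exp.2 ?_), a2⟩
    exact mul_le_mul_of_nonneg_right (le_max_left _ _) hlog
  · rw [abs_of_neg hc] at ht hlog ⊢
    obtain ⟨a1, a2⟩ := h6 (-t) ((le_max_right _ _).trans ht)
    refine ⟨fun z z1 z2 => ?_, ?_⟩
    · rw [hnorm]
      refine (a1 ((starRingEnd ℂ) z) (by simpa using z1) ?_).trans (Real.exp_le_exp.2 ?_)
      · rw [Complex.conj_im]
        have : -z.im - -t = -(z.im - t) := by ring
        rw [this, abs_neg]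
        exact z2
      · exact mul_le_mul_of_nonneg_right (le_max_right _ _) hlog
    · rw [hnorm]
      have : (starRingEnd ℂ) (⟨-1, t⟩ : ℂ) = ⟨-1, -t⟩ := by
        apply Complex.ext <;> simp
      rw [this]
      exact a2

/-- zeros in a window -/
lemma window (P : ℂ[X]) (hP : P ≠ 0) (N : ℕ) (a : ℕ → ℂ) : ∃ C t0 : ℝ, 0 < C ∧ 4 ≤ t0 ∧ ∀ t : ℝ, t0 ≤ |t| →
    ∀ S : Finset ℂ, (∀ ρ ∈ S, 0 < ρ.re ∧ ρ.re ≤ 1 / 2 ∧ |ρ.im - t| ≤ 1) →
    ∑ ρ ∈ S, (analyticOrderNatAt (F P N a) ρ : ℝ) ≤ C * Real.log |t| := by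
  obtain ⟨K, t0, hK, ht0, h⟩ := unif P hP N a
  have hl : 0 < Real.log (3 / 2) := Real.log_pos (by norm_num)
  refine ⟨K / Real.log (3 / 2), t0, by positivity, ht0, fun t ht S hS => ?_⟩
  obtain ⟨h1, h2⟩ := h t ht
  have hlog : 0 ≤ Real.log |t| := Real.log_nonneg (by linarith)
  set c : ℂ := ⟨-1, t⟩ with hc
  have hball : ∀ z ∈ closedBall c 3, |z.re| ≤ 5 ∧ |z.im - t| ≤ 4 := by
    intro z hz
    rw [mem_closedBall, dist_eq_norm] at hz
    have e1 := abs_le.1 (near_re hz)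
    have e2 := near_im hz
    have e3 : c.re = -1 := rfl
    have e4 : c.im = t := rfl
    rw [e3] at e1
    rw [e4] at e2
    refine ⟨?_, by linarith⟩
    rw [abs_le]
    constructor <;> linarith [e1.1, e1.2]
  have han : AnalyticOnNhd ℂ (F P N a) (closedBall c 3) := by
    intro z hz
    apply F_analytic P N a z
    intro h1'
    obtain ⟨-, b2⟩ := hball z hz
    rw [Set.mem_singleton_iff] at h1'
    rw [h1', Complex.one_im, zero_sub, abs_neg] at b2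
    have hz' := (mem_closedBall.1 hz)
    rw [dist_eq_norm, h1'] at hz'
    have e2 := near_im hz'
    rw [Complex.one_im] at e2
    have e4 : c.im = t := rfl
    rw [e4, zero_sub, abs_neg] at e2
    linarith
  have hcn : F P N a c ≠ 0 := by
    intro h0
    rw [h0, norm_zero] at h2
    linarith
  have key := H370.Loc.jensen_mult (f := F P N a) (c := c) (r := 2) (R := 3) (M := Real.exp (K * Real.log |t|))
    (by norm_num) (by norm_num) (Real.one_le_exp (by positivity)) han hcn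
    (fun z hz => h1 z (hball z hz).1 (hball z hz).2) S (by
      intro z hz
      obtain ⟨b1, b2, b3⟩ := hS z hz
      rw [mem_closedBall, dist_eq_norm]
      have e1 : ‖z - c‖ ^ 2 = (z.re + 1) ^ 2 + (z.im - t) ^ 2 := by
        rw [← Complex.normSq_eq_norm_sq, Complex.normSq_apply]
        have e3 : (z - c).re = z.re + 1 := by simp [hc]
        have e4 : (z - c).im = z.im - t := by simp [hc]
        rw [e3, e4]; ring
      have e2 : (z.im - t) ^ 2 ≤ 1 := by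
        rw [← sq_abs]
        nlinarith [abs_nonneg (z.im - t)]
      have e3 : ‖z - c‖ ^ 2 ≤ 2 ^ 2 := by rw [e1]; nlinarith
      exact (sq_le_sq₀ (norm_nonneg _) (by norm_num)).1 e3)
  have hmult : ∀ z, H370.mult (F P N a) z = analyticOrderNatAt (F P N a) z := fun z => rfl
  simp only [hmult] at key
  refine key.trans ?_
  rw [div_mul_eq_mul_div]
  gcongr
  rw [Real.log_div (Real.exp_pos _).ne' (by linarith), Real.log_exp]
  have := Real.log_nonneg h2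
  linarith

/-- the order of vanishing is positive at zeros -/
lemma order_pos (P : ℂ[X]) (hP : P ≠ 0) (N : ℕ) (a : ℕ → ℂ) {ρ : ℂ} (h1 : ρ ≠ 1) (h0 : F P N a ρ = 0) :
    1 ≤ analyticOrderNatAt (F P N a) ρ := by
  obtain ⟨s, hs1, hs2⟩ := F_ne P hP N a
  exact (H370.Loc.mult_pos compl_pre (F_analytic P N a) (Set.mem_compl_singleton_iff.2 hs1) hs2
    (Set.mem_compl_singleton_iff.2 h1)).2 h0

lemma fin_reg (P : ℂ[X]) (hP : P ≠ 0) (N : ℕ) (a : ℕ → ℂ) (α T : ℝ) (hα : α < 1) :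
    {ρ : ℂ | F P N a ρ = 0 ∧ 0 < ρ.re ∧ ρ.re ≤ α ∧ |ρ.im| ≤ T}.Finite :=
  (fin_F P hP N a 0 α T hα).subset fun ρ h => ⟨h.1, by linarith [h.2.1], h.2.2.1, h.2.2.2⟩

lemma cnt_eq (P : ℂ[X]) (hP : P ≠ 0) (N : ℕ) (a : ℕ → ℂ) (α T : ℝ) (hα : α < 1) :
    cnt (F P N a) α T = ∑ ρ ∈ (fin_reg P hP N a α T hα).toFinset, analyticOrderNatAt (F P N a) ρ := by
  unfold cnt
  rw [finsum_mem_eq_finite_toFinset_sum]

/-- comparison of the counting functions -/
theorem count (P : ℂ[X]) (hP : P ≠ 0) (N : ℕ) (a : ℕ → ℂ) (Q : ℂ[X]) (hQ : Q ≠ 0) (M : ℕ) (b : ℕ → ℂ)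
    (hcomp : CompA (F P N a) (F Q M b)) (ε : ℝ) (hε : 0 < ε) : ∃ C : ℝ, 0 < C ∧ ∀ α T : ℝ, α ≤ 1 / 2 - ε → 2 ≤ T →
    (cnt (F P N a) α T : ℝ) ≤ C * Real.log T * (1 + cnt (F Q M b) (α + ε) (T + C)) := by
  classical
  obtain ⟨H, hH, hcm⟩ := hcomp ε hε
  obtain ⟨C1, t0, hC1, ht0, hwin⟩ := window P hP N a
  set M0 : ℕ := cnt (F P N a) (1 / 2) (t0 + 1) with hM0
  have hlog2 : 0 < Real.log 2 := Real.log_pos (by norm_num)
  set B : ℝ := 2 * C1 + M0 / Real.log 2 with hB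
  have hBp : 0 < B := by positivity
  set NH : ℕ := ⌈2 * H + 4⌉₊ with hNH
  have hNH1 : 2 * H + 4 ≤ NH := Nat.le_ceil _
  refine ⟨B * NH + H, by positivity, fun α T hα hT => ?_⟩
  set C : ℝ := B * NH + H with hCdef
  have hCH : H ≤ C := by
    have : 0 ≤ B * NH := by positivity
    linarith
  have hα1 : α < 1 := by linarith
  have hlogT : Real.log 2 ≤ Real.log T := Real.log_le_log (by norm_num) hT
  have hlogT0 : 0 < Real.log T := by linarith
  rw [cnt_eq P hP N a α T hα1]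
  set Zf : Finset ℂ := (fin_reg P hP N a α T hα1).toFinset with hZf
  have hZfm : ∀ ρ, ρ ∈ Zf ↔ F P N a ρ = 0 ∧ 0 < ρ.re ∧ ρ.re ≤ α ∧ |ρ.im| ≤ T := by
    intro ρ
    rw [hZf, Set.Finite.mem_toFinset]
    rfl
  set κ : ℂ → ℤ := fun ρ => ⌊ρ.im⌋ with hκ
  have hκ1 : ∀ ρ : ℂ, |ρ.im - (κ ρ : ℝ)| ≤ 1 := by
    intro ρ
    have h1 := Int.floor_le ρ.im
    have h2 := Int.lt_floor_add_one ρ.im
    rw [abs_le]
    constructor <;> linarith
  -- inner sums
  have hinner : ∀ k ∈ Zf.image κ, ∑ ρ ∈ Zf with κ ρ = k, (analyticOrderNatAt (F P N a) ρ : ℝ) ≤ B * Real.log T := by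
    intro k hk
    rcases le_or_gt t0 |(k : ℝ)| with hc | hc
    · have h1 := hwin k hc (Zf.filter fun ρ => κ ρ = k) (by
        intro ρ hρ
        rw [Finset.mem_filter] at hρ
        obtain ⟨q1, q2, q3, q4⟩ := (hZfm ρ).1 hρ.1
        refine ⟨q2, by linarith, ?_⟩
        rw [← hρ.2]
        exact hκ1 ρ)
      have h2 : Real.log |(k : ℝ)| ≤ 2 * Real.log T := by
        obtain ⟨ρ, hρ, rfl⟩ := Finset.mem_image.1 hk
        obtain ⟨q1, q2, q3, q4⟩ := (hZfm ρ).1 hρ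
        have h3 : |((κ ρ : ℤ) : ℝ)| ≤ 2 * T := by
          have h4 := abs_sub_abs_le_abs_sub ((κ ρ : ℤ) : ℝ) ρ.im
          rw [abs_sub_comm] at h4
          linarith [hκ1 ρ]
        exact (Real.log_le_log (by linarith) h3).trans (log_two_mul hT)
      refine h1.trans ?_
      have : 0 ≤ (M0 : ℝ) / Real.log 2 * Real.log T := by positivity
      rw [hB]
      nlinarith
    · have h1 : ∑ ρ ∈ Zf with κ ρ = k, analyticOrderNatAt (F P N a) ρ ≤ M0 := by
        rw [hM0, cnt_eq P hP N a (1 / 2) (t0 + 1) (by norm_num)]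
        apply Finset.sum_le_sum_of_subset
        intro ρ hρ
        rw [Finset.mem_filter] at hρ
        obtain ⟨q1, q2, q3, q4⟩ := (hZfm ρ).1 hρ.1
        rw [Set.Finite.mem_toFinset]
        refine ⟨q1, q2, by linarith, ?_⟩
        have h4 := abs_sub_abs_le_abs_sub ρ.im (k : ℝ)
        have h5 := hκ1 ρ
        rw [hρ.2] at h5
        linarith
      have h2 : (M0 : ℝ) ≤ M0 / Real.log 2 * Real.log T := by
        rw [div_mul_eq_mul_div, le_div_iff₀ hlog2]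
        gcongr
      have h3 : (∑ ρ ∈ Zf with κ ρ = k, (analyticOrderNatAt (F P N a) ρ : ℝ)) ≤ M0 := by exact_mod_cast h1
      refine h3.trans (h2.trans ?_)
      rw [hB]
      nlinarith
  -- the number of windows
  have hcard : ((Zf.image κ).card : ℝ) ≤ NH * (1 + cnt (F Q M b) (α + ε) (T + C)) := by
    have hα2 : α + ε < 1 := by linarith
    rw [cnt_eq Q hQ M b (α + ε) (T + C) hα2]
    set Zg : Finset ℂ := (fin_reg Q hQ M b (α + ε) (T + C) hα2).toFinset with hZg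
    have hZgc : (Zg.card : ℝ) ≤ ((∑ ρ ∈ Zg, analyticOrderNatAt (F Q M b) ρ : ℕ) : ℝ) := by
      have : Zg.card ≤ ∑ ρ ∈ Zg, analyticOrderNatAt (F Q M b) ρ := by
        rw [Finset.card_eq_sum_ones]
        apply Finset.sum_le_sum
        intro ρ hρ
        rw [hZg, Set.Finite.mem_toFinset] at hρ
        obtain ⟨q1, q2, q3, q4⟩ := hρ
        apply order_pos Q hQ M b _ q1
        intro h
        rw [h, Complex.one_re] at q3
        linarith
      exact_mod_cast this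
    set I1 : Finset ℤ := (Zf.image κ).filter (fun k => |(k : ℝ)| ≤ H + 1) with hI1
    set I2 : Finset ℤ := (Zf.image κ).filter (fun k => ¬ |(k : ℝ)| ≤ H + 1) with hI2
    have hsplit : (Zf.image κ).card = I1.card + I2.card := by
      rw [hI1, hI2, Finset.card_filter_add_card_filter_not]
    have hiv : ∀ x : ℝ, ∀ J : Finset ℤ, (∀ k ∈ J, |(k : ℝ) - x| ≤ H + 1) → (J.card : ℝ) ≤ NH := by
      intro x J hJ
      have h1 : J ⊆ Finset.Icc ⌈x - (H + 1)⌉ ⌊x + (H + 1)⌋ := by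
        intro k hk
        have := abs_le.1 (hJ k hk)
        rw [Finset.mem_Icc, Int.ceil_le, Int.le_floor]
        constructor <;> linarith [this.1, this.2]
      have h2 := Finset.card_le_card h1
      rw [Int.card_Icc] at h2
      have h3 : ((⌊x + (H + 1)⌋ + 1 - ⌈x - (H + 1)⌉ : ℤ) : ℝ) ≤ 2 * H + 4 := by
        push_cast
        have e1 := Int.floor_le (x + (H + 1))
        have e2 := Int.le_ceil (x - (H + 1))
        linarith
      have h4 : (((⌊x + (H + 1)⌋ + 1 - ⌈x - (H + 1)⌉).toNat : ℕ) : ℝ) ≤ NH := by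
        rcases le_or_gt 0 (⌊x + (H + 1)⌋ + 1 - ⌈x - (H + 1)⌉) with h5 | h5
        · have h6 : (((⌊x + (H + 1)⌋ + 1 - ⌈x - (H + 1)⌉).toNat : ℤ) : ℝ) = ((⌊x + (H + 1)⌋ + 1 - ⌈x - (H + 1)⌉ : ℤ) : ℝ) := by
            rw [Int.toNat_of_nonneg h5]
          rw [← Int.cast_natCast, h6]
          linarith
        · rw [Int.toNat_of_nonpos h5.le]
          simp
      calc (J.card : ℝ) ≤ (((⌊x + (H + 1)⌋ + 1 - ⌈x - (H + 1)⌉).toNat : ℕ) : ℝ) := by exact_mod_cast h2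
        _ ≤ NH := h4
    have hI1c : (I1.card : ℝ) ≤ NH := by
      apply hiv 0
      intro k hk
      rw [hI1, Finset.mem_filter] at hk
      rw [sub_zero]
      exact hk.2
    have hchoice : ∀ k ∈ I2, ∃ ρ' ∈ Zg, |(k : ℝ) - ρ'.im| ≤ H + 1 := by
      intro k hk
      rw [hI2, Finset.mem_filter] at hk
      obtain ⟨hk1, hk2⟩ := hk
      push Not at hk2
      obtain ⟨ρ, hρ, rfl⟩ := Finset.mem_image.1 hk1
      obtain ⟨q1, q2, q3, q4⟩ := (hZfm ρ).1 hρ
      have h5 := hκ1 ρ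
      have h6 : H ≤ |ρ.im| := by
        have h4 := abs_sub_abs_le_abs_sub ((κ ρ : ℤ) : ℝ) ρ.im
        rw [abs_sub_comm] at h4
        linarith
      obtain ⟨ρ', r1, r2, r3, r4⟩ := hcm ρ q1 q2 (by linarith) h6
      refine ⟨ρ', ?_, ?_⟩
      · rw [hZg, Set.Finite.mem_toFinset]
        refine ⟨r1, r2, by linarith, ?_⟩
        have h4 := abs_sub_abs_le_abs_sub ρ'.im ρ.im
        linarith
      · calc |((κ ρ : ℤ) : ℝ) - ρ'.im| = |(ρ.im - ρ'.im) - (ρ.im - ((κ ρ : ℤ) : ℝ))| := by ring_nf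
          _ ≤ |ρ.im - ρ'.im| + |ρ.im - ((κ ρ : ℤ) : ℝ)| := abs_sub _ _
          _ ≤ H + 1 := by
              rw [abs_sub_comm ρ.im ρ'.im]
              linarith
    choose! f hf1 hf2 using hchoice
    have hI2c : I2.card ≤ NH * (I2.image f).card := by
      apply Finset.card_le_mul_card_image
      intro z hz
      have := hiv z.im (I2.filter fun x => f x = z) (by
        intro k hk
        rw [Finset.mem_filter] at hk
        have := hf2 k hk.1
        rwa [hk.2] at this)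
      exact_mod_cast this
    have hI2d : (I2.image f).card ≤ Zg.card := by
      apply Finset.card_le_card
      intro z hz
      obtain ⟨k, hk, rfl⟩ := Finset.mem_image.1 hz
      exact hf1 k hk
    have hI2e : (I2.card : ℝ) ≤ NH * Zg.card := by
      have : I2.card ≤ NH * Zg.card := hI2c.trans (Nat.mul_le_mul_left _ hI2d)
      exact_mod_cast this
    rw [hsplit]
    push_cast
    have hNH0 : (0:ℝ) ≤ NH := by positivity
    push_cast at hZgc
    nlinarith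
  -- combine
  have hsum : ((∑ ρ ∈ Zf, analyticOrderNatAt (F P N a) ρ : ℕ) : ℝ) =
      ∑ k ∈ Zf.image κ, ∑ ρ ∈ Zf with κ ρ = k, (analyticOrderNatAt (F P N a) ρ : ℝ) := by
    push_cast
    rw [Finset.sum_fiberwise_of_maps_to]
    intro ρ hρ
    exact Finset.mem_image_of_mem κ hρ
  rw [hsum]
  calc ∑ k ∈ Zf.image κ, ∑ ρ ∈ Zf with κ ρ = k, (analyticOrderNatAt (F P N a) ρ : ℝ)
      ≤ ∑ k ∈ Zf.image κ, B * Real.log T := Finset.sum_le_sum hinner
    _ = (Zf.image κ).card * (B * Real.log T) := by rw [Finset.sum_const, nsmul_eq_mul]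
    _ ≤ (NH * (1 + cnt (F Q M b) (α + ε) (T + C))) * (B * Real.log T) := by gcongr
    _ = (B * NH) * Real.log T * (1 + cnt (F Q M b) (α + ε) (T + C)) := by ring
    _ ≤ _ := by
        gcongr
        linarith

end Pool.Agent.Zk17.QS
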